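import Pool.Agent.H121.FL.Main
import Pool.Agent.H588.FL.Eqn
import Pool.Agent.H71.FL.Off
import Pool.Agent.H215.FL.Dec2
import Pool.Agent.H721.FL.Mob
import Pool.Agent.H894.FL.On
import Pool.Agent.H662.FL.It
import Pool.Agent.H328.FL.Fm
import Pool.Agent.H113.FL.Eig
import Pool.Agent.H277.FL.Wd
import Pool.Agent.H227.FL.Fml
import Pool.Agent.H120.FL.One
import Pool.Agent.H539.FLT.Ten
import Pool.Agent.H333.FL.Fold

/-! Project FL: the theorem without hypotheses. -/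

set_option autoImplicit false

open scoped BigOperators InnerProductSpace Topology ENNReal
open Filter MeasureTheory

namespace Pool.Agent.H121.FL

open Pool.Agent.H987.Z (SqS IsSp)
open Pool.Agent.H987.Y (Lt)

theorem fold_ok : S_fold := Pool.Agent.H333.FL.fold

theorem main (d : ℕ) (hd : 1 ≤ d) (ε : ℝ) (hε : 0 < ε) :
    ∃ (A : Lt d → Lt d → ℝ) (N R : ℕ), 0 < N ∧ (∀ x y, A x y = A y x) ∧
      (∀ x y v, A (x + (N : ℤ) • v) (y + (N : ℤ) • v) = A x y) ∧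
      (∀ x y, A x y ≠ 0 → ∀ i, |x i - y i| ≤ R) ∧
      (∀ x, (Summable fun y => |A x y|) ∧ ∑' y, |A x y| ≤ ε) ∧
      ∀ (D : ℝ) (r : ℕ), 0 < D → ∃ lam0 κ ν : ℝ, 0 < lam0 ∧ 0 < κ ∧ 0 < ν ∧
        ∀ (μ : Measure ℝ) [IsProbabilityMeasure μ], (∀ᵐ v ∂μ, |v| ≤ 1) →
        (∀ S : Set ℝ, MeasurableSet S → μ S ≤ ENNReal.ofReal D * volume S) →
        ∀ (lam : ℝ) (B : Lt d → Lt d → ℝ), 0 < lam → lam ≤ lam0 → (∀ x y, B x y = B y x) →
        (∀ x y, |B x y| ≤ κ * lam) → (∀ x y, B x y ≠ 0 → ∀ i, |x i - y i| ≤ r) →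
        ∀ᵐ ω ∂(Measure.infinitePi fun _ : Lt d => μ),
          (∀ f : Lt d → ℂ, SqS f → ∃ m : Measure ℝ, IsSp (Hf (fun x y => A x y + B x y) lam ω) f m) ∧
          (∀ (f : Lt d → ℂ) (m : Measure ℝ), SqS f →
            IsSp (Hf (fun x y => A x y + B x y) lam ω) f m → ∃ S : Set ℝ, S.Countable ∧ m Sᶜ = 0) ∧
          ELf ν (Hf (fun x y => A x y + B x y) lam ω) := by
  have heqn : S_eqn := Pool.Agent.H588.FL.eqn
  have hdec : S_dec2 := Pool.Agent.H215.FL.dec2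
  have hmob : S_mob := Pool.Agent.H721.FL.mob
  have hoff : S_off := Pool.Agent.H71.FL.off heqn
  have hon : S_on := Pool.Agent.H894.FL.on heqn hdec hmob
  have hit : S_it := Pool.Agent.H662.FL.s_it
  have hfm : S_fm := Pool.Agent.H328.FL.fm heqn hoff hon hit
  have hfml : S_fml := Pool.Agent.H227.FL.fml Pool.Agent.H113.FL.eig Pool.Agent.H277.FL.wd
  have hten : S_ten := Pool.Agent.H539.FLT.t_ten (Pool.Agent.H120.FL.one fold_ok)
  exact main_of hten heqn hfm hfml d hd ε hε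

end Pool.Agent.H121.FL
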