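import Pool.Agent.H894.FL.On

/-! Project FL: the inequality at resonance with an explicit dependence on the range (after
`Pool/Agent/H894/FL/On.lean`). -/

set_option autoImplicit false

open scoped BigOperators InnerProductSpace Topology ENNReal
open Filter MeasureTheory

namespace Pool.Agent.H121.FL

open Pool.Agent.Y662.TR (LL Cf Mw dv hu clp clp_abs clp_eq)
open Pool.Agent.TH369.AN (Rz)
open Pool.Agent.H987.Z (Rs Gr)
open Pool.Agent.H987.Y (Lt Ker Op kf)
open Pool.Agent.H121.Z987 (HH lint_resample rpow_tsum_le enorm_rpow Gr_meas1)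
open Pool.Agent.H894.FL

/-- the inequality at resonance: the constant is `c0 / (nb d R)^s` -/
theorem onq (h1 : S_eqn) (h2 : S_dec2) (h3 : S_mob) (s D : ℝ) (hs : 0 < s) (hs1 : s < 1)
    (hD : 0 < D) : ∃ c0 : ℝ, 0 < c0 ∧ ∀ (d R r : ℕ) (g h b : ℝ) (t φ B : Lt d → Lt d → ℝ)
    (E : Lt d → ℝ), 0 < g → FB R t φ E g → Ker h t → 0 ≤ b → SB r b B →
    ∀ (μ : Measure ℝ) [IsProbabilityMeasure μ] (lam : ℝ), LD D μ → 0 < lam →
    ∀ (y a : Lt d) (z : ℂ), 0 < z.im → |E a - z.re| < g / 2 →
      ENNReal.ofReal (c0 / (nb d R : ℝ) ^ s * lam ^ s) * fa φ (Op (tB t B)) lam s μ z y a ≤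
        (if nm (a - y) ≤ R then 1 else 0) +
        ENNReal.ofReal (lam ^ s) * (∑' a', if nm (a - a') ≤ 2 * R ∧ g / 2 ≤ |E a' - z.re| then
          fa φ (Op (tB t B)) lam s μ z y a' else 0) +
        ENNReal.ofReal ((b * (nb d R : ℝ) ^ 2) ^ s) *
          ∑' a', if nm (a - a') ≤ 2 * R + r then fa φ (Op (tB t B)) lam s μ z y a' else 0 := by
  classical
  obtain ⟨c0, hc0, hd⟩ := h2 s D hs hs1 hD
  refine ⟨c0, hc0, ?_⟩
  intro d R r g h b t φ B E hg H hKt hb0 hB μ hμP lam hμ hlam y a z hz hzE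
  have hn : (0 : ℝ) < nb d R := by
    unfold nb
    positivity
  obtain ⟨⟨h', hK⟩, hv, hba, heq⟩ := h1 d R r g h b t φ B E H hKt hb0 hB
  have hT : Rs (Op (tB t B)) := (Pool.Agent.H168.Y987.op _ _ _ hK).2.2.1
  obtain ⟨T, hTd⟩ : ∃ T, T = Op (tB t B) := ⟨_, rfl⟩
  rw [← hTd] at hT heq ⊢
  obtain ⟨x0, hx0, hx1⟩ := fb_big H a
  have hfin := fb_fin H a
  have hmf : ∀ a', Measurable fun ω : Lt d → ℝ => ‖cf φ T lam ω z y a'‖ₑ ^ s := by
    intro a'
    refine Measurable.pow_const (Measurable.enorm ?_) s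
    have h4 : ∀ ω : Lt d → ℝ, cf φ T lam ω z y a' =
        ∑ x ∈ bx a' R, ((φ a' x : ℝ) : ℂ) * Gr (HH T lam ω) z x y := by
      intro ω
      unfold cf
      refine tsum_eq_sum fun x hx => ?_
      rw [fb_zero H a' x hx]
      simp
    simp only [h4]
    exact Finset.measurable_fun_sum _ fun x _ => (Gr_meas1 T hT lam z x y hz.ne').const_mul _
  calc ENNReal.ofReal (c0 / (nb d R : ℝ) ^ s * lam ^ s) * fa φ T lam s μ z y a ≤
      ENNReal.ofReal (c0 * (lam * φ a x0 ^ 2) ^ s) * fa φ T lam s μ z y a := by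
        refine mul_le_mul_left (ENNReal.ofReal_le_ofReal ?_) _
        have h5 : c0 / (nb d R : ℝ) ^ s * lam ^ s = c0 * (lam * (1 / (nb d R : ℝ))) ^ s := by
          rw [Real.mul_rpow hlam.le (by positivity), Real.div_rpow (by norm_num) hn.le,
            Real.one_rpow]
          ring
        rw [h5]
        gcongr
    _ ≤ ∫⁻ ω, ‖((E a : ℂ) - z) + ((va φ (fun x => clp lam (lam * ω x)) a a : ℝ) : ℂ)‖ₑ ^ s *
          ‖cf φ T lam ω z y a‖ₑ ^ s ∂(Measure.infinitePi fun _ : Lt d => μ) := by
        exact dec_sum h3 T hT lam s c0 hlam hs μ hμ.1 (fun α β p q hβ => hd μ hμ α β p q hβ)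
          (φ a) hfin ((E a : ℂ) - z) z hz y x0 hx0
    _ ≤ ∫⁻ ω, ((if nm (a - y) ≤ R then 1 else 0) +
        ENNReal.ofReal (lam ^ s) * (∑' a', if nm (a - a') ≤ 2 * R ∧ g / 2 ≤ |E a' - z.re| then
          ‖cf φ T lam ω z y a'‖ₑ ^ s else 0) +
        ENNReal.ofReal ((b * (nb d R : ℝ) ^ 2) ^ s) *
          ∑' a', if nm (a - a') ≤ 2 * R + r then ‖cf φ T lam ω z y a'‖ₑ ^ s else 0)
          ∂(Measure.infinitePi fun _ : Lt d => μ) := by
        refine lintegral_mono fun ω => ?_
        refine ptw H (ba φ B) (fun x => clp lam (lam * ω x)) lam s hs hs1 z a y hzE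
          (fun a' => hv lam _ a a' hlam.le fun x => ?_) (hba a) (cf φ T lam ω z y)
          (heq lam ω z y a hlam hz.ne')
        exact (clp_abs lam _).trans (le_of_eq (abs_of_pos hlam))
    _ = _ := by
        have m1 : ∀ a', Measurable fun ω : Lt d → ℝ =>
            (if nm (a - a') ≤ 2 * R ∧ g / 2 ≤ |E a' - z.re| then
              ‖cf φ T lam ω z y a'‖ₑ ^ s else 0 : ℝ≥0∞) := by
          intro a'
          split_ifs
          · exact hmf a'
          · exact measurable_const
        have m2 : ∀ a', Measurable fun ω : Lt d → ℝ =>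
            (if nm (a - a') ≤ 2 * R + r then ‖cf φ T lam ω z y a'‖ₑ ^ s else 0 : ℝ≥0∞) := by
          intro a'
          split_ifs
          · exact hmf a'
          · exact measurable_const
        have m3 : Measurable fun ω : Lt d → ℝ => ((if nm (a - y) ≤ R then 1 else 0) +
            ENNReal.ofReal (lam ^ s) *
            (∑' a', if nm (a - a') ≤ 2 * R ∧ g / 2 ≤ |E a' - z.re| then
              ‖cf φ T lam ω z y a'‖ₑ ^ s else 0) : ℝ≥0∞) :=
          measurable_const.add ((Measurable.tsum m1).const_mul _)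
        rw [lintegral_add_left m3, lintegral_add_left measurable_const,
          lintegral_const, measure_univ, mul_one, lintegral_const_mul' _ _ ENNReal.ofReal_ne_top,
          lintegral_const_mul' _ _ ENNReal.ofReal_ne_top,
          lintegral_tsum fun a' => (m1 a').aemeasurable,
          lintegral_tsum fun a' => (m2 a').aemeasurable]
        congr 1
        · congr 1
          congr 1
          refine tsum_congr fun a' => ?_
          split_ifs
          · rfl
          · exact lintegral_zero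
        · congr 1
          refine tsum_congr fun a' => ?_
          split_ifs
          · rfl
          · exact lintegral_zero

end Pool.Agent.H121.FL
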