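import Pool.Agent.H121.FL.FmR
import Pool.Agent.H121.FL.OnQ

/-! Project FL: exponential decay of the fractional moments, with explicit constants. -/

set_option autoImplicit false

open scoped BigOperators InnerProductSpace Topology ENNReal
open Filter MeasureTheory

namespace Pool.Agent.H121.FL

open Pool.Agent.Y662.TR (LL Cf Mw dv hu clp)
open Pool.Agent.TH369.AN (Rz)
open Pool.Agent.TH369.MU (SpM ep zk)
open Pool.Agent.H987.Z (Rs Gr)
open Pool.Agent.H987.Y (Lt Ker Op kf)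
open Pool.Agent.H121.Z987 (HH wt Q HH_rs enorm_rpow Gr_meas1)
open Pool.Agent.H304.Z987 (Gr_le)
open Pool.Agent.H328.FL (nm_comm nm_tri nm_self bl bl_card mem_bl cnt SS SS_mono SS_shift fa_le gr_pow_le
  one_le_nb)

/-- the constant of the contraction -/
noncomputable def kq (s g c nR nR' N : ℝ) : ℝ :=
  (2 / g) ^ s * (1 + (nR ^ 2) ^ s) * nR' +
    ((2 / g) ^ s * (1 + (nR ^ 2) ^ s) * N + (nR ^ 2) ^ s) * nR' / c + 1

theorem parq (s g c nR nR' N : ℝ) (hs : 0 < s) (hg : 0 < g) (hc : 0 < c) (hR : 1 ≤ nR)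
    (hR' : 1 ≤ nR') (hN : 1 ≤ N) (lam θ : ℝ) (hlam : 0 < lam) (hle : lam ≤ θ)
    (hθ : kq s g c nR nR' N * θ ^ (s / 2) ≤ 1 / 2) : θ ^ (s / 2) ≤ 1 / 2 ∧
      (2 / g) ^ s * (lam ^ s + (θ * lam * nR ^ 2) ^ s) ≤ θ ^ (s / 2) / nR' ∧
      lam ^ s * (2 / g) ^ s * (lam ^ s + (θ * lam * nR ^ 2) ^ s) * N + (θ * lam * nR ^ 2) ^ s ≤
        c * lam ^ s * (θ ^ (s / 2) / nR') := by
  obtain ⟨p, hp⟩ : ∃ p : ℝ, p = (2 / g) ^ s := ⟨_, rfl⟩
  have hp0 : 0 < p := by rw [hp]; positivity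
  obtain ⟨m, hm⟩ : ∃ m : ℝ, m = (nR ^ 2) ^ s := ⟨_, rfl⟩
  have hm0 : 0 < m := by rw [hm]; positivity
  obtain ⟨K, hK⟩ : ∃ K : ℝ, K = p * (1 + m) * nR' + (p * (1 + m) * N + m) * nR' / c + 1 := ⟨_, rfl⟩
  have hKq : kq s g c nR nR' N = K := by
    rw [hK, hp, hm]
    rfl
  rw [hKq] at hθ
  have hK1 : 1 ≤ K := by
    rw [hK]
    have : 0 ≤ p * (1 + m) * nR' + (p * (1 + m) * N + m) * nR' / c := by positivity
    linarith
  have hK2 : p * (1 + m) * nR' ≤ K := by
    rw [hK]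
    have : 0 ≤ (p * (1 + m) * N + m) * nR' / c := by positivity
    linarith
  have hK3 : (p * (1 + m) * N + m) * nR' / c ≤ K := by
    rw [hK]
    have : 0 ≤ p * (1 + m) * nR' := by positivity
    linarith
  have hK0 : 0 < K := by linarith
  have hθ0' : 0 < θ := lt_of_lt_of_le hlam hle
  obtain ⟨τ, hτ⟩ : ∃ τ : ℝ, τ = θ ^ (s / 2) := ⟨_, rfl⟩
  rw [← hτ] at hθ
  have hτ0 : 0 < τ := by rw [hτ]; positivity
  have hτK : K * τ ≤ 1 := by linarith
  have hτh : τ ≤ 1 / 2 := by nlinarith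
  obtain ⟨v, hv⟩ : ∃ v : ℝ, v = lam ^ s := ⟨_, rfl⟩
  have hv0 : 0 < v := by rw [hv]; positivity
  have hw : θ ^ s = τ * τ := by
    rw [hτ, ← Real.rpow_add hθ0']
    congr 1
    ring
  have hvw : v ≤ τ * τ := by
    rw [hv, ← hw]
    exact Real.rpow_le_rpow hlam.le hle hs.le
  have hv1 : v ≤ 1 := hvw.trans (by nlinarith)
  have hB : (θ * lam * nR ^ 2) ^ s = τ * τ * v * m := by
    rw [Real.mul_rpow (by positivity) (by positivity), Real.mul_rpow hθ0'.le hlam.le, hw, ← hv, ← hm]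
  rw [hB, ← hp, ← hv, ← hτ]
  have e0 : v + τ * τ * v * m ≤ (1 + m) * (τ * τ) := by
    have h1 : τ * τ * v * m ≤ τ * τ * m := by
      apply mul_le_mul_of_nonneg_right _ hm0.le
      exact mul_le_of_le_one_right (by positivity) hv1
    nlinarith
  have e1 : p * (v + τ * τ * v * m) ≤ p * (1 + m) * (τ * τ) := by
    calc p * (v + τ * τ * v * m) ≤ p * ((1 + m) * (τ * τ)) := mul_le_mul_of_nonneg_left e0 hp0.le
      _ = _ := by ring
  have e2 : p * (1 + m) * nR' * τ ≤ 1 := (mul_le_mul_of_nonneg_right hK2 hτ0.le).trans hτK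
  have e3 : (p * (1 + m) * N + m) * nR' / c * τ ≤ 1 :=
    (mul_le_mul_of_nonneg_right hK3 hτ0.le).trans hτK
  have hnR0 : 0 < nR' := by linarith
  refine ⟨hτh, ?_, ?_⟩
  · rw [le_div_iff₀ hnR0]
    calc p * (v + τ * τ * v * m) * nR' ≤ p * (1 + m) * (τ * τ) * nR' :=
          mul_le_mul_of_nonneg_right e1 hnR0.le
      _ = (p * (1 + m) * nR' * τ) * τ := by ring
      _ ≤ 1 * τ := mul_le_mul_of_nonneg_right e2 hτ0.le
      _ = τ := one_mul _
  · calc v * p * (v + τ * τ * v * m) * N + τ * τ * v * m =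
          v * (p * (v + τ * τ * v * m) * N + τ * τ * m) := by ring
      _ ≤ v * (p * (1 + m) * (τ * τ) * N + τ * τ * m) := by
          apply mul_le_mul_of_nonneg_left _ hv0.le
          have := mul_le_mul_of_nonneg_right e1 (show (0 : ℝ) ≤ N by linarith)
          linarith
      _ = c * v * (((p * (1 + m) * N + m) * nR' / c * τ) * τ / nR') := by
          field_simp
      _ ≤ c * v * (1 * τ / nR') := by
          apply mul_le_mul_of_nonneg_left _ (by positivity)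
          apply div_le_div_of_nonneg_right _ hnR0.le
          exact mul_le_mul_of_nonneg_right e3 hτ0.le
      _ = c * v * (τ / nR') := by rw [one_mul]

/-- the inequality at resonance with the constant `c0 / (nb d R)^s` -/
def ONQ (s D c0 : ℝ) : Prop := ∀ (d R r : ℕ) (g h b : ℝ) (t φ B : Lt d → Lt d → ℝ)
    (E : Lt d → ℝ), 0 < g → FB R t φ E g → Ker h t → 0 ≤ b → SB r b B →
    ∀ (μ : Measure ℝ) [IsProbabilityMeasure μ] (lam : ℝ), LD D μ → 0 < lam →
    ∀ (y a : Lt d) (z : ℂ), 0 < z.im → |E a - z.re| < g / 2 →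
      ENNReal.ofReal (c0 / (nb d R : ℝ) ^ s * lam ^ s) * fa φ (Op (tB t B)) lam s μ z y a ≤
        (if nm (a - y) ≤ R then 1 else 0) +
        ENNReal.ofReal (lam ^ s) * (∑' a', if nm (a - a') ≤ 2 * R ∧ g / 2 ≤ |E a' - z.re| then
          fa φ (Op (tB t B)) lam s μ z y a' else 0) +
        ENNReal.ofReal ((b * (nb d R : ℝ) ^ 2) ^ s) *
          ∑' a', if nm (a - a') ≤ 2 * R + r then fa φ (Op (tB t B)) lam s μ z y a' else 0

theorem fmq (h1 : S_eqn) (h2 : S_off) (s D c0 : ℝ) (hc0 : 0 < c0) (h3 : ONQ s D c0) (hs : 0 < s)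
    (hs1 : s < 1) (d R r : ℕ) (g : ℝ) (hg : 0 < g)
    (h : ℝ) (t φ : Lt d → Lt d → ℝ) (E : Lt d → ℝ) (hF : FB R t φ E g) (hk : Ker h t)
    (μ : Measure ℝ) [IsProbabilityMeasure μ] (lam θ : ℝ) (hμ : LD D μ) (hlam : 0 < lam) (hle : lam ≤ θ)
    (hθK : kq s g (c0 / (nb d R : ℝ) ^ s) (nb d R) (nb d (4 * (R + r) + 1)) (nb d (2 * R)) *
      θ ^ (s / 2) ≤ 1 / 2)
    (B : Lt d → Lt d → ℝ) (hB : SB r (θ * lam) B) :
    ∃ C : ℝ, 0 ≤ C ∧ ∀ (x y : Lt d) (z : ℂ), 0 < z.im →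
      ∫⁻ ω, ‖Gr (HH (Op (tB t B)) lam ω) z x y‖ₑ ^ s ∂(Measure.infinitePi fun _ : Lt d => μ) ≤
        ENNReal.ofReal (C * Real.exp (-(s / (2 * ((4 * (R + r) + 1 : ℕ) : ℝ)) *
          Real.log (1 / θ)) * nm (x - y))) := by
  have hnb : (0 : ℝ) < nb d R := lt_of_lt_of_le one_pos (one_le_nb d R)
  obtain ⟨c, hcd⟩ : ∃ c : ℝ, c = c0 / (nb d R : ℝ) ^ s := ⟨_, rfl⟩
  have hc : 0 < c := by rw [hcd]; positivity
  have hon := h3 d R r
  obtain ⟨R', hR'⟩ : ∃ R' : ℕ, R' = 4 * (R + r) + 1 := ⟨_, rfl⟩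
  rw [← hR', ← hcd] at hθK
  rw [← hR']
  rw [← hcd] at hon
  have hR'0 : 0 < R' := by omega
  have hR'r : (0 : ℝ) < R' := by exact_mod_cast hR'0
  have hθp : 0 < θ := lt_of_lt_of_le hlam hle
  have hb : 0 ≤ θ * lam := by positivity
  obtain ⟨⟨h', hk'⟩, -⟩ := h1 d R r g h (θ * lam) t φ B E hF hk hb hB
  have hT : Rs (Op (tB t B)) := ((Pool.Agent.H168.Y987.op _ _ _ hk').2).2.1
  obtain ⟨hp0, hp1, hp2⟩ := parq s g c (nb d R) (nb d R') (nb d (2 * R)) hs hg hc
    (one_le_nb d R) (one_le_nb d R') (one_le_nb d (2 * R)) lam θ hlam hle hθK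
  obtain ⟨τ, hτ⟩ : ∃ τ : ℝ, τ = θ ^ (s / 2) := ⟨_, rfl⟩
  rw [← hτ] at hp0 hp1 hp2
  have hτ0 : 0 < τ := by rw [hτ]; positivity
  have hrate : Real.log (1 / τ) / R' = s / (2 * R') * Real.log (1 / θ) := by
    rw [hτ, one_div, one_div, Real.log_inv, Real.log_inv, Real.log_rpow hθp]
    field_simp
  have hlog : 0 < Real.log (1 / τ) := by
    apply Real.log_pos
    rw [lt_div_iff₀ hτ0]
    linarith
  rw [← hrate]
  obtain ⟨T, hTdef⟩ : ∃ T, T = Op (tB t B) := ⟨_, rfl⟩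
  obtain ⟨P, hP⟩ : ∃ P, P = ENNReal.ofReal ((2 / g) ^ s) := ⟨_, rfl⟩
  obtain ⟨L, hL⟩ : ∃ L, L = ENNReal.ofReal (lam ^ s) := ⟨_, rfl⟩
  obtain ⟨Lq, hLq⟩ : ∃ Lq, Lq = ENNReal.ofReal (lam ^ s + (θ * lam * (nb d R : ℝ) ^ 2) ^ s) :=
    ⟨_, rfl⟩
  obtain ⟨Qs, hQs⟩ : ∃ Qs, Qs = ENNReal.ofReal ((θ * lam * (nb d R : ℝ) ^ 2) ^ s) := ⟨_, rfl⟩
  obtain ⟨K, hK⟩ : ∃ K, K = ENNReal.ofReal (c * lam ^ s) := ⟨_, rfl⟩
  obtain ⟨N, hN⟩ : ∃ N : ℝ≥0∞, N = (nb d (2 * R) : ℝ≥0∞) := ⟨_, rfl⟩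
  obtain ⟨V, hV⟩ : ∃ V : ℝ≥0∞, V = ENNReal.ofReal τ * (nb d R' : ℝ≥0∞)⁻¹ := ⟨_, rfl⟩
  have hcl : 0 < c * lam ^ s := by positivity
  have hK0 : K ≠ 0 := by rw [hK]; exact (ENNReal.ofReal_pos.2 hcl).ne'
  have hKt : K ≠ ∞ := by rw [hK]; exact ENNReal.ofReal_ne_top
  have hPL : P * Lq ≤ V := by
    rw [hP, hLq, hV, inv_nb2 d R' τ hτ0, ← ENNReal.ofReal_mul (by positivity)]
    exact ENNReal.ofReal_le_ofReal hp1
  have hon2 : L * (N * (P * Lq)) + Qs ≤ K * V := by
    have e1 : L * (N * (P * Lq)) + Qs = ENNReal.ofReal (lam ^ s * (2 / g) ^ s *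
        (lam ^ s + (θ * lam * (nb d R : ℝ) ^ 2) ^ s) * (nb d (2 * R) : ℝ) +
        (θ * lam * (nb d R : ℝ) ^ 2) ^ s) := by
      rw [ENNReal.ofReal_add (by positivity) (by positivity), hQs, hL, hN, hP, hLq,
        ENNReal.ofReal_mul (by positivity), ENNReal.ofReal_mul (by positivity),
        ENNReal.ofReal_mul (by positivity), ENNReal.ofReal_natCast]
      ring
    rw [e1, hK, hV, inv_nb2 d R' τ hτ0, ← ENNReal.ofReal_mul (by positivity)]
    exact ENNReal.ofReal_le_ofReal hp2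
  obtain ⟨A, hA⟩ : ∃ A, A = P + K⁻¹ * (1 + L * (N * P)) := ⟨_, rfl⟩
  have hPt : P ≠ ∞ := by rw [hP]; exact ENNReal.ofReal_ne_top
  have hLt : L ≠ ∞ := by rw [hL]; exact ENNReal.ofReal_ne_top
  have hNt : N ≠ ∞ := by rw [hN]; exact ENNReal.natCast_ne_top _
  have hAt : A ≠ ∞ := by
    rw [hA]
    refine ENNReal.add_ne_top.2 ⟨hPt, ENNReal.mul_ne_top (ENNReal.inv_ne_top.2 hK0) ?_⟩
    exact ENNReal.add_ne_top.2 ⟨ENNReal.one_ne_top, ENNReal.mul_ne_top hLt
      (ENNReal.mul_ne_top hNt hPt)⟩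
  -- the decay of the moments of the coefficients
  have hdec : ∀ (y : Lt d) (z : ℂ), 0 < z.im → ∀ a, fa φ T lam s μ z y a ≤
      ENNReal.ofReal (2 / τ) * A *
        ENNReal.ofReal (Real.exp (-(Real.log (1 / τ) / R') * nm (a - y))) := by
    intro y z hz
    refine it2 d R' y (fa φ T lam s μ z y) ((nb d R : ℝ≥0∞) * ENNReal.ofReal ((1 / z.im) ^ s)) A τ
      hR'0 hτ0 hp0 (ENNReal.mul_ne_top (ENNReal.natCast_ne_top _) ENNReal.ofReal_ne_top) ?_ hAt ?_
    · intro a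
      rw [hTdef]
      exact fa_le hF _ hT lam s hs hs1.le μ z hz y a
    · intro a
      obtain ⟨f, hf⟩ : ∃ f, f = fa φ T lam s μ z y := ⟨_, rfl⟩
      rw [← hf, ← hV]
      have hoff : ∀ a, g / 2 ≤ |E a - z.re| → f a ≤
          P * ((if nm (a - y) ≤ R then 1 else 0) + Lq * SS (2 * R + r) f a) := by
        intro a ha
        rw [hf, hP, hLq, hTdef]
        exact h2 d R r g h s (θ * lam) t φ B E hg hs hs1 hF hk hb hB μ lam hlam y a z hz ha
      change f a ≤ (if nm (a - y) ≤ R' then A else 0) + V * SS R' f a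
      obtain ⟨F, hFd⟩ : ∃ F, F = SS R' f a := ⟨_, rfl⟩
      obtain ⟨I', hI'⟩ : ∃ I' : ℝ≥0∞, I' = if nm (a - y) ≤ R' then 1 else 0 := ⟨_, rfl⟩
      have hAI : (if nm (a - y) ≤ R' then A else 0) = A * I' := by
        rw [hI']
        split_ifs <;> simp
      rw [hAI, ← hFd]
      have hI : (if nm (a - y) ≤ R then (1 : ℝ≥0∞) else 0) ≤ I' := by
        rw [hI']
        by_cases h5 : nm (a - y) ≤ R
        · rw [if_pos h5, if_pos (by omega)]
        · rw [if_neg h5]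
          exact bot_le
      have hSF : SS (2 * R + r) f a ≤ F := by
        rw [hFd]
        exact SS_mono (by omega) (fun _ => le_rfl) a
      by_cases ha : g / 2 ≤ |E a - z.re|
      · refine (hoff a ha).trans ?_
        calc P * ((if nm (a - y) ≤ R then 1 else 0) + Lq * SS (2 * R + r) f a) ≤
            P * (I' + Lq * F) := by gcongr
          _ = P * I' + P * Lq * F := by ring
          _ ≤ A * I' + V * F := by
              gcongr
              rw [hA]
              exact le_self_add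
      · have h6 := hon g h (θ * lam) t φ B E hg hF hk hb hB μ lam hμ hlam y a z hz (not_le.1 ha)
        rw [← hTdef, ← hf, ← hK, ← hL, ← hQs] at h6
        have h7 : (∑' a', if nm (a - a') ≤ 2 * R ∧ g / 2 ≤ |E a' - z.re| then f a' else 0) ≤
            N * (P * (I' + Lq * F)) := by
          rw [hN]
          refine le_trans (ENNReal.tsum_le_tsum fun a' => ?_) (cnt (2 * R) a (P * (I' + Lq * F)))
          by_cases h8 : nm (a - a') ≤ 2 * R
          · rw [if_pos h8]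
            by_cases h9 : g / 2 ≤ |E a' - z.re|
            · rw [if_pos ⟨h8, h9⟩]
              refine (hoff a' h9).trans ?_
              have h10 : (if nm (a' - y) ≤ R then (1 : ℝ≥0∞) else 0) ≤ I' := by
                rw [hI']
                by_cases h5 : nm (a' - y) ≤ R
                · have h11 := nm_tri a a' y
                  rw [if_pos h5, if_pos (by omega)]
                · rw [if_neg h5]
                  exact bot_le
              have h12 : SS (2 * R + r) f a' ≤ F := by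
                rw [hFd]
                exact SS_shift (m := 2 * R) (by omega) f a a' h8
              gcongr
            · rw [if_neg fun h => h9 h.2]
              exact bot_le
          · rw [if_neg fun h => h8 h.1, if_neg h8]
        have h8 : K * f a ≤ (1 + L * (N * P)) * I' + K * V * F := by
          calc K * f a ≤ I' + L * (N * (P * (I' + Lq * F))) + Qs * F := by
                refine h6.trans ?_
                refine add_le_add (add_le_add hI (mul_le_mul' le_rfl h7)) (mul_le_mul' le_rfl hSF)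
            _ = (1 + L * (N * P)) * I' + (L * (N * (P * Lq)) + Qs) * F := by ring
            _ ≤ _ := by gcongr
        calc f a = K⁻¹ * (K * f a) := by
              rw [← mul_assoc, ENNReal.inv_mul_cancel hK0 hKt, one_mul]
          _ ≤ K⁻¹ * ((1 + L * (N * P)) * I' + K * V * F) := by gcongr
          _ = K⁻¹ * (1 + L * (N * P)) * I' + K⁻¹ * K * (V * F) := by ring
          _ = K⁻¹ * (1 + L * (N * P)) * I' + V * F := by
              rw [ENNReal.inv_mul_cancel hK0 hKt, one_mul]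
          _ ≤ A * I' + V * F := by
              gcongr
              rw [hA]
              exact le_add_self
  -- the Green function
  obtain ⟨ν, hν⟩ : ∃ ν : ℝ, ν = Real.log (1 / τ) / R' := ⟨_, rfl⟩
  have hν0 : 0 < ν := by rw [hν]; positivity
  rw [← hν] at hdec ⊢
  refine ⟨(nb d R : ℝ) * (2 / τ * A.toReal * Real.exp (ν * R)), by positivity, ?_⟩
  intro x y z hz
  rw [← hTdef]
  refine (gr_pow_le hF T (hTdef ▸ hT) lam s hs hs1.le μ z hz x y).trans ?_
  have hterm : ∀ a ∈ bl R x, (if nm (a - x) ≤ R then fa φ T lam s μ z y a else 0) ≤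
      ENNReal.ofReal (2 / τ * A.toReal * Real.exp (ν * R) * Real.exp (-ν * nm (x - y))) := by
    intro a _
    split_ifs with h5
    · refine (hdec y z hz a).trans ?_
      have e1 : ENNReal.ofReal (2 / τ) * A * ENNReal.ofReal (Real.exp (-ν * nm (a - y))) =
          ENNReal.ofReal (2 / τ * A.toReal * Real.exp (-ν * nm (a - y))) := by
        rw [ENNReal.ofReal_mul (by positivity), ENNReal.ofReal_mul (by positivity),
          ENNReal.ofReal_toReal hAt]
      rw [e1]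
      apply ENNReal.ofReal_le_ofReal
      rw [mul_assoc (2 / τ * A.toReal)]
      apply mul_le_mul_of_nonneg_left _ (by positivity)
      rw [← Real.exp_add]
      apply Real.exp_le_exp.2
      have h6 := nm_tri x a y
      rw [nm_comm x a] at h6
      have h7 : (nm (x - y) : ℝ) ≤ R + nm (a - y) := by
        have : nm (x - y) ≤ R + nm (a - y) := by omega
        exact_mod_cast this
      nlinarith
    · exact bot_le
  refine (Finset.sum_le_sum hterm).trans ?_
  rw [Finset.sum_const, bl_card, nsmul_eq_mul, ← ENNReal.ofReal_natCast,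
    ← ENNReal.ofReal_mul (by positivity)]
  apply ENNReal.ofReal_le_ofReal
  apply le_of_eq
  ring

end Pool.Agent.H121.FL
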