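import Pool.Agent.H121.FL.ItR
import Pool.Agent.H328.FL.Fm

/-! Project FL: exponential decay of the fractional moments with a rate `c log (1/θ)` if `lam ≤ θ` and the
entries of the perturbation are at most `θ lam`. -/

set_option autoImplicit false

open scoped BigOperators InnerProductSpace Topology ENNReal
open Filter MeasureTheory

namespace Pool.Agent.H121.FL

open Pool.Agent.Y662.TR (LL Cf Mw dv hu clp)
open Pool.Agent.TH369.AN (Rz)
open Pool.Agent.TH369.MU (SpM ep zk)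
open Pool.Agent.H987.Z (Rs Gr)
open Pool.Agent.H987.Y (Lt Ker Op kf)
open Pool.Agent.H121.Z987 (HH wt Q HH_rs enorm_rpow Gr_meas1)
open Pool.Agent.H304.Z987 (Gr_le)
open Pool.Agent.H328.FL (nm_comm nm_tri nm_self bl bl_card mem_bl cnt SS SS_mono SS_shift fa_le gr_pow_le
  one_le_nb)

theorem par2 (s g c nR nR' N : ℝ) (hs : 0 < s) (hg : 0 < g) (hc : 0 < c) (hR : 1 ≤ nR)
    (hR' : 1 ≤ nR') (hN : 1 ≤ N) : ∃ θ0 : ℝ, 0 < θ0 ∧ θ0 < 1 ∧ ∀ lam θ : ℝ, 0 < lam → lam ≤ θ →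
      θ ≤ θ0 → θ ^ (s / 2) ≤ 1 / 2 ∧
      (2 / g) ^ s * (lam ^ s + (θ * lam * nR ^ 2) ^ s) ≤ θ ^ (s / 2) / nR' ∧
      lam ^ s * (2 / g) ^ s * (lam ^ s + (θ * lam * nR ^ 2) ^ s) * N + (θ * lam * nR ^ 2) ^ s ≤
        c * lam ^ s * (θ ^ (s / 2) / nR') := by
  obtain ⟨p, hp⟩ : ∃ p : ℝ, p = (2 / g) ^ s := ⟨_, rfl⟩
  have hp0 : 0 < p := by rw [hp]; positivity
  obtain ⟨m, hm⟩ : ∃ m : ℝ, m = (nR ^ 2) ^ s := ⟨_, rfl⟩
  have hm0 : 0 < m := by rw [hm]; positivity
  obtain ⟨K, hK⟩ : ∃ K : ℝ, K = p * (1 + m) * nR' + (p * (1 + m) * N + m) * nR' / c + 1 := ⟨_, rfl⟩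
  have hK1 : 1 ≤ K := by
    rw [hK]
    have : 0 ≤ p * (1 + m) * nR' + (p * (1 + m) * N + m) * nR' / c := by positivity
    linarith
  have hK2 : p * (1 + m) * nR' ≤ K := by
    rw [hK]
    have : 0 ≤ (p * (1 + m) * N + m) * nR' / c := by positivity
    linarith
  have hK3 : (p * (1 + m) * N + m) * nR' / c ≤ K := by
    rw [hK]
    have : 0 ≤ p * (1 + m) * nR' := by positivity
    linarith
  have hK0 : 0 < K := by linarith
  obtain ⟨θ0, hθ0⟩ : ∃ θ0 : ℝ, θ0 = (1 / (2 * K)) ^ (2 / s) := ⟨_, rfl⟩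
  have hθp : 0 < θ0 := by rw [hθ0]; positivity
  have hθ1 : θ0 < 1 := by
    rw [hθ0]
    apply Real.rpow_lt_one (by positivity) _ (by positivity)
    rw [div_lt_one (by positivity)]
    linarith
  have hθ2 : θ0 ^ (s / 2) = 1 / (2 * K) := by
    rw [hθ0, ← Real.rpow_mul (by positivity)]
    have : 2 / s * (s / 2) = 1 := by field_simp
    rw [this, Real.rpow_one]
  refine ⟨θ0, hθp, hθ1, fun lam θ hlam hle hθ => ?_⟩
  have hθ0' : 0 < θ := lt_of_lt_of_le hlam hle
  obtain ⟨τ, hτ⟩ : ∃ τ : ℝ, τ = θ ^ (s / 2) := ⟨_, rfl⟩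
  have hτ0 : 0 < τ := by rw [hτ]; positivity
  have hτ1 : τ ≤ 1 / (2 * K) := by
    rw [hτ, ← hθ2]
    exact Real.rpow_le_rpow hθ0'.le hθ (by positivity)
  have hτK : K * τ ≤ 1 := by
    calc K * τ ≤ K * (1 / (2 * K)) := mul_le_mul_of_nonneg_left hτ1 hK0.le
      _ = 1 / 2 := by field_simp
      _ ≤ 1 := by norm_num
  have hτh : τ ≤ 1 / 2 := by
    refine hτ1.trans ?_
    apply one_div_le_one_div_of_le (by norm_num)
    linarith
  obtain ⟨v, hv⟩ : ∃ v : ℝ, v = lam ^ s := ⟨_, rfl⟩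
  have hv0 : 0 < v := by rw [hv]; positivity
  have hw : θ ^ s = τ * τ := by
    rw [hτ, ← Real.rpow_add hθ0']
    congr 1
    ring
  have hvw : v ≤ τ * τ := by
    rw [hv, ← hw]
    exact Real.rpow_le_rpow hlam.le hle hs.le
  have hv1 : v ≤ 1 := hvw.trans (by nlinarith)
  have hB : (θ * lam * nR ^ 2) ^ s = τ * τ * v * m := by
    rw [Real.mul_rpow (by positivity) (by positivity), Real.mul_rpow hθ0'.le hlam.le, hw, ← hv, ← hm]
  rw [hB, ← hp, ← hv, ← hτ]
  have e0 : v + τ * τ * v * m ≤ (1 + m) * (τ * τ) := by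
    have h1 : τ * τ * v * m ≤ τ * τ * m := by
      apply mul_le_mul_of_nonneg_right _ hm0.le
      exact mul_le_of_le_one_right (by positivity) hv1
    nlinarith
  have e1 : p * (v + τ * τ * v * m) ≤ p * (1 + m) * (τ * τ) := by
    calc p * (v + τ * τ * v * m) ≤ p * ((1 + m) * (τ * τ)) := mul_le_mul_of_nonneg_left e0 hp0.le
      _ = _ := by ring
  have e2 : p * (1 + m) * nR' * τ ≤ 1 := (mul_le_mul_of_nonneg_right hK2 hτ0.le).trans hτK
  have e3 : (p * (1 + m) * N + m) * nR' / c * τ ≤ 1 :=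
    (mul_le_mul_of_nonneg_right hK3 hτ0.le).trans hτK
  have hnR0 : 0 < nR' := by linarith
  refine ⟨hτh, ?_, ?_⟩
  · rw [le_div_iff₀ hnR0]
    calc p * (v + τ * τ * v * m) * nR' ≤ p * (1 + m) * (τ * τ) * nR' :=
          mul_le_mul_of_nonneg_right e1 hnR0.le
      _ = (p * (1 + m) * nR' * τ) * τ := by ring
      _ ≤ 1 * τ := mul_le_mul_of_nonneg_right e2 hτ0.le
      _ = τ := one_mul _
  · calc v * p * (v + τ * τ * v * m) * N + τ * τ * v * m =
          v * (p * (v + τ * τ * v * m) * N + τ * τ * m) := by ring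
      _ ≤ v * (p * (1 + m) * (τ * τ) * N + τ * τ * m) := by
          apply mul_le_mul_of_nonneg_left _ hv0.le
          have := mul_le_mul_of_nonneg_right e1 (show (0 : ℝ) ≤ N by linarith)
          linarith
      _ = c * v * (((p * (1 + m) * N + m) * nR' / c * τ) * τ / nR') := by
          field_simp
      _ ≤ c * v * (1 * τ / nR') := by
          apply mul_le_mul_of_nonneg_left _ (by positivity)
          apply div_le_div_of_nonneg_right _ hnR0.le
          exact mul_le_mul_of_nonneg_right e3 hτ0.le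
      _ = c * v * (τ / nR') := by rw [one_mul]

theorem inv_nb2 (d R : ℕ) (τ : ℝ) (hτ : 0 < τ) : ENNReal.ofReal τ * (nb d R : ℝ≥0∞)⁻¹ =
    ENNReal.ofReal (τ / (nb d R : ℝ)) := by
  have h := one_le_nb d R
  rw [div_eq_mul_inv, ENNReal.ofReal_mul hτ.le, ENNReal.ofReal_inv_of_pos (by linarith),
    ENNReal.ofReal_natCast]

theorem fm2 (h1 : S_eqn) (h2 : S_off) (h3 : S_on) (d R r : ℕ) (g s D : ℝ) (hg : 0 < g) (hs : 0 < s)
    (hs1 : s < 1) (hD : 0 < D) :
    ∃ θ0 c1 : ℝ, 0 < θ0 ∧ θ0 < 1 ∧ 0 < c1 ∧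
    ∀ (h : ℝ) (t φ : Lt d → Lt d → ℝ) (E : Lt d → ℝ), FB R t φ E g → Ker h t →
    ∀ (μ : Measure ℝ) [IsProbabilityMeasure μ] (lam θ : ℝ), LD D μ → 0 < lam → lam ≤ θ → θ ≤ θ0 →
    ∀ B : Lt d → Lt d → ℝ, SB r (θ * lam) B →
    ∃ C : ℝ, 0 ≤ C ∧ ∀ (x y : Lt d) (z : ℂ), 0 < z.im →
      ∫⁻ ω, ‖Gr (HH (Op (tB t B)) lam ω) z x y‖ₑ ^ s ∂(Measure.infinitePi fun _ : Lt d => μ) ≤
        ENNReal.ofReal (C * Real.exp (-(c1 * Real.log (1 / θ)) * nm (x - y))) := by
  obtain ⟨c, hc, hon⟩ := h3 d R r s D hs hs1 hD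
  obtain ⟨R', hR'⟩ : ∃ R' : ℕ, R' = 4 * (R + r) + 1 := ⟨_, rfl⟩
  obtain ⟨θ0, hθ0, hθ1, hpar⟩ := par2 s g c (nb d R) (nb d R') (nb d (2 * R)) hs hg hc
    (one_le_nb d R) (one_le_nb d R') (one_le_nb d (2 * R))
  have hR'0 : 0 < R' := by omega
  have hR'r : (0 : ℝ) < R' := by exact_mod_cast hR'0
  refine ⟨θ0, s / (2 * R'), hθ0, hθ1, by positivity, ?_⟩
  intro h t φ E hF hk μ _ lam θ hμ hlam hle hθ B hB
  have hθp : 0 < θ := lt_of_lt_of_le hlam hle
  have hb : 0 ≤ θ * lam := by positivity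
  obtain ⟨⟨h', hk'⟩, -⟩ := h1 d R r g h (θ * lam) t φ B E hF hk hb hB
  have hT : Rs (Op (tB t B)) := ((Pool.Agent.H168.Y987.op _ _ _ hk').2).2.1
  obtain ⟨hp0, hp1, hp2⟩ := hpar lam θ hlam hle hθ
  obtain ⟨τ, hτ⟩ : ∃ τ : ℝ, τ = θ ^ (s / 2) := ⟨_, rfl⟩
  rw [← hτ] at hp0 hp1 hp2
  have hτ0 : 0 < τ := by rw [hτ]; positivity
  have hrate : Real.log (1 / τ) / R' = s / (2 * R') * Real.log (1 / θ) := by
    rw [hτ, one_div, one_div, Real.log_inv, Real.log_inv, Real.log_rpow hθp]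
    field_simp
  have hlog : 0 < Real.log (1 / τ) := by
    apply Real.log_pos
    rw [lt_div_iff₀ hτ0]
    linarith
  rw [← hrate]
  obtain ⟨T, hTdef⟩ : ∃ T, T = Op (tB t B) := ⟨_, rfl⟩
  obtain ⟨P, hP⟩ : ∃ P, P = ENNReal.ofReal ((2 / g) ^ s) := ⟨_, rfl⟩
  obtain ⟨L, hL⟩ : ∃ L, L = ENNReal.ofReal (lam ^ s) := ⟨_, rfl⟩
  obtain ⟨Lq, hLq⟩ : ∃ Lq, Lq = ENNReal.ofReal (lam ^ s + (θ * lam * (nb d R : ℝ) ^ 2) ^ s) :=
    ⟨_, rfl⟩
  obtain ⟨Qs, hQs⟩ : ∃ Qs, Qs = ENNReal.ofReal ((θ * lam * (nb d R : ℝ) ^ 2) ^ s) := ⟨_, rfl⟩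
  obtain ⟨K, hK⟩ : ∃ K, K = ENNReal.ofReal (c * lam ^ s) := ⟨_, rfl⟩
  obtain ⟨N, hN⟩ : ∃ N : ℝ≥0∞, N = (nb d (2 * R) : ℝ≥0∞) := ⟨_, rfl⟩
  obtain ⟨V, hV⟩ : ∃ V : ℝ≥0∞, V = ENNReal.ofReal τ * (nb d R' : ℝ≥0∞)⁻¹ := ⟨_, rfl⟩
  have hcl : 0 < c * lam ^ s := by positivity
  have hK0 : K ≠ 0 := by rw [hK]; exact (ENNReal.ofReal_pos.2 hcl).ne'
  have hKt : K ≠ ∞ := by rw [hK]; exact ENNReal.ofReal_ne_top
  have hPL : P * Lq ≤ V := by
    rw [hP, hLq, hV, inv_nb2 d R' τ hτ0, ← ENNReal.ofReal_mul (by positivity)]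
    exact ENNReal.ofReal_le_ofReal hp1
  have hon2 : L * (N * (P * Lq)) + Qs ≤ K * V := by
    have e1 : L * (N * (P * Lq)) + Qs = ENNReal.ofReal (lam ^ s * (2 / g) ^ s *
        (lam ^ s + (θ * lam * (nb d R : ℝ) ^ 2) ^ s) * (nb d (2 * R) : ℝ) +
        (θ * lam * (nb d R : ℝ) ^ 2) ^ s) := by
      rw [ENNReal.ofReal_add (by positivity) (by positivity), hQs, hL, hN, hP, hLq,
        ENNReal.ofReal_mul (by positivity), ENNReal.ofReal_mul (by positivity),
        ENNReal.ofReal_mul (by positivity), ENNReal.ofReal_natCast]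
      ring
    rw [e1, hK, hV, inv_nb2 d R' τ hτ0, ← ENNReal.ofReal_mul (by positivity)]
    exact ENNReal.ofReal_le_ofReal hp2
  obtain ⟨A, hA⟩ : ∃ A, A = P + K⁻¹ * (1 + L * (N * P)) := ⟨_, rfl⟩
  have hPt : P ≠ ∞ := by rw [hP]; exact ENNReal.ofReal_ne_top
  have hLt : L ≠ ∞ := by rw [hL]; exact ENNReal.ofReal_ne_top
  have hNt : N ≠ ∞ := by rw [hN]; exact ENNReal.natCast_ne_top _
  have hAt : A ≠ ∞ := by
    rw [hA]
    refine ENNReal.add_ne_top.2 ⟨hPt, ENNReal.mul_ne_top (ENNReal.inv_ne_top.2 hK0) ?_⟩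
    exact ENNReal.add_ne_top.2 ⟨ENNReal.one_ne_top, ENNReal.mul_ne_top hLt
      (ENNReal.mul_ne_top hNt hPt)⟩
  -- the decay of the moments of the coefficients
  have hdec : ∀ (y : Lt d) (z : ℂ), 0 < z.im → ∀ a, fa φ T lam s μ z y a ≤
      ENNReal.ofReal (2 / τ) * A *
        ENNReal.ofReal (Real.exp (-(Real.log (1 / τ) / R') * nm (a - y))) := by
    intro y z hz
    refine it2 d R' y (fa φ T lam s μ z y) ((nb d R : ℝ≥0∞) * ENNReal.ofReal ((1 / z.im) ^ s)) A τ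
      hR'0 hτ0 hp0 (ENNReal.mul_ne_top (ENNReal.natCast_ne_top _) ENNReal.ofReal_ne_top) ?_ hAt ?_
    · intro a
      rw [hTdef]
      exact fa_le hF _ hT lam s hs hs1.le μ z hz y a
    · intro a
      obtain ⟨f, hf⟩ : ∃ f, f = fa φ T lam s μ z y := ⟨_, rfl⟩
      rw [← hf, ← hV]
      have hoff : ∀ a, g / 2 ≤ |E a - z.re| → f a ≤
          P * ((if nm (a - y) ≤ R then 1 else 0) + Lq * SS (2 * R + r) f a) := by
        intro a ha
        rw [hf, hP, hLq, hTdef]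
        exact h2 d R r g h s (θ * lam) t φ B E hg hs hs1 hF hk hb hB μ lam hlam y a z hz ha
      change f a ≤ (if nm (a - y) ≤ R' then A else 0) + V * SS R' f a
      obtain ⟨F, hFd⟩ : ∃ F, F = SS R' f a := ⟨_, rfl⟩
      obtain ⟨I', hI'⟩ : ∃ I' : ℝ≥0∞, I' = if nm (a - y) ≤ R' then 1 else 0 := ⟨_, rfl⟩
      have hAI : (if nm (a - y) ≤ R' then A else 0) = A * I' := by
        rw [hI']
        split_ifs <;> simp
      rw [hAI, ← hFd]
      have hI : (if nm (a - y) ≤ R then (1 : ℝ≥0∞) else 0) ≤ I' := by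
        rw [hI']
        by_cases h5 : nm (a - y) ≤ R
        · rw [if_pos h5, if_pos (by omega)]
        · rw [if_neg h5]
          exact bot_le
      have hSF : SS (2 * R + r) f a ≤ F := by
        rw [hFd]
        exact SS_mono (by omega) (fun _ => le_rfl) a
      by_cases ha : g / 2 ≤ |E a - z.re|
      · refine (hoff a ha).trans ?_
        calc P * ((if nm (a - y) ≤ R then 1 else 0) + Lq * SS (2 * R + r) f a) ≤
            P * (I' + Lq * F) := by gcongr
          _ = P * I' + P * Lq * F := by ring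
          _ ≤ A * I' + V * F := by
              gcongr
              rw [hA]
              exact le_self_add
      · have h6 := hon g h (θ * lam) t φ B E hg hF hk hb hB μ lam hμ hlam y a z hz (not_le.1 ha)
        rw [← hTdef, ← hf, ← hK, ← hL, ← hQs] at h6
        have h7 : (∑' a', if nm (a - a') ≤ 2 * R ∧ g / 2 ≤ |E a' - z.re| then f a' else 0) ≤
            N * (P * (I' + Lq * F)) := by
          rw [hN]
          refine le_trans (ENNReal.tsum_le_tsum fun a' => ?_) (cnt (2 * R) a (P * (I' + Lq * F)))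
          by_cases h8 : nm (a - a') ≤ 2 * R
          · rw [if_pos h8]
            by_cases h9 : g / 2 ≤ |E a' - z.re|
            · rw [if_pos ⟨h8, h9⟩]
              refine (hoff a' h9).trans ?_
              have h10 : (if nm (a' - y) ≤ R then (1 : ℝ≥0∞) else 0) ≤ I' := by
                rw [hI']
                by_cases h5 : nm (a' - y) ≤ R
                · have h11 := nm_tri a a' y
                  rw [if_pos h5, if_pos (by omega)]
                · rw [if_neg h5]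
                  exact bot_le
              have h12 : SS (2 * R + r) f a' ≤ F := by
                rw [hFd]
                exact SS_shift (m := 2 * R) (by omega) f a a' h8
              gcongr
            · rw [if_neg fun h => h9 h.2]
              exact bot_le
          · rw [if_neg fun h => h8 h.1, if_neg h8]
        have h8 : K * f a ≤ (1 + L * (N * P)) * I' + K * V * F := by
          calc K * f a ≤ I' + L * (N * (P * (I' + Lq * F))) + Qs * F := by
                refine h6.trans ?_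
                refine add_le_add (add_le_add hI (mul_le_mul' le_rfl h7)) (mul_le_mul' le_rfl hSF)
            _ = (1 + L * (N * P)) * I' + (L * (N * (P * Lq)) + Qs) * F := by ring
            _ ≤ _ := by gcongr
        calc f a = K⁻¹ * (K * f a) := by
              rw [← mul_assoc, ENNReal.inv_mul_cancel hK0 hKt, one_mul]
          _ ≤ K⁻¹ * ((1 + L * (N * P)) * I' + K * V * F) := by gcongr
          _ = K⁻¹ * (1 + L * (N * P)) * I' + K⁻¹ * K * (V * F) := by ring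
          _ = K⁻¹ * (1 + L * (N * P)) * I' + V * F := by
              rw [ENNReal.inv_mul_cancel hK0 hKt, one_mul]
          _ ≤ A * I' + V * F := by
              gcongr
              rw [hA]
              exact le_add_self
  -- the Green function
  obtain ⟨ν, hν⟩ : ∃ ν : ℝ, ν = Real.log (1 / τ) / R' := ⟨_, rfl⟩
  have hν0 : 0 < ν := by rw [hν]; positivity
  rw [← hν] at hdec ⊢
  refine ⟨(nb d R : ℝ) * (2 / τ * A.toReal * Real.exp (ν * R)), by positivity, ?_⟩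
  intro x y z hz
  rw [← hTdef]
  refine (gr_pow_le hF T (hTdef ▸ hT) lam s hs hs1.le μ z hz x y).trans ?_
  have hterm : ∀ a ∈ bl R x, (if nm (a - x) ≤ R then fa φ T lam s μ z y a else 0) ≤
      ENNReal.ofReal (2 / τ * A.toReal * Real.exp (ν * R) * Real.exp (-ν * nm (x - y))) := by
    intro a _
    split_ifs with h5
    · refine (hdec y z hz a).trans ?_
      have e1 : ENNReal.ofReal (2 / τ) * A * ENNReal.ofReal (Real.exp (-ν * nm (a - y))) =
          ENNReal.ofReal (2 / τ * A.toReal * Real.exp (-ν * nm (a - y))) := by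
        rw [ENNReal.ofReal_mul (by positivity), ENNReal.ofReal_mul (by positivity),
          ENNReal.ofReal_toReal hAt]
      rw [e1]
      apply ENNReal.ofReal_le_ofReal
      rw [mul_assoc (2 / τ * A.toReal)]
      apply mul_le_mul_of_nonneg_left _ (by positivity)
      rw [← Real.exp_add]
      apply Real.exp_le_exp.2
      have h6 := nm_tri x a y
      rw [nm_comm x a] at h6
      have h7 : (nm (x - y) : ℝ) ≤ R + nm (a - y) := by
        have : nm (x - y) ≤ R + nm (a - y) := by omega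
        exact_mod_cast this
      nlinarith
    · exact bot_le
  refine (Finset.sum_le_sum hterm).trans ?_
  rw [Finset.sum_const, bl_card, nsmul_eq_mul, ← ENNReal.ofReal_natCast,
    ← ENNReal.ofReal_mul (by positivity)]
  apply ENNReal.ofReal_le_ofReal
  apply le_of_eq
  ring

end Pool.Agent.H121.FL
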