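import Pool.Agent.H121.Z987.Main
import Pool.Agent.H987.Y.StA

/-! Project FL (helper121): localization at arbitrarily weak disorder for arbitrarily small periodic
finite range perturbations of the Laplacian. Sub-statements. -/

set_option autoImplicit false

open scoped BigOperators InnerProductSpace Topology ENNReal
open Filter MeasureTheory

namespace Pool.Agent.H121.FL

open Pool.Agent.Y662.TR (LL Cf Mw dv hu clp)
open Pool.Agent.TH369.AN (Rz)
open Pool.Agent.TH369.MU (SpM ep zk)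
open Pool.Agent.H987.Z (Rs Gr)
open Pool.Agent.H987.Y (Lt Ker Op kf)
open Pool.Agent.H121.Z987 (HH wt Q)

/-- the `ℓ¹` norm on the lattice -/
def nm {d : ℕ} (x : Lt d) : ℕ := ∑ i, (x i).natAbs

/-- a bound for the number of points of the ball `nm ≤ R` -/
def nb (d R : ℕ) : ℕ := (2 * R + 1) ^ d

/-- **flat band structure**: the kernel `t` has range `R` and an orthonormal basis `φ a`, `a ∈ ℤ^d`, of real
eigenfunctions, `φ a` with support in the ball of radius `R` around `a`; the energies `E a` which are not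
equal differ by at least `g`, and two different eigenfunctions with the same energy have disjoint supports. -/
structure FB {d : ℕ} (R : ℕ) (t φ : Lt d → Lt d → ℝ) (E : Lt d → ℝ) (g : ℝ) : Prop where
  sy : ∀ x y, t x y = t y x
  trg : ∀ x y, t x y ≠ 0 → nm (x - y) ≤ R
  rg : ∀ a x, φ a x ≠ 0 → nm (a - x) ≤ R
  on : ∀ a b, HasSum (fun x => φ a x * φ b x) (if a = b then 1 else 0)
  cp : ∀ x y, HasSum (fun a => φ a x * φ a y) (if x = y then 1 else 0)
  eg : ∀ a x, HasSum (fun y => t x y * φ a y) (E a * φ a x)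
  gp : ∀ a b, E a ≠ E b → g ≤ |E a - E b|
  ds : ∀ a b, a ≠ b → E a = E b → ∀ x, φ a x * φ b x = 0

/-- the coefficient of the column `y` of the Green function of `T + lam ω` at the basis vector `φ a` -/
noncomputable def cf {d : ℕ} (φ : Lt d → Lt d → ℝ) (T : LL (Lt d) →L[ℂ] LL (Lt d)) (lam : ℝ)
    (ω : Lt d → ℝ) (z : ℂ) (y a : Lt d) : ℂ :=
  ∑' x, ((φ a x : ℝ) : ℂ) * Gr (HH T lam ω) z x y

/-- its fractional moment -/
noncomputable def fa {d : ℕ} (φ : Lt d → Lt d → ℝ) (T : LL (Lt d) →L[ℂ] LL (Lt d)) (lam s : ℝ)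
    (μ : Measure ℝ) [IsProbabilityMeasure μ] (z : ℂ) (y a : Lt d) : ℝ≥0∞ :=
  ∫⁻ ω, ‖cf φ T lam ω z y a‖ₑ ^ s ∂(Measure.infinitePi fun _ : Lt d => μ)

/-- the matrix elements of a multiplication operator in the basis `φ` -/
noncomputable def va {d : ℕ} (φ : Lt d → Lt d → ℝ) (v : Lt d → ℝ) (a b : Lt d) : ℝ :=
  ∑' x, φ a x * v x * φ b x

/-- the matrix elements of the kernel `B` in the basis `φ` -/
noncomputable def ba {d : ℕ} (φ B : Lt d → Lt d → ℝ) (a b : Lt d) : ℝ :=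
  ∑' x, ∑' x', φ a x * B x x' * φ b x'

/-- the kernel `t + B` -/
def tB {d : ℕ} (t B : Lt d → Lt d → ℝ) (x y : Lt d) : ℝ := t x y + B x y

/-- symmetric kernels of range `r` with entries at most `b` -/
structure SB {d : ℕ} (r : ℕ) (b : ℝ) (B : Lt d → Lt d → ℝ) : Prop where
  sy : ∀ x y, B x y = B y x
  bd : ∀ x y, |B x y| ≤ b
  rg : ∀ x y, r < nm (x - y) → B x y = 0

/-- laws on `[-1, 1]` with density at most `D` -/
def LD (D : ℝ) (μ : Measure ℝ) : Prop :=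
  (∀ᵐ v ∂μ, |v| ≤ 1) ∧ ∀ A : Set ℝ, MeasurableSet A → μ A ≤ ENNReal.ofReal D * volume A

/-- **FL-EQN (the equation in the basis `φ`).**

Proof. `u x = Gr (HH T lam ω) z x y` is the resolvent applied to `dv y`:
`T u x + v x * u x - z * u x = (if x = y then 1 else 0)`, `v x = clp lam (lam * ω x)` (`HH_apply`, `rz_eq`
of `Pool.Agent.TH369.AN`), `T u x = ∑' x', (t x x' + B x x') u x'` (`S_op`, proved:
`Pool.Agent.H168.Y987.op`; `Ker h' (tB t B)` as `B` has range `r`). Multiply by `φ a x` and sum over `x` (a finite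
sum). `∑_x φ a x ∑_x' t x x' u x' = E a * cf a` (`FB.eg`, `FB.sy`, finite sums). With
`u x = ∑_b φ b x * cf b` (`FB.cp`; finite sums: `cf b = ∑_x' φ b x' u x'`) the other two terms become
`∑_b va φ v a b * cf b` and `∑_b ba φ B a b * cf b`. The bounds: `|va| ≤ ∑ |φ a x| |v x| |φ b x| ≤ lam`
(Cauchy-Schwarz, `FB.on`), `|φ a x| ≤ 1`, at most `nb d R` points `x` with `φ a x ≠ 0`. -/
def S_eqn : Prop :=
  ∀ (d R r : ℕ) (g h b : ℝ) (t φ B : Lt d → Lt d → ℝ) (E : Lt d → ℝ), FB R t φ E g → Ker h t →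
    0 ≤ b → SB r b B →
    (∃ h' : ℝ, Ker h' (tB t B)) ∧
    (∀ (lam : ℝ) (v : Lt d → ℝ) (a a' : Lt d), 0 ≤ lam → (∀ x, |v x| ≤ lam) →
      |va φ v a a'| ≤ lam ∧ (2 * R < nm (a - a') → va φ v a a' = 0)) ∧
    (∀ a a' : Lt d, |ba φ B a a'| ≤ b * (nb d R : ℝ) ^ 2 ∧ (2 * R + r < nm (a - a') → ba φ B a a' = 0)) ∧
    ∀ (lam : ℝ) (ω : Lt d → ℝ) (z : ℂ) (y a : Lt d), 0 < lam → z.im ≠ 0 →
      ((E a : ℂ) - z) * cf φ (Op (tB t B)) lam ω z y a +
        ∑' a', ((va φ (fun x => clp lam (lam * ω x)) a a' + ba φ B a a' : ℝ) : ℂ) *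
          cf φ (Op (tB t B)) lam ω z y a' = ((φ a y : ℝ) : ℂ)

/-- **FL-OFF (off resonance).** Assume `S_eqn` as a hypothesis.

Proof. `|E a - z| ≥ |E a - z.re| ≥ g/2`, so by `S_eqn` (`|clp lam _| ≤ lam`)
`|cf a| ≤ (2/g) (|φ a y| + ∑_b' (lam + b nb²) |cf b'|)`, the sum over `nm (a - b') ≤ 2 R + r`. Take the power `s`
(subadditive: `ENNReal.rpow_add_le_add_rpow`, for finite sums `ENNReal.rpow_sum_le_sum_rpow` or by induction)
and integrate (`lintegral_tsum` or a finite sum; measurability from `Gr_meas1` of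
`Pool.Agent.H121.Z987`). -/
def S_off : Prop :=
  ∀ (d R r : ℕ) (g h s b : ℝ) (t φ B : Lt d → Lt d → ℝ) (E : Lt d → ℝ), 0 < g → 0 < s → s < 1 →
    FB R t φ E g → Ker h t → 0 ≤ b → SB r b B →
    ∀ (μ : Measure ℝ) [IsProbabilityMeasure μ] (lam : ℝ), 0 < lam →
    ∀ (y a : Lt d) (z : ℂ), 0 < z.im → g / 2 ≤ |E a - z.re| →
      fa φ (Op (tB t B)) lam s μ z y a ≤ ENNReal.ofReal ((2 / g) ^ s) *
        ((if nm (a - y) ≤ R then 1 else 0) +
          ENNReal.ofReal (lam ^ s + (b * (nb d R : ℝ) ^ 2) ^ s) *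
            ∑' a', if nm (a - a') ≤ 2 * R + r then fa φ (Op (tB t B)) lam s μ z y a' else 0)

/-- **FL-DEC2 (decoupling inequality).** `μ` a probability measure on `[-1,1]` with density at most `D`.

Proof. Let `W(A) = ∫_A |p + q v|^s |v - β|^{-s} dμ`. It suffices to find `r ∈ (0,1)`, depending on `s, D` only,
with `W({|v - α| < r}) ≤ W(ℝ) / 2`; then `c = r^s / 2`. By homogeneity `q = 0`, `p = 1` (this is the lemma
`S_dec`, proved as `Pool.Agent.H122.Z987.dec`, see its file for the details) or `q = 1`, `p = -γ`.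
(a) `|γ| > 2`: `|γ|/2 ≤ |v - γ| ≤ 3|γ|/2` on `[-1,1]`, so this case follows from the case `q = 0` for a
smaller `r` (the quotient changes by at most `3^s ≤ 3`).
(b) `|γ| ≤ 2`, `|β| ≤ 2`: `W(ℝ) ≥ 3^{-s} ∫ |v - γ|^s dμ ≥ 3^{-1} (1/2) (1/(4D))^s` as
`μ({|v - Re γ| < 1/(4D)}) ≤ 1/2` (note `D ≥ 1/2`), and
`W({|v - α| < r}) ≤ 3^s ∫_{|v - α| < r} |v - β|^{-s} dμ ≤ 3 * 4 D r^{1-s}/(1-s)` (proof of `S_dec`).
(c) `|γ| ≤ 2`, `|β| > 2`: `W({|v - α| < r}) ≤ (|β|/2)^{-s} 3 * 2 D r` and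
`W(ℝ) ≥ (3|β|/2)^{-s} (1/2) (1/(4D))^s`. -/
def S_dec2 : Prop :=
  ∀ s D : ℝ, 0 < s → s < 1 → 0 < D → ∃ c : ℝ, 0 < c ∧
    ∀ (μ : Measure ℝ) [IsProbabilityMeasure μ], LD D μ → ∀ α β p q : ℂ, β.im ≠ 0 →
      ENNReal.ofReal c * ∫⁻ v : ℝ, ENNReal.ofReal (‖p + q * (v : ℂ)‖ ^ s * ‖(v : ℂ) - β‖ ^ (-s)) ∂μ ≤
        ∫⁻ v : ℝ, ENNReal.ofReal (‖(v : ℂ) - α‖ ^ s *
          (‖p + q * (v : ℂ)‖ ^ s * ‖(v : ℂ) - β‖ ^ (-s))) ∂μ

open Classical in
/-- **FL-MOB (dependence on the potential at one site).**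

Proof. `rank_one`, `HH_update`, `site` of `Pool/Agent/H121/Z987/{Op,Mom}.lean`: with `G = Gr` for the value `0`
of the potential at `x0`, `Gr (v) x y = G x y - lam v G x x0 * G x0 y / (1 + lam v G x0 x0)`
`= (G x y + lam v (G x y * G x0 x0 - G x x0 * G x0 y)) / (1 + lam v G x0 x0)`; multiply by `f x`, sum (a finite sum),
divide numerator and denominator by `lam * G x0 x0` (its imaginary part is positive, `Gr_im_pos`):
`β = - 1 / (lam * G x0 x0)`, whose imaginary part is not zero. -/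
def S_mob : Prop :=
  ∀ (ι : Type) [Countable ι] (T : LL ι →L[ℂ] LL ι), Rs T → ∀ (lam : ℝ) (ω : ι → ℝ) (z : ℂ),
    0 < lam → 0 < z.im → ∀ (x0 y : ι) (f : ι → ℝ), (Function.support f).Finite →
    ∃ p q β : ℂ, β.im ≠ 0 ∧ ∀ v : ℝ, |v| ≤ 1 →
      ∑' x, ((f x : ℝ) : ℂ) * Gr (HH T lam (Function.update ω x0 v)) z x y =
        (p + q * (v : ℂ)) / ((v : ℂ) - β)

/-- **FL-ON (resonance).** Assume `S_eqn`, `S_dec2`, `S_mob` as hypotheses.

Proof. If `b' ≠ a` and `|E b' - z.re| < g/2` then `|E a - E b'| < g`, so `E b' = E a` (`FB.gp`) and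
`φ a x φ b' x = 0` for all `x` (`FB.ds`), so `va φ v a b' = 0`. Hence by `S_eqn`
`(E a - z + va φ v a a) cf a = φ a y - ∑_{b' : g/2 ≤ |E b' - z.re|} va φ v a b' cf b' - ∑_b' ba φ B a b' cf b'`
(`v x = clp lam (lam * ω x) = lam * ω x` almost surely), and
`E |E a - z + va φ v a a|^s |cf a|^s ≤ ...` is the right side (`|va| ≤ lam`, `|ba| ≤ b nb²`, powers `s` are
subadditive). Left side: choose `x0` with `φ a x0 ^ 2 ≥ 1 / nb d R` (`∑ φ a x ^ 2 = 1`, at most `nb d R` terms). As a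
function of `w = ω x0 ∈ [-1,1]`, the others fixed: `E a - z + va φ v a a = lam φ(a,x0)² (w - α)` for some `α ∈ ℂ` and
`cf a = (p + q w)/(w - β)` (`S_mob` with `f = φ a`); by `S_dec2` the integral over `w` of
`|E a - z + va|^s |cf a|^s` is at least `c0 (lam / nb d R)^s` times the integral of `|cf a|^s`. Resampling of
one coordinate: `lint_resample` (used in `fm_ineq` of `Pool/Agent/H121/Z987/Main.lean`, compare that proof).
`c = c0 / (nb d R)^s`. -/
def S_on : Prop :=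
  ∀ (d R r : ℕ) (s D : ℝ), 0 < s → s < 1 → 0 < D → ∃ c : ℝ, 0 < c ∧
    ∀ (g h b : ℝ) (t φ B : Lt d → Lt d → ℝ) (E : Lt d → ℝ), 0 < g →
    FB R t φ E g → Ker h t → 0 ≤ b → SB r b B →
    ∀ (μ : Measure ℝ) [IsProbabilityMeasure μ] (lam : ℝ), LD D μ → 0 < lam →
    ∀ (y a : Lt d) (z : ℂ), 0 < z.im → |E a - z.re| < g / 2 →
      ENNReal.ofReal (c * lam ^ s) * fa φ (Op (tB t B)) lam s μ z y a ≤
        (if nm (a - y) ≤ R then 1 else 0) +
        ENNReal.ofReal (lam ^ s) * (∑' a', if nm (a - a') ≤ 2 * R ∧ g / 2 ≤ |E a' - z.re| then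
          fa φ (Op (tB t B)) lam s μ z y a' else 0) +
        ENNReal.ofReal ((b * (nb d R : ℝ) ^ 2) ^ s) *
          ∑' a', if nm (a - a') ≤ 2 * R + r then fa φ (Op (tB t B)) lam s μ z y a' else 0

/-- **FL-IT (iteration).**

Proof. The number of `b` with `nm (a - b) ≤ R` is at most `nb d R`. `M0 = sup f < ∞`: `M0 ≤ A + M0/2`, so
`M0 ≤ 2 A`. By induction on `j`: `f a ≤ 2^{-j} 2 A` if `j = 0` or `j R < nm (a - y)` (for `j ≥ 1` the
first term vanishes and `nm (b - y) ≥ nm (a - y) - R > (j - 1) R`). For `nm (a - y) = n` take `j` with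
`j R < n ≤ (j + 1) R` (or `n = 0`, `j = 0`): `exp (-(log 2 / R) n) = 2^{-n/R} ≥ 2^{-(j+1)}`. -/
def S_it : Prop :=
  ∀ (d R : ℕ) (y : Lt d) (f : Lt d → ℝ≥0∞) (M A : ℝ≥0∞), 0 < R → M ≠ ∞ → (∀ a, f a ≤ M) → A ≠ ∞ →
    (∀ a, f a ≤ (if nm (a - y) ≤ R then A else 0) +
      (2 * (nb d R : ℝ≥0∞))⁻¹ * ∑' b, if nm (a - b) ≤ R then f b else 0) →
    ∀ a, f a ≤ 4 * A * ENNReal.ofReal (Real.exp (-(Real.log 2 / R) * nm (a - y)))

/-- **FL-FM (exponential decay of the fractional moments).** Assume `S_eqn`, `S_off`, `S_on`, `S_it` as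
hypotheses.

Proof. Write `f a = fa ... a ≤ (1/Im z)^s nb < ∞` (`|cf a| ≤ ∑_{nm (a-x) ≤ R} |Gr x y|`, `Gr_le`), `N = nb d (2R+r)`
(so `nb d R ≤ N`), `b = κ lam`, `p = (2/g)^s`, `q = (κ (nb d R)²)^s ≤ 1`. By `S_off`, for `g/2 ≤ |E a - z.re|`:
`f a ≤ p (1[nm (a-y) ≤ R] + 2 lam^s ∑_{nm (a-a') ≤ 2R+r} f a')` (1). By `S_on`, for `|E a - z.re| < g/2`:
`f a ≤ c⁻¹ (lam^{-s} 1[nm (a-y) ≤ R] + ∑_{nm (a-a') ≤ 2R, g/2 ≤ |E a' - z.re|} f a' + q ∑_{nm (a-a') ≤ 2R+r} f a')`,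
and by (1) for the `a'` in the first sum: `≤ c⁻¹ (lam^{-s} 1 + N p 1[nm (a-y) ≤ 3R] +
(2 p lam^s N + q) ∑_{nm (a-a'') ≤ 4R+r} f a'')`. Let `R' = 4 (R + r) + 1`, `κ` so small that `c⁻¹ q ≤ 1/(4 nb d R')`, and
then `lam0` so small that `2 p lam0^s` and `c⁻¹ 2 p lam0^s N` are `≤ 1/(4 nb d R')`. So the hypothesis of `S_it` holds
with `R'` and `A = p + c⁻¹ (lam^{-s} + N p)`, for all `z`, and
`f a ≤ 4 A exp (-(log 2/R') nm (a - y))`. Finally `Gr x y = ∑_a φ a x cf a` (`FB.cp`), so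
`E |Gr x y|^s ≤ ∑_{nm (a-x) ≤ R} f a`. `ν = log 2 / R'`. -/
def S_fm : Prop :=
  ∀ (d R r : ℕ) (g s D : ℝ), 0 < g → 0 < s → s < 1 → 0 < D →
    ∃ lam0 κ ν : ℝ, 0 < lam0 ∧ 0 < κ ∧ 0 < ν ∧
    ∀ (h : ℝ) (t φ : Lt d → Lt d → ℝ) (E : Lt d → ℝ), FB R t φ E g → Ker h t →
    ∀ (μ : Measure ℝ) [IsProbabilityMeasure μ] (lam : ℝ), LD D μ → 0 < lam → lam ≤ lam0 →
    ∀ B : Lt d → Lt d → ℝ, SB r (κ * lam) B →
    ∃ C : ℝ, 0 ≤ C ∧ ∀ (x y : Lt d) (z : ℂ), 0 < z.im →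
      ∫⁻ ω, ‖Gr (HH (Op (tB t B)) lam ω) z x y‖ₑ ^ s ∂(Measure.infinitePi fun _ : Lt d => μ) ≤
        ENNReal.ofReal (C * Real.exp (-ν * nm (x - y)))

/-- **FL-EIG (eigenvectors from the Green function).**

Proof. (1) The limits exist: `Gr T (zk t k) x y` is by polarization (`pol` of `Pool/Agent/H717/Z987/Wien.lean`) a
difference of Borel transforms and `-i ε F_m(t + i ε) → m{t}` (`Fm_atom`, used in `pt_bd` there); by `pt_bd` the
limit `ψ t x = ((m_{+,x}){t} - (m_{-,x}){t})/4` is square summable in `x` with `∑_x |ψ t x|² ≤ m{t}` (all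
finite partial sums). (2) `T (ψ t) = t ψ t`: `w_k = -i ε Rz T (t + i ε) (dv y)` is bounded (`‖w_k‖ ≤ 1`),
converges coordinatewise to `ψ t`, so weakly, and `(T - t) w_k = i ε w_k - i ε dv y → 0`; the coordinate `x` of
`T w_k` is `⟪T (dv x), w_k⟫` (`T` selfadjoint). (3) `⟪ψ t, dv y⟫ = m{t}` (the limit for `x = y` is `m{t}` by
`Fm_atom`; all `ψ t x` are real), and `⟪ψ t, w_k⟫ = ⟪ψ t, dv y⟫` (`T ψ = t ψ` gives
`Rz T (t - iε) ψ = (t - (t - iε))⁻¹ ψ = ψ/(i ε)`), so in the limit `‖ψ t‖² = ⟪ψ t, dv y⟫ = m{t}`.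
(4) `ψ t ⟂ ψ t'` for `t ≠ t'`, so `‖dv y - ∑_{t ∈ F} ψ t‖² = 1 - ∑_{t ∈ F} m{t}`, `1 = m(ℝ)` (`spm_exists`, uniqueness
of `m`: see `Pool.Agent.H295.Z987` or `spm_mass`) `= m(A) = ∑_{t ∈ A} m{t}`. -/
def S_eig : Prop :=
  ∀ (ι : Type) [Countable ι] (T : LL ι →L[ℂ] LL ι), Rs T → ∀ (y : ι) (m : Measure ℝ), SpM T (dv y) m →
    ∃ ψ : ℝ → LL ι, (∀ t, T (ψ t) = (t : ℂ) • ψ t) ∧
      (∀ t x, Tendsto (fun k => -(Complex.I * (ep k : ℂ)) * Gr T (zk t k) x y) atTop (𝓝 (ψ t x))) ∧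
      ∀ A : Set ℝ, A.Countable → m Aᶜ = 0 → ∀ δ : ℝ, 0 < δ → ∃ F : Finset ℝ,
        ‖dv y - ∑ t ∈ F, ψ t‖ ^ 2 ≤ δ

/-- **FL-WD (the atoms are seen in the averaged second moments).**

Proof. As in the proof of `wien` (`Pool/Agent/H717/Z987/Wien.lean`, lemma `diff_lim` there): with the spectral
measures `m_±` of `dv x ± dv y` and any countable set `A'` which contains all their atoms and `t`,
`∫ ep k ‖Gr T (zk E k) x y‖² dQ(E) → (π/16) ∑_{t' ∈ A'} wt t' (m_+{t'} - m_-{t'})²`, which is at least the term of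
`t`, and `ψ = (m_+{t} - m_-{t})/4` (uniqueness of limits). -/
def S_wd : Prop :=
  ∀ (ι : Type) [Countable ι] (T : LL ι →L[ℂ] LL ι), Rs T → ∀ (x y : ι) (t : ℝ) (ψ : ℂ),
    Tendsto (fun k => -(Complex.I * (ep k : ℂ)) * Gr T (zk t k) x y) atTop (𝓝 ψ) →
      ENNReal.ofReal (Real.pi * wt t * ‖ψ‖ ^ 2) ≤
        liminf (fun k => ∫⁻ E, ENNReal.ofReal (ep k * ‖Gr T (zk E k) x y‖ ^ 2) ∂Q) atTop

/-- every unit vector is approximated by finite sums of eigenfunctions with exponential decay -/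
def Loc {d : ℕ} (ν : ℝ) (T : LL (Lt d) →L[ℂ] LL (Lt d)) : Prop :=
  ∀ (y : Lt d) (δ : ℝ), 0 < δ → ∃ (F : Finset ℝ) (ψ : ℝ → LL (Lt d)),
    (∀ t ∈ F, T (ψ t) = (t : ℂ) • ψ t ∧ ∃ C : ℝ, ∀ x, ‖ψ t x‖ ≤ C * Real.exp (-ν * nm x)) ∧
    ‖dv y - ∑ t ∈ F, ψ t‖ ^ 2 ≤ δ

/-- **FL-FML (localization from fractional moments).** Assume `S_eig`, `S_wd` as hypotheses (and use the proved
`Pool.Agent.H410.Z987.graf : S_graf`, `Pool.Agent.H717.Z987.wien : S_wien`, `Pool.Agent.H295.Z987.clos : S_clos` and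
the file `Pool/Agent/H121/Z987/Main.lean`).

Proof. (1) `∑_x sup_{E,k} E |Gr (zk E k) x y|^s < ∞`, so `ae_tight` (Main.lean), `S_wien` and `S_clos` give the second
part (see `loc_of` at the end of Main.lean) and that the spectral measure of `dv y` is carried by a countable
set. (2) By `sm_le`/`Tl_int` (Main.lean; Graf's bound) and Fubini: `E ∫ ep k ‖Gr (zk E k) x y‖² dQ ≤ C' exp (-ν nm (x-y))`
for all `k`, so by Fatou `E liminf_k ∫⁻ ... ≤ C' exp (-ν nm (x-y))`, and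
`∑_x exp (ν nm (x-y)/2) liminf_k (...)` has finite expectation (`∑_x exp (-ν nm (x - y)/2) < ∞`), so it is finite almost
surely. (3) With `S_eig`, `S_wd`: `π wt t ‖ψ t x‖² ≤ C_ω exp (-ν nm (x-y)/2)`, hence
`‖ψ t x‖ ≤ C exp (-(ν/4) nm (x - y)) ≤ C' exp (-(ν/4) nm x)`. -/
def S_fml : Prop :=
  ∀ (d : ℕ) (T : LL (Lt d) →L[ℂ] LL (Lt d)), Rs T → ∀ lam s D C ν : ℝ, 0 < lam → 0 < s → s < 1 →
    0 < D → 0 < ν → ∀ (μ : Measure ℝ) [IsProbabilityMeasure μ], LD D μ →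
    (∀ (x y : Lt d) (z : ℂ), 0 < z.im →
      ∫⁻ ω, ‖Gr (HH T lam ω) z x y‖ₑ ^ s ∂(Measure.infinitePi fun _ : Lt d => μ) ≤
        ENNReal.ofReal (C * Real.exp (-ν * nm (x - y)))) →
    ∀ᵐ ω ∂(Measure.infinitePi fun _ : Lt d => μ), Loc (ν / 4) (HH T lam ω) ∧
      ∀ (φ : LL (Lt d)) (m : Measure ℝ), SpM (HH T lam ω) φ m → ∃ A : Set ℝ, A.Countable ∧ m Aᶜ = 0

/-! ### the flat band structure -/

/-- the adjacency kernel of `ℤ` -/
def k1 (x y : ℤ) : ℝ := (if y = x + 1 then 1 else 0) + (if y = x - 1 then 1 else 0)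

/-- a flat band structure on `ℤ` with period `M` -/
structure F1 (M : ℕ) (t ψ : ℤ → ℤ → ℝ) (e : ℤ → ℝ) : Prop where
  pos : 0 < M
  sy : ∀ x y, t x y = t y x
  per : ∀ x y, t (x + M) (y + M) = t x y
  pps : ∀ a x, ψ (a + M) (x + M) = ψ a x
  pe : ∀ a, e (a + M) = e a
  trg : ∀ x y, t x y ≠ 0 → |x - y| ≤ 4 * M
  rg : ∀ a x, ψ a x ≠ 0 → |a - x| ≤ 2 * M
  on : ∀ a b, HasSum (fun x => ψ a x * ψ b x) (if a = b then 1 else 0)
  cp : ∀ x y, HasSum (fun a => ψ a x * ψ a y) (if x = y then 1 else 0)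
  eg : ∀ a x, HasSum (fun y => t x y * ψ a y) (e a * ψ a x)
  ds : ∀ a b, a ≠ b → (2 * M : ℤ) ∣ a - b → ∀ x, ψ a x * ψ b x = 0

/-! The folding of the blocks `[nM, (n+1)M)`, `M = 2 m`, `m ≥ 2`. -/

/-- the angle at distance `r` from the boundary of a block: `π/4` for `r = 0`, `0` for `r ≥ m - 1` -/
noncomputable def ang (m : ℕ) (r : ℤ) : ℝ := Real.pi / 4 * (1 - (r : ℝ) / (m - 1 : ℝ))

/-- is `x` in the left half of its block? -/
def lft (m : ℕ) (x : ℤ) : Prop := x % (2 * m : ℤ) < m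

open Classical in
/-- the mirror image of `x` in the nearest boundary of its block -/
noncomputable def mir (m : ℕ) (x : ℤ) : ℤ :=
  if lft m x then 2 * (2 * m : ℤ) * (x / (2 * m : ℤ)) - 1 - x
  else 2 * (2 * m : ℤ) * (x / (2 * m : ℤ) + 1) - 1 - x

open Classical in
/-- the distance of `x` from the nearest boundary of its block -/
noncomputable def rr (m : ℕ) (x : ℤ) : ℤ :=
  if lft m x then x % (2 * m : ℤ) else 2 * (m : ℤ) - 1 - x % (2 * m : ℤ)

/-- the diagonal entries of the folding -/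
noncomputable def cc (m : ℕ) (x : ℤ) : ℝ := Real.cos (ang m (rr m x))

open Classical in
/-- the off diagonal entries of the folding -/
noncomputable def sc (m : ℕ) (x : ℤ) : ℝ :=
  if lft m x then Real.sin (ang m (rr m x)) else -Real.sin (ang m (rr m x))

/-- the folding: the column `p` is `cc p δ_p + sc p δ_{mir p}` -/
noncomputable def U1 (m : ℕ) (x p : ℤ) : ℝ :=
  (if x = p then cc m p else 0) + (if x = mir m p then sc m p else 0)

/-- the decoupled blocks: adjacency inside of the blocks, `1` at the left end and `-1` at the right end of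
each block on the diagonal -/
noncomputable def blk (m : ℕ) (x y : ℤ) : ℝ :=
  (if x / (2 * m : ℤ) = y / (2 * m : ℤ) then k1 x y else 0) +
    (if x = y ∧ x % (2 * m : ℤ) = 0 then 1 else 0) - (if x = y ∧ x % (2 * m : ℤ) = 2 * m - 1 then 1 else 0)

/-- the error kernel `Uᵀ k1 U - blk` -/
noncomputable def er (m : ℕ) (x y : ℤ) : ℝ :=
  cc m x * cc m y * k1 x y + cc m x * sc m y * k1 x (mir m y) + sc m x * cc m y * k1 (mir m x) y +
    sc m x * sc m y * k1 (mir m x) (mir m y) - blk m x y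

/-- **FL-FOLD (the folding).**

Proof. Elementary: `mir` is an involution, it exchanges the left halves of the blocks with the right halves of
their left neighbours, `rr (mir x) = rr x`, `cc (mir x) = cc x`, `sc (mir x) = - sc x`, `cc² + sc² = 1`. So the columns
of `U1` are orthonormal: the columns `p` and `mir p` live on `{p, mir p}` and are `(cc, sc)`, `(-sc, cc)`.
The error kernel: (i) `|x - y| = 1`, same half of the same block: then `|mir x - mir y| = 1`, `k1 x (mir y) = 0` and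
`er = cos (ang (rr x) - ang (rr y)) - 1`, `|.| ≤ π/(4(m-1))`. (ii) `|x - y| = 1`, same block, different halves: the
two angles are `0`, `er = 0`. (iii) `|x - y| = 1`, different blocks: then `y = mir x`, angle `π/4`,
`er = cc² - sc² = 0`. (iv) `x = y`: `er = 2 cc sc k1 x (mir x) - blk x x = 0` (`rr x = 0` iff `|x - mir x| = 1`, angle
`π/4`, `2 cc sc = ±1`). (v) `|mir y - x| = 1` and `x ≠ y`, `|x - y| ≠ 1`: if `mir y` and `x` are in the same half of the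
same block: `er = cc x sc y + sc x cc y = ± sin (ang (rr x) - ang (rr y))`; in different halves of the
same block: the angles are `0` and `er = 0`; in different blocks: then `mir y = mir x`, excluded. (vi) otherwise
`er = 0` (if `|mir x - mir y| = 1` and `|x - y| ≠ 1` then `mir x`, `mir y` are in different halves of the same block and
the angles are `0`). So in each row there are at most `4` nonzero entries, of modulus at most `π/(4(m-1))`. -/
def S_fold : Prop :=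
  ∀ m : ℕ, 2 ≤ m →
    (∀ x, mir m (mir m x) = x) ∧
    (∀ x, mir m (x + 2 * m) = mir m x + 2 * m) ∧
    (∀ x, |x - mir m x| ≤ 2 * m) ∧
    (∀ x, mir m x ≠ x) ∧
    (∀ p q, HasSum (fun x => U1 m x p * U1 m x q) (if p = q then 1 else 0)) ∧
    (∀ x y, HasSum (fun p => U1 m x p * U1 m y p) (if x = y then 1 else 0)) ∧
    (∀ x p, U1 m (x + 2 * m) (p + 2 * m) = U1 m x p) ∧
    (∀ x p, U1 m x p ≠ 0 → (2 * (m : ℤ)) * (p / (2 * m : ℤ)) - m ≤ x ∧
      x < (2 * (m : ℤ)) * (p / (2 * m : ℤ)) + 3 * m) ∧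
    (∀ x y, er m x y = er m y x) ∧
    ∀ x, (Summable fun y => |er m x y|) ∧ ∑' y, |er m x y| ≤ 4 * (Real.pi / (4 * (m - 1 : ℝ)))

/-- **FL-ONE (the flat band structure on `ℤ`).** Assume `S_fold` as a hypothesis.

Proof. `m` large, `M = 2 m`. The block matrix `b r r' = blk m r r'`, `0 ≤ r, r' < M`, is real symmetric; let `o k r`
(`k, r < M`) be an orthonormal basis of real eigenvectors, `λ k` the eigenvalues (`Matrix.IsHermitian`,
`eigenvectorBasis`, over `ℝ`). For `a = n M + k` (`n = a / M`, `k = a % M`) put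
`ψ a x = ∑_{r < M} o k r * U1 m x (n M + r)`, `e a = λ k`, and
`t x y = ∑_p ∑_q U1 m x p * blk m p q * U1 m y q` (finite sums). Everything follows from the orthogonality of
`U1` (`S_fold`) and of `o`: `on`, `cp`, `eg` (`∑_y U1 m y q U1 m y q' = δ`, `blk` is block diagonal and
periodic). `ψ a` lives on `[n M - m, n M + 3 m)`, so `|a - x| ≤ 2 M`, and if `2 M ∣ a - b`, `a ≠ b`, then the blocks of
`a, b` are at distance at least two and the supports are disjoint. The estimate: `k1 = U (blk + er) Uᵀ`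
(orthogonality of `U1` and the definition of `er`: `er + blk = Uᵀ k1 U`), so `t - k1 = - U er Uᵀ` and, as the
rows and the columns of `U1` have at most two entries of modulus at most one,
`∑_y |t x y - k1 x y| ≤ 2 * 2 * 4 π/(4(m-1)) ≤ δ`. -/
def S_one : Prop :=
  ∀ δ : ℝ, 0 < δ → ∃ (M : ℕ) (t ψ : ℤ → ℤ → ℝ) (e : ℤ → ℝ), F1 M t ψ e ∧
    ∀ x, (Summable fun y => |t x y - k1 x y|) ∧ ∑' y, |t x y - k1 x y| ≤ δ

/-- **FL-TEN (products, and separation of the energies).** Assume `S_one` as a hypothesis.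

Proof. `F1 M t1 ψ1 e1` for `δ = ε/(2 d)` (`d = 0`: trivial, `d ≥ 1` may be assumed). Put
`φ a x = ∏_i ψ1 (a i) (x i)`, `E0 a = 2 d - ∑_i e1 (a i)`,
`t0 x y = 2 d [x = y] - ∑_i t1 (x i) (y i) ∏_{j ≠ i} [x j = y j]`: then `∑_y t0 x y φ a y = E0 a φ a x`, and
`kf d x y` is the same with `k1` in place of `t1`, so `∑_y |t0 x y - kf d x y| ≤ d δ`. The energies: `ι a = ∑_i
((a i) mod 2M) (2M)^i ∈ ℕ`, so `ι a = ι b` iff `2M ∣ a i - b i` for all `i`. `J x y = ∑_a ι a φ a x φ a y` (a finite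
sum), `t = t0 + τ J`, `E a = E0 a + τ ι a`, with `τ > 0` small (`∑_y |τ J x y| ≤ ε/2`: `|φ| ≤ 1`, ranges) and such
that `E a = E b` only if `ι a = ι b`: for each pair of residue classes modulo `2 M` with `ι a ≠ ι b` there
is at most one bad `τ`, and there are finitely many pairs. `g` = the smallest difference of different
energies (finitely many values). If `a ≠ b`, `E a = E b` then `2M ∣ a i - b i` for all `i` and `a i ≠ b i` for some `i`,
so `φ a x φ b x = 0` by `F1.ds`. Orthonormality and completeness are products of the one dimensional sums.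
`R = 6 M d` or so. -/
def S_ten : Prop :=
  ∀ (d : ℕ) (ε : ℝ), 1 ≤ d → 0 < ε →
    ∃ (R N : ℕ) (g h : ℝ) (t φ : Lt d → Lt d → ℝ) (E : Lt d → ℝ), 0 < g ∧ 0 < N ∧ FB R t φ E g ∧
      Ker h t ∧ (∀ x y v, t (x + (N : ℤ) • v) (y + (N : ℤ) • v) = t x y) ∧
      ∀ x, (Summable fun y => |t x y - kf d x y|) ∧ ∑' y, |t x y - kf d x y| ≤ ε

end Pool.Agent.H121.FL
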