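import Pool.Agent.H662.FL.It

/-! Project FL: the iteration with an arbitrary contraction factor (the rate is `log (1/τ) / R`). -/

set_option autoImplicit false

open scoped BigOperators InnerProductSpace Topology ENNReal
open Filter MeasureTheory

namespace Pool.Agent.H121.FL

open Pool.Agent.H987.Y (Lt)
open Pool.Agent.H662.FL (sum_ball_le nm_tri)

theorem tau_sum {d : ℕ} (R : ℕ) (a : Lt d) (f : Lt d → ℝ≥0∞) (c τ : ℝ≥0∞)
    (h : ∀ b, nm (a - b) ≤ R → f b ≤ c) :
    (τ * (nb d R : ℝ≥0∞)⁻¹) * (∑' b, if nm (a - b) ≤ R then f b else 0) ≤ τ * c := by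
  have hn0 : (nb d R : ℝ≥0∞) ≠ 0 := by
    have : 0 < nb d R := by unfold nb; positivity
    exact_mod_cast this.ne'
  have hnt : (nb d R : ℝ≥0∞) ≠ ∞ := ENNReal.natCast_ne_top _
  calc (τ * (nb d R : ℝ≥0∞)⁻¹) * (∑' b, if nm (a - b) ≤ R then f b else 0) ≤
      (τ * (nb d R : ℝ≥0∞)⁻¹) * ((nb d R : ℝ≥0∞) * c) := by
        gcongr
        exact sum_ball_le R a f c h
    _ = τ * c := by
        rw [mul_assoc, ← mul_assoc (nb d R : ℝ≥0∞)⁻¹, ENNReal.inv_mul_cancel hn0 hnt, one_mul]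

theorem it2 (d R : ℕ) (y : Lt d) (f : Lt d → ℝ≥0∞) (M A : ℝ≥0∞) (τ : ℝ) (hR : 0 < R) (hτ : 0 < τ)
    (hτ2 : τ ≤ 1 / 2) (hM : M ≠ ∞) (hf : ∀ a, f a ≤ M) (hA : A ≠ ∞)
    (hrec : ∀ a, f a ≤ (if nm (a - y) ≤ R then A else 0) +
      (ENNReal.ofReal τ * (nb d R : ℝ≥0∞)⁻¹) * ∑' b, if nm (a - b) ≤ R then f b else 0) (a : Lt d) :
    f a ≤ ENNReal.ofReal (2 / τ) * A *
      ENNReal.ofReal (Real.exp (-(Real.log (1 / τ) / R) * nm (a - y))) := by
  -- the supremum
  set M0 : ℝ≥0∞ := ⨆ a, f a with hM0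
  have hM0t : M0 ≠ ∞ := ne_top_of_le_ne_top hM (iSup_le hf)
  have hτh : ENNReal.ofReal τ ≤ 2⁻¹ := by
    calc ENNReal.ofReal τ ≤ ENNReal.ofReal (1 / 2) := ENNReal.ofReal_le_ofReal hτ2
      _ = 2⁻¹ := by
        rw [one_div, ENNReal.ofReal_inv_of_pos (by norm_num)]
        norm_num
  have h1 : M0 ≤ A + 2⁻¹ * M0 := by
    refine iSup_le fun a => (hrec a).trans ?_
    refine add_le_add ?_ ((tau_sum R a f M0 _ fun b _ => le_iSup f b).trans (mul_le_mul' hτh le_rfl))
    split_ifs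
    · exact le_rfl
    · exact bot_le
  have h2 : M0 ≤ 2 * A := by
    have e : M0 = 2⁻¹ * M0 + 2⁻¹ * M0 := by
      rw [← add_mul, ENNReal.inv_two_add_inv_two, one_mul]
    have h3 : 2⁻¹ * M0 + 2⁻¹ * M0 ≤ A + 2⁻¹ * M0 := e ▸ h1
    have ht : 2⁻¹ * M0 ≠ ∞ := ENNReal.mul_ne_top (by norm_num) hM0t
    have h4 : 2⁻¹ * M0 ≤ A := (ENNReal.add_le_add_iff_right ht).1 h3
    calc M0 = 2⁻¹ * M0 + 2⁻¹ * M0 := e
      _ ≤ A + A := add_le_add h4 h4
      _ = 2 * A := (two_mul A).symm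
  have key : ∀ j : ℕ, ∀ a, (j = 0 ∨ j * R < nm (a - y)) →
      f a ≤ (ENNReal.ofReal τ) ^ j * (2 * A) := by
    intro j
    induction j with
    | zero =>
      intro a _
      rw [pow_zero, one_mul]
      exact (le_iSup f a).trans h2
    | succ j ih =>
      intro a ha
      rcases ha with ha | ha
      · omega
      · have hR1 : R ≤ (j + 1) * R := Nat.le_mul_of_pos_left R (Nat.succ_pos j)
        have hneg : ¬ nm (a - y) ≤ R := by omega
        have h5 := hrec a
        rw [if_neg hneg, zero_add] at h5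
        refine h5.trans ((tau_sum R a f ((ENNReal.ofReal τ) ^ j * (2 * A)) _ ?_).trans ?_)
        · intro b hb
          apply ih
          right
          have h6 : nm (a - y) ≤ nm (a - b) + nm (b - y) := by
            have := nm_tri (a - b) (b - y)
            rwa [sub_add_sub_cancel] at this
          have h7 : (j + 1) * R = j * R + R := by ring
          omega
        · rw [pow_succ', mul_assoc]
  -- choice of j
  set n := nm (a - y) with hn
  have hj : ∃ j : ℕ, (j = 0 ∨ j * R < n) ∧ n ≤ (j + 1) * R := by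
    rcases Nat.eq_zero_or_pos n with h0 | h0
    · exact ⟨0, Or.inl rfl, by omega⟩
    · refine ⟨(n - 1) / R, Or.inr ?_, ?_⟩
      · have := Nat.div_mul_le_self (n - 1) R
        omega
      · have := Nat.lt_div_mul_add (a := n - 1) hR
        have h8 : ((n - 1) / R + 1) * R = (n - 1) / R * R + R := by ring
        omega
  obtain ⟨j, hj1, hj2⟩ := hj
  refine (key j a hj1).trans ?_
  have hRr : (0 : ℝ) < R := by exact_mod_cast hR
  have h9 : ENNReal.ofReal (τ ^ (j + 1)) ≤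
      ENNReal.ofReal (Real.exp (-(Real.log (1 / τ) / R) * n)) := by
    apply ENNReal.ofReal_le_ofReal
    have e1 : τ ^ (j + 1) = Real.exp (-(Real.log (1 / τ)) * ((j : ℝ) + 1)) := by
      rw [← Real.exp_log (show (0 : ℝ) < τ ^ (j + 1) by positivity), Real.log_pow,
        one_div, Real.log_inv]
      push_cast
      ring_nf
    rw [e1]
    apply Real.exp_le_exp.2
    have h10 : (n : ℝ) ≤ ((j : ℝ) + 1) * R := by exact_mod_cast hj2
    have h11 : (n : ℝ) / R ≤ (j : ℝ) + 1 := by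
      rw [div_le_iff₀ hRr]
      exact h10
    have h12 : 0 ≤ Real.log (1 / τ) := by
      apply Real.log_nonneg
      rw [le_div_iff₀ hτ]
      linarith
    have h13 : -(Real.log (1 / τ) / R) * n = -(Real.log (1 / τ) * ((n : ℝ) / R)) := by ring
    rw [h13]
    have h14 := mul_le_mul_of_nonneg_left h11 h12
    linarith
  have h15 : ENNReal.ofReal τ ≠ 0 := (ENNReal.ofReal_pos.2 hτ).ne'
  have h16 : ENNReal.ofReal (2 / τ) = 2 * (ENNReal.ofReal τ)⁻¹ := by
    rw [div_eq_mul_inv, ENNReal.ofReal_mul (by norm_num), ENNReal.ofReal_inv_of_pos hτ]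
    norm_num
  calc (ENNReal.ofReal τ) ^ j * (2 * A) =
      ENNReal.ofReal (2 / τ) * A * (ENNReal.ofReal τ) ^ (j + 1) := by
        rw [h16, pow_succ]
        have h22 : (ENNReal.ofReal τ)⁻¹ * ENNReal.ofReal τ = 1 :=
          ENNReal.inv_mul_cancel h15 ENNReal.ofReal_ne_top
        calc (ENNReal.ofReal τ) ^ j * (2 * A) =
            ((ENNReal.ofReal τ)⁻¹ * ENNReal.ofReal τ) * (2 * A * (ENNReal.ofReal τ) ^ j) := by
              rw [h22]; ring
          _ = _ := by ring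
    _ = ENNReal.ofReal (2 / τ) * A * ENNReal.ofReal (τ ^ (j + 1)) := by
        rw [ENNReal.ofReal_pow hτ.le]
    _ ≤ _ := by gcongr

end Pool.Agent.H121.FL
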