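import Pool.Agent.H121.FL.Iface
import Pool.Agent.H987.Z.Main
import Pool.Agent.H168.Y987.Op
import Pool.Agent.H168.Y987.Kact
import Pool.Agent.H121.MY.Edge

/-! Project FL: the assembly. -/

set_option autoImplicit false
set_option linter.unusedSectionVars false

open scoped BigOperators InnerProductSpace Topology ENNReal
open Filter MeasureTheory

namespace Pool.Agent.H121.FL

open Pool.Agent.Y662.TR (LL Cf Mw dv hu clp ll_ext ll_summable clp_eq Mw_apply dv_apply approx lmk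
  add_coord sub_coord smul_coord ll_sum)
open Pool.Agent.TH369.AN (Rz)
open Pool.Agent.TH369.MU (SpM ep zk spm_exists)
open Pool.Agent.H987.Z (Rs Gr SqS IsSp sp_of of_sp)
open Pool.Agent.H987.Y (Lt Ker Op kf)
open Pool.Agent.H121.Z987 (HH wt Q HH_apply HH_rs)

variable {d : ℕ}

/-- the Hamiltonian `-Δ + A + lam ω` on functions -/
noncomputable def Hf (A : Lt d → Lt d → ℝ) (lam : ℝ) (ω : Lt d → ℝ) (u : Lt d → ℂ) (x : Lt d) : ℂ :=
  -∑ i : Fin d, ((u (x + Pi.single i 1) - u x) + (u (x - Pi.single i 1) - u x)) +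
    ∑' y, ((A x y : ℝ) : ℂ) * u y + ((lam * ω x : ℝ) : ℂ) * u x

theorem kf_sum (u : Lt d → ℂ) (x : Lt d) :
    HasSum (fun y => ((kf d x y : ℝ) : ℂ) * u y)
      (-∑ i : Fin d, ((u (x + Pi.single i 1) - u x) + (u (x - Pi.single i 1) - u x))) := by
  have h := Pool.Agent.H168.Y987.hs_kf u x
  convert h using 1
  have e : ∀ i : Fin d, (u (x + Pi.single i 1) - u x) + (u (x - Pi.single i 1) - u x) =
      (u (x + Pi.single i 1) + u (x - Pi.single i 1)) - 2 * u x := fun i => by ring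
  rw [Finset.sum_congr rfl fun i _ => e i, Finset.sum_sub_distrib, Finset.sum_const,
    Finset.card_univ, Fintype.card_fin, nsmul_eq_mul]
  push_cast
  ring

/-- the operator and the formula -/
theorem hf_eq {h : ℝ} {k A : Lt d → Lt d → ℝ} (hk : Ker h k) (hA : ∀ x y, A x y = k x y - kf d x y)
    (lam : ℝ) (hlam : 0 < lam) (ω : Lt d → ℝ) (hω : ∀ x, |ω x| ≤ 1) (u : LL (Lt d)) (x : Lt d) :
    Hf A lam ω (fun y => u y) x = HH (Op k) lam ω u x := by
  have hop := Pool.Agent.H168.Y987.op (Lt d) k h hk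
  obtain ⟨s1, s2⟩ := hop.1 u x
  have s3 := kf_sum (fun y => u y) x
  have s4 : HasSum (fun y => ((A x y : ℝ) : ℂ) * u y) (Op k u x -
      (-∑ i : Fin d, ((u (x + Pi.single i 1) - u x) + (u (x - Pi.single i 1) - u x)))) := by
    have s5 : HasSum (fun y => ((k x y : ℝ) : ℂ) * u y) (Op k u x) := by
      rw [s2]
      exact s1.hasSum
    refine (s5.sub s3).congr_fun fun y => ?_
    rw [hA]
    push_cast
    ring
  unfold Hf
  rw [s4.tsum_eq, HH_apply, clp_eq (B := lam) (x := lam * ω x) (by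
    rw [abs_mul]
    exact mul_le_of_le_one_right (abs_nonneg _) (hω x))]
  ring

/-- exponential localization of an operator on functions -/
def ELf (ν : ℝ) (T : (Lt d → ℂ) → Lt d → ℂ) : Prop :=
  ∀ f : Lt d → ℂ, (Summable fun x => ‖f x‖ ^ 2) → ∀ δ : ℝ, 0 < δ →
    ∃ (n : ℕ) (u : Fin n → Lt d → ℂ) (t : Fin n → ℝ),
      (∀ j, (∀ x, T (u j) x = (t j : ℂ) * u j x) ∧
        ∃ C : ℝ, ∀ x, ‖u j x‖ ≤ C * Real.exp (-ν * ∑ i, |(x i : ℝ)|)) ∧
      (Summable fun x => ‖f x - ∑ j, u j x‖ ^ 2) ∧ ∑' x, ‖f x - ∑ j, u j x‖ ^ 2 ≤ δ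

theorem kf_adj (x y : Lt d) : kf d x y = (if x = y then 2 * (d : ℝ) else 0) -
    Pool.Agent.H121.MY.adj d x y := by
  unfold Pool.Agent.H121.MY.adj kf
  congr 1

theorem kf_sy (x y : Lt d) : kf d x y = kf d y x := by
  rw [kf_adj, kf_adj, Pool.Agent.H121.MY.adj_sy]
  simp only [eq_comm]

theorem kf_rng (x y : Lt d) (h : kf d x y ≠ 0) (i : Fin d) : |x i - y i| ≤ 1 := by
  rw [kf_adj] at h
  by_cases hxy : x = y
  · subst hxy
    simp
  · rw [if_neg hxy, zero_sub, neg_ne_zero] at h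
    exact Pool.Agent.H121.MY.adj_rng x y h i

theorem nm_cast (x : Lt d) : (nm x : ℝ) = ∑ i, |(x i : ℝ)| := by
  unfold nm
  push_cast
  refine Finset.sum_congr rfl fun i _ => ?_
  rw [Nat.cast_natAbs]
  push_cast
  rfl

/-- all vectors -/
theorem all_loc (ν : ℝ) (T : LL (Lt d) →L[ℂ] LL (Lt d)) (hT : Loc ν T) (g : LL (Lt d)) (δ : ℝ)
    (hδ : 0 < δ) : ∃ (n : ℕ) (u : Fin n → LL (Lt d)) (t : Fin n → ℝ),
      (∀ j, T (u j) = (t j : ℂ) • u j ∧ ∃ C : ℝ, ∀ x, ‖u j x‖ ≤ C * Real.exp (-ν * nm x)) ∧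
      ‖g - ∑ j, u j‖ ≤ δ := by
  classical
  obtain ⟨s, hs⟩ := approx g (δ / 2) (by linarith)
  -- the error for each site
  obtain ⟨η, hη, hηs⟩ : ∃ η : ℝ, 0 < η ∧ (∑ y ∈ s, ‖g y‖) * η ≤ δ / 2 := by
    refine ⟨δ / 2 / (1 + ∑ y ∈ s, ‖g y‖), ?_, ?_⟩
    · have : 0 ≤ ∑ y ∈ s, ‖g y‖ := Finset.sum_nonneg fun y _ => norm_nonneg _
      positivity
    · have h0 : 0 ≤ ∑ y ∈ s, ‖g y‖ := Finset.sum_nonneg fun y _ => norm_nonneg _
      rw [mul_div_assoc', div_le_iff₀ (by positivity)]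
      nlinarith
  have h1 : ∀ y : Lt d, ∃ (F : Finset ℝ) (ψ : ℝ → LL (Lt d)),
      (∀ t ∈ F, T (ψ t) = (t : ℂ) • ψ t ∧ ∃ C : ℝ, ∀ x, ‖ψ t x‖ ≤ C * Real.exp (-ν * nm x)) ∧
      ‖dv y - ∑ t ∈ F, ψ t‖ ≤ η := by
    intro y
    obtain ⟨F, ψ, a1, a2⟩ := hT y (η ^ 2) (by positivity)
    exact ⟨F, ψ, a1, (pow_le_pow_iff_left₀ (norm_nonneg _) hη.le two_ne_zero).1 a2⟩
  choose F ψ hF hψ using h1
  -- the finite index set
  obtain ⟨J, hJ⟩ : ∃ J : Finset (Σ _ : Lt d, ℝ), J = s.sigma fun y => F y := ⟨_, rfl⟩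
  obtain ⟨n, ⟨e⟩⟩ : ∃ n : ℕ, Nonempty (Fin n ≃ {j // j ∈ J}) :=
    ⟨J.card, ⟨J.equivFin.symm⟩⟩
  refine ⟨n, fun j => g (e j).1.1 • ψ (e j).1.1 (e j).1.2, fun j => (e j).1.2, fun j => ?_, ?_⟩
  · have hm : (e j).1.2 ∈ F (e j).1.1 := by
      have h5 : ∀ w : (Σ _ : Lt d, ℝ), w ∈ J → w.2 ∈ F w.1 := by
        intro w hw
        rw [hJ] at hw
        exact (Finset.mem_sigma.1 hw).2
      exact h5 _ (e j).2
    obtain ⟨b1, C, b2⟩ := hF _ _ hm
    refine ⟨?_, ‖g (e j).1.1‖ * C, fun x => ?_⟩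
    · rw [map_smul, b1, smul_comm]
    · rw [smul_coord, norm_mul, mul_assoc]
      exact mul_le_mul_of_nonneg_left (b2 x) (norm_nonneg _)
  · have e1 : ∑ j : Fin n, g (e j).1.1 • ψ (e j).1.1 (e j).1.2 =
        ∑ y ∈ s, g y • ∑ t ∈ F y, ψ y t := by
      rw [Equiv.sum_comp e (fun j : {j // j ∈ J} => g j.1.1 • ψ j.1.1 j.1.2),
        Finset.sum_coe_sort J (fun j : (Σ _ : Lt d, ℝ) => g j.1 • ψ j.1 j.2), hJ, Finset.sum_sigma]
      exact Finset.sum_congr rfl fun y _ => by rw [Finset.smul_sum]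
    rw [e1]
    have e2 : g - ∑ y ∈ s, g y • ∑ t ∈ F y, ψ y t =
        (g - ∑ y ∈ s, g y • dv y) + ∑ y ∈ s, g y • (dv y - ∑ t ∈ F y, ψ y t) := by
      simp only [smul_sub, Finset.sum_sub_distrib]
      abel
    rw [e2]
    refine (norm_add_le _ _).trans ?_
    have e3 : ‖∑ y ∈ s, g y • (dv y - ∑ t ∈ F y, ψ y t)‖ ≤ δ / 2 := by
      refine (norm_sum_le _ _).trans (le_trans ?_ hηs)
      rw [Finset.sum_mul]
      refine Finset.sum_le_sum fun y _ => ?_
      rw [norm_smul]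
      exact mul_le_mul_of_nonneg_left (hψ y) (norm_nonneg _)
    linarith

theorem el_of (ν : ℝ) (T : LL (Lt d) →L[ℂ] LL (Lt d)) (hT : Loc ν T)
    (K : (Lt d → ℂ) → Lt d → ℂ) (hK : ∀ (u : LL (Lt d)) (x : Lt d), K (fun y => u y) x = T u x) :
    ELf ν K := by
  intro f hf δ hδ
  obtain ⟨n, u, t, h1, h2⟩ := all_loc ν T hT (lmk f hf) (Real.sqrt δ) (Real.sqrt_pos.2 hδ)
  have hco : ∀ x, (lmk f hf - ∑ j, u j : LL (Lt d)) x = f x - ∑ j, u j x := by
    intro x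
    rw [sub_coord]
    congr 1
    have : ∀ s : Finset (Fin n), (∑ j ∈ s, u j : LL (Lt d)) x = ∑ j ∈ s, u j x := by
      intro s
      classical
      induction s using Finset.induction_on with
      | empty => simp
      | insert a s ha ih => rw [Finset.sum_insert ha, Finset.sum_insert ha, add_coord, ih]
    exact this _
  have hs := ll_sum (lmk f hf - ∑ j, u j : LL (Lt d))
  simp only [hco] at hs
  refine ⟨n, fun j x => u j x, t, fun j => ⟨fun x => ?_, ?_⟩, hs.summable, ?_⟩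
  · rw [hK, (h1 j).1, smul_coord]
  · obtain ⟨C, hC⟩ := (h1 j).2
    refine ⟨C, fun x => ?_⟩
    rw [← nm_cast]
    exact hC x
  · rw [hs.tsum_eq]
    calc ‖lmk f hf - ∑ j, u j‖ ^ 2 ≤ (Real.sqrt δ) ^ 2 := by gcongr
      _ = δ := Real.sq_sqrt hδ.le

/-- **the theorem**, from `S_ten`, `S_fm`, `S_fml` -/
theorem main_of (hten : S_ten) (heqn : S_eqn) (hfm : S_fm) (hfml : S_fml) (d : ℕ) (hd : 1 ≤ d)
    (ε : ℝ) (hε : 0 < ε) :
    ∃ (A : Lt d → Lt d → ℝ) (N R : ℕ), 0 < N ∧ (∀ x y, A x y = A y x) ∧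
      (∀ x y v, A (x + (N : ℤ) • v) (y + (N : ℤ) • v) = A x y) ∧
      (∀ x y, A x y ≠ 0 → ∀ i, |x i - y i| ≤ R) ∧
      (∀ x, (Summable fun y => |A x y|) ∧ ∑' y, |A x y| ≤ ε) ∧
      ∀ (D : ℝ) (r : ℕ), 0 < D → ∃ lam0 κ ν : ℝ, 0 < lam0 ∧ 0 < κ ∧ 0 < ν ∧
        ∀ (μ : Measure ℝ) [IsProbabilityMeasure μ], (∀ᵐ v ∂μ, |v| ≤ 1) →
        (∀ S : Set ℝ, MeasurableSet S → μ S ≤ ENNReal.ofReal D * volume S) →
        ∀ (lam : ℝ) (B : Lt d → Lt d → ℝ), 0 < lam → lam ≤ lam0 → (∀ x y, B x y = B y x) →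
        (∀ x y, |B x y| ≤ κ * lam) → (∀ x y, B x y ≠ 0 → ∀ i, |x i - y i| ≤ r) →
        ∀ᵐ ω ∂(Measure.infinitePi fun _ : Lt d => μ),
          (∀ f : Lt d → ℂ, SqS f → ∃ m : Measure ℝ, IsSp (Hf (fun x y => A x y + B x y) lam ω) f m) ∧
          (∀ (f : Lt d → ℂ) (m : Measure ℝ), SqS f →
            IsSp (Hf (fun x y => A x y + B x y) lam ω) f m → ∃ S : Set ℝ, S.Countable ∧ m Sᶜ = 0) ∧
          ELf ν (Hf (fun x y => A x y + B x y) lam ω) := by
  obtain ⟨R, N, g, h, t, φ, E, hg, hN, hFB, hK, hper, hclose⟩ := hten d ε hd hε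
  refine ⟨fun x y => t x y - kf d x y, N, R + 1, hN, fun x y => ?_, fun x y v => ?_,
    fun x y hxy i => ?_, hclose, fun D r hD => ?_⟩
  · beta_reduce
    rw [hFB.sy x y, kf_sy x y]
  · beta_reduce
    rw [hper, Pool.Agent.H168.Y987.kf_tr (x + (N : ℤ) • v), Pool.Agent.H168.Y987.kf_tr x]
    congr 2
    abel
  · by_contra hc
    push Not at hc
    apply hxy
    have h1 : t x y = 0 := by
      by_contra h2
      have h3 := hFB.trg x y h2
      have h4 : (x - y) i = x i - y i := rfl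
      have h5 : ((x - y) i).natAbs ≤ nm (x - y) :=
        Finset.single_le_sum (f := fun i => ((x - y) i).natAbs) (fun _ _ => Nat.zero_le _)
          (Finset.mem_univ i)
      rw [h4] at h5
      have h6 := Int.natCast_natAbs (x i - y i)
      push_cast at hc
      omega
    have h2 : kf d x y = 0 := by
      by_contra h3
      have h4 := kf_rng x y h3 i
      push_cast at hc
      omega
    beta_reduce
    rw [h1, h2, sub_zero]
  · obtain ⟨lam0, κ, ν, hl0, hκ, hν, hm⟩ := hfm d R (d * r) g (1 / 2) D hg (by norm_num) (by norm_num) hD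
    refine ⟨lam0, κ, ν / 4, hl0, hκ, by positivity, ?_⟩
    intro μ _ hμ1 hμ2 lam B hlam hle hBs hBb hBr
    have hSB : SB (d * r) (κ * lam) B := by
      refine ⟨hBs, hBb, fun x y hxy => ?_⟩
      by_contra hne
      have h1 := hBr x y hne
      have h2 : nm (x - y) ≤ d * r := by
        unfold nm
        calc ∑ i, ((x - y) i).natAbs ≤ ∑ _i : Fin d, r := by
              refine Finset.sum_le_sum fun i _ => ?_
              have h3 := h1 i
              have h4 : (x - y) i = x i - y i := rfl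
              rw [h4]
              have h6 := Int.natCast_natAbs (x i - y i)
              omega
          _ = d * r := by rw [Finset.sum_const, Finset.card_univ, Fintype.card_fin, smul_eq_mul]
      omega
    obtain ⟨C, hC, hdec⟩ := hm h t φ E hFB hK μ lam ⟨hμ1, hμ2⟩ hlam hle B hSB
    obtain ⟨⟨h', hK'⟩, -⟩ := heqn d R (d * r) g h (κ * lam) t φ B E hFB hK (by positivity) hSB
    have hop := Pool.Agent.H168.Y987.op (Lt d) (tB t B) h' hK'
    have hRs : Rs (Op (tB t B)) := hop.2.2.1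
    have hb : ∀ᵐ ω ∂(Measure.infinitePi fun _ : Lt d => μ), ∀ x, |ω x| ≤ 1 := by
      rw [ae_all_iff]
      intro x
      exact (measurePreserving_eval_infinitePi (fun _ : Lt d => μ) x).quasiMeasurePreserving.ae hμ1
    filter_upwards [hfml d (Op (tB t B)) hRs lam (1 / 2) D C ν hlam (by norm_num) (by norm_num) hD hν μ
      ⟨hμ1, hμ2⟩ hdec, hb] with ω hω hω1
    have hact : ∀ (u : LL (Lt d)) (x : Lt d),
        Hf (fun x y => (t x y - kf d x y) + B x y) lam ω (fun y => u y) x =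
          HH (Op (tB t B)) lam ω u x := by
      intro u x
      refine hf_eq hK' (fun x y => ?_) lam hlam ω hω1 u x
      unfold tB
      ring
    have hsa := (HH_rs (Op (tB t B)) hRs lam ω).sa
    refine ⟨fun f hf => ?_, fun f m hf hm2 => ?_, el_of _ _ hω.1 _ hact⟩
    · obtain ⟨m, hm2, -⟩ := spm_exists (HH (Op (tB t B)) lam ω) hsa (lmk f hf)
      exact ⟨m, of_sp _ _ hsa hact f hf m hm2⟩
    · exact hω.2 (lmk f hf) m (sp_of _ _ hsa hact f hf m hm2)

end Pool.Agent.H121.FL
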