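import Pool.Agent.H121.FL.PolyP
import Pool.Agent.H121.FL.MainQ
import Pool.Agent.H987.QL.Page

/-! Project FL: the quantitative theorem, all eigenfunctions. -/

set_option autoImplicit false
set_option linter.unusedSectionVars false

open scoped BigOperators InnerProductSpace Topology ENNReal
open Filter MeasureTheory

namespace Pool.Agent.H121.FL

open Pool.Agent.Y662.TR (LL Cf Mw dv hu clp ll_ext ll_summable clp_eq Mw_apply dv_apply approx lmk
  add_coord sub_coord smul_coord ll_sum)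
open Pool.Agent.TH369.AN (Rz)
open Pool.Agent.TH369.MU (SpM ep zk spm_exists)
open Pool.Agent.H987.Z (Rs Gr SqS IsSp sp_of of_sp)
open Pool.Agent.H987.Y (Lt Ker Op kf)
open Pool.Agent.H121.Z987 (HH wt Q HH_apply HH_rs)
open Pool.Agent.H987.QL (PL pl_of)

theorem mainp (d : ℕ) (hd : 1 ≤ d) :
    ∃ A : ℝ → Lt d → Lt d → ℝ,
      (∀ ε : ℝ, 0 < ε → ε ≤ 1 → (∀ x y, A ε x y = A ε y x) ∧
        (∃ N : ℕ, 0 < N ∧ (N : ℝ) ≤ 116 * d / ε ∧
          ∀ x y v, A ε (x + (N : ℤ) • v) (y + (N : ℤ) • v) = A ε x y) ∧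
        (∃ R : ℕ, (R : ℝ) ≤ 233 * d ^ 2 / ε ∧ ∀ x y, A ε x y ≠ 0 → ∀ i, |x i - y i| ≤ R) ∧
        (∀ x, (Summable fun y => |A ε x y|) ∧ ∑' y, |A ε x y| ≤ ε)) ∧
      ∀ (D : ℝ) (r : ℕ), 0 < D → ∃ c : ℝ, 0 < c ∧ c < 1 ∧ ∀ ε : ℝ, 0 < ε → ε ≤ 1 →
        ∀ (μ : Measure ℝ) [IsProbabilityMeasure μ], (∀ᵐ v ∂μ, |v| ≤ 1) →
        (∀ S : Set ℝ, MeasurableSet S → μ S ≤ ENNReal.ofReal D * volume S) →
        ∀ (lam θ : ℝ) (B : Lt d → Lt d → ℝ), 0 < lam → lam ≤ θ → θ ≤ c * ε ^ (24 * d + 2) →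
        (∀ x y, B x y = B y x) → (∀ x y, |B x y| ≤ θ * lam) →
        (∀ x y, B x y ≠ 0 → ∀ i, |x i - y i| ≤ r) →
        ∀ᵐ ω ∂(Measure.infinitePi fun _ : Lt d => μ),
          (∀ f : Lt d → ℂ, SqS f →
            ∃ m : Measure ℝ, IsSp (Hf (fun x y => A ε x y + B x y) lam ω) f m) ∧
          (∀ (f : Lt d → ℂ) (m : Measure ℝ), SqS f →
            IsSp (Hf (fun x y => A ε x y + B x y) lam ω) f m → ∃ S : Set ℝ, S.Countable ∧ m Sᶜ = 0) ∧
          ELf (c * ε * Real.log (1 / θ)) (Hf (fun x y => A ε x y + B x y) lam ω) ∧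
          PL (c * ε * Real.log (1 / θ)) (Hf (fun x y => A ε x y + B x y) lam ω) := by
  have heqn : S_eqn := Pool.Agent.H588.FL.eqn
  have hdec : S_dec2 := Pool.Agent.H215.FL.dec2
  have hmob : S_mob := Pool.Agent.H721.FL.mob
  have hoff : S_off := Pool.Agent.H71.FL.off heqn
  have hfml : S_fml := Pool.Agent.H227.FL.fml Pool.Agent.H113.FL.eig Pool.Agent.H277.FL.wd
  have hT : ∀ ε : ℝ, ∃ (h : ℝ) (t φ : Lt d → Lt d → ℝ) (E : Lt d → ℝ), 0 < ε → ε ≤ 1 →
      FB (4 * (2 * mq d ε) * d) t φ E (gq d (2 * mq d ε) ε) ∧ Ker h t ∧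
      (∀ x y v, t (x + ((2 * (2 * mq d ε) : ℕ) : ℤ) • v) (y + ((2 * (2 * mq d ε) : ℕ) : ℤ) • v) =
        t x y) ∧
      ∀ x, (Summable fun y => |t x y - kf d x y|) ∧ ∑' y, |t x y - kf d x y| ≤ ε := by
    intro ε
    by_cases hε : 0 < ε
    · obtain ⟨h, t, φ, E, h1⟩ := tenq fold_ok d (mq d ε) (2 * mq d ε) rfl hd
        (by unfold mq; omega) ε hε (mq_close d hd ε hε)
      exact ⟨h, t, φ, E, fun _ _ => h1⟩
    · exact ⟨0, fun _ _ => 0, fun _ _ => 0, fun _ => 0, fun h => absurd h hε⟩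
  choose h t φ E hall using hT
  refine ⟨fun ε x y => t ε x y - kf d x y, fun ε hε hε1 => ?_, fun D r hD => ?_⟩
  · obtain ⟨hFB, hK, hper, hclose⟩ := hall ε hε hε1
    have hmle := mq_le d hd ε hε hε1
    have hdr : (1 : ℝ) ≤ d := by exact_mod_cast hd
    refine ⟨fun x y => ?_, ⟨2 * (2 * mq d ε), by unfold mq; omega, ?_, fun x y v => ?_⟩,
      ⟨4 * (2 * mq d ε) * d + 1, ?_, fun x y hxy i => ?_⟩, hclose⟩
    · beta_reduce
      rw [hFB.sy x y, kf_sy x y]
    · push_cast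
      calc 2 * (2 * (mq d ε : ℝ)) ≤ 2 * (2 * (29 * d / ε)) := by gcongr
        _ = 116 * d / ε := by ring
    · beta_reduce
      rw [hper, Pool.Agent.H168.Y987.kf_tr (x + ((2 * (2 * mq d ε) : ℕ) : ℤ) • v),
        Pool.Agent.H168.Y987.kf_tr x]
      congr 2
      abel
    · push_cast
      have hone : 1 ≤ (d : ℝ) ^ 2 / ε := by
        rw [le_div_iff₀ hε]
        nlinarith
      calc 4 * (2 * (mq d ε : ℝ)) * d + 1 ≤ 4 * (2 * (29 * d / ε)) * d + (d : ℝ) ^ 2 / ε := by gcongr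
        _ = 233 * (d : ℝ) ^ 2 / ε := by ring
    · obtain ⟨R, hR⟩ : ∃ R : ℕ, R = 4 * (2 * mq d ε) * d := ⟨_, rfl⟩
      rw [← hR] at hFB ⊢
      by_contra hc
      push Not at hc
      apply hxy
      have h1 : t ε x y = 0 := by
        by_contra h2
        have h3 := hFB.trg x y h2
        have h4 : (x - y) i = x i - y i := rfl
        have h5 : ((x - y) i).natAbs ≤ nm (x - y) :=
          Finset.single_le_sum (f := fun i => ((x - y) i).natAbs) (fun _ _ => Nat.zero_le _)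
            (Finset.mem_univ i)
        rw [h4] at h5
        have h6 := Int.natCast_natAbs (x i - y i)
        push_cast at hc
        omega
      have h2 : kf d x y = 0 := by
        by_contra h3
        have h4 := kf_rng x y h3 i
        push_cast at hc
        omega
      beta_reduce
      rw [h1, h2, sub_zero]
  · obtain ⟨c0, hc0, hon⟩ := onq heqn hdec hmob (1 / 2) D (by norm_num) (by norm_num) hD
    have hon' : ONQ (1 / 2) D c0 := hon
    obtain ⟨c, hc, hc1, hcs⟩ := constsP d r hd c0 hc0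
    refine ⟨c, hc, hc1, ?_⟩
    intro ε hε hε1 μ _ hμ1 hμ2 lam θ B hlam hle hθ hBs hBb hBr
    obtain ⟨hFB, hK, -, -⟩ := hall ε hε hε1
    obtain ⟨R, hR⟩ : ∃ R : ℕ, R = 4 * (2 * mq d ε) * d := ⟨_, rfl⟩
    obtain ⟨hrate, hg, hkq⟩ := hcs ε hε hε1 R hR
    rw [← hR] at hFB
    obtain ⟨g, hgd⟩ : ∃ g : ℝ, g = gq d (2 * mq d ε) ε := ⟨_, rfl⟩
    rw [← hgd] at hFB hg hkq
    have hθp : 0 < θ := lt_of_lt_of_le hlam hle
    have hθ1 : θ < 1 := by
      refine lt_of_le_of_lt hθ ?_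
      have : ε ^ (24 * d + 2) ≤ 1 := pow_le_one₀ hε.le hε1
      nlinarith
    have hSB : SB (d * r) (θ * lam) B := by
      refine ⟨hBs, hBb, fun x y hxy => ?_⟩
      by_contra hne
      have h1 := hBr x y hne
      have h2 : nm (x - y) ≤ d * r := by
        unfold nm
        calc ∑ i, ((x - y) i).natAbs ≤ ∑ _i : Fin d, r := by
              refine Finset.sum_le_sum fun i _ => ?_
              have h3 := h1 i
              have h4 : (x - y) i = x i - y i := rfl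
              rw [h4]
              have h6 := Int.natCast_natAbs (x i - y i)
              omega
          _ = d * r := by rw [Finset.sum_const, Finset.card_univ, Fintype.card_fin, smul_eq_mul]
      omega
    obtain ⟨ν, hν⟩ : ∃ ν : ℝ, ν = (1 / 2 : ℝ) / (2 * ((4 * (R + d * r) + 1 : ℕ) : ℝ)) *
      Real.log (1 / θ) := ⟨_, rfl⟩
    obtain ⟨C, hC, hdecay⟩ := fmq heqn hoff (1 / 2) D c0 hc0 hon' (by norm_num) (by norm_num) d R (d * r) g
      hg (h ε) (t ε) (φ ε) (E ε) hFB hK μ lam θ ⟨hμ1, hμ2⟩ hlam hle (hkq θ hθp hθ) B hSB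
    rw [← hν] at hdecay
    obtain ⟨⟨h', hK'⟩, -⟩ := heqn d R (d * r) g (h ε) (θ * lam) (t ε) (φ ε) B (E ε) hFB hK
      (by positivity) hSB
    have hop := Pool.Agent.H168.Y987.op (Lt d) (tB (t ε) B) h' hK'
    have hRs : Rs (Op (tB (t ε) B)) := hop.2.2.1
    have hb : ∀ᵐ ω ∂(Measure.infinitePi fun _ : Lt d => μ), ∀ x, |ω x| ≤ 1 := by
      rw [ae_all_iff]
      intro x
      exact (measurePreserving_eval_infinitePi (fun _ : Lt d => μ) x).quasiMeasurePreserving.ae hμ1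
    have hlog : 0 < Real.log (1 / θ) := by
      apply Real.log_pos
      rw [lt_div_iff₀ hθp]
      linarith
    have hν0 : 0 < ν := by
      rw [hν]
      positivity
    have hat : ∀ v : ℝ, μ {v} = 0 := by
      intro v
      refine le_antisymm ((hμ2 {v} (measurableSet_singleton v)).trans (le_of_eq ?_)) bot_le
      rw [Real.volume_singleton, mul_zero]
    have hrate' : c * ε * Real.log (1 / θ) ≤ ν / 4 := by
      calc c * ε * Real.log (1 / θ) ≤
          (1 / 2 : ℝ) / (2 * ((4 * (R + d * r) + 1 : ℕ) : ℝ)) / 4 * Real.log (1 / θ) :=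
            mul_le_mul_of_nonneg_right hrate hlog.le
        _ = ν / 4 := by
          rw [hν]
          ring
    filter_upwards [hfml d (Op (tB (t ε) B)) hRs lam (1 / 2) D C ν hlam
      (by norm_num) (by norm_num) hD hν0 μ ⟨hμ1, hμ2⟩ hdecay, hb,
      Pool.Agent.H962.ME.simple _ (Op (tB (t ε) B)) hRs lam hlam μ hμ1 hat] with ω hω hω1 hsim
    have hact : ∀ (u : LL (Lt d)) (x : Lt d),
        Hf (fun x y => (t ε x y - kf d x y) + B x y) lam ω (fun y => u y) x =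
          HH (Op (tB (t ε) B)) lam ω u x := by
      intro u x
      refine hf_eq hK' (fun x y => ?_) lam hlam ω hω1 u x
      unfold tB
      ring
    have hsa := (HH_rs (Op (tB (t ε) B)) hRs lam ω).sa
    refine ⟨fun f hf => ?_, fun f m hf hm2 => ?_, ?_, ?_⟩
    · obtain ⟨m, hm2, -⟩ := spm_exists (HH (Op (tB (t ε) B)) lam ω) hsa (lmk f hf)
      exact ⟨m, of_sp _ _ hsa hact f hf m hm2⟩
    · exact hω.2 (lmk f hf) m (sp_of _ _ hsa hact f hf m hm2)
    · exact elf_mono hrate' (el_of _ _ hω.1 _ hact)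
    · exact pl_of _ _ hrate' _ hsa hω.1 hsim _ hact

end Pool.Agent.H121.FL
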