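import Pool.Agent.H120.FL.One

/-! Project FL: the flat band structure on `ℤ` with blocks of a given length (after
`Pool/Agent/H120/FL/One.lean`). -/

set_option autoImplicit false

open scoped BigOperators InnerProductSpace Topology ENNReal
open Filter MeasureTheory

namespace Pool.Agent.H121.FL

open Pool.Agent.H120.FL

theorem oneq (hf : S_fold) (m : ℕ) (hm2 : 2 ≤ m) :
    ∃ (t ψ : ℤ → ℤ → ℝ) (e : ℤ → ℝ), F1 (2 * m) t ψ e ∧
    ∀ x, (Summable fun y => |t x y - k1 x y|) ∧
      ∑' y, |t x y - k1 x y| ≤ 4 * (4 * (Real.pi / (4 * (m - 1 : ℝ)))) := by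
  have hm : 1 ≤ m := by omega
  obtain ⟨hi, hmp, hmd', hmx, -, -, -, -, -, her⟩ := hf m hm2
  obtain ⟨o, l, ho1, ho2, ho3⟩ := eigs (2 * m) (fun r s => blk m (r : ℕ) (s : ℕ))
    (fun r s => blk_symm _ _)
  have hN : (0 : ℤ) < 2 * m := by omega
  -- the orthogonality relations
  have hOO : ∀ a b, HasSum (fun x => BD m hm o a x * BD m hm o b x) (if a = b then 1 else 0) := by
    intro a b
    have h := BD_sum hm o o a b
    have e : (if a / (2 * m : ℤ) = b / (2 * m : ℤ) then
        ∑ r, o (ix m hm a) r * o (ix m hm b) r else 0) = (if a = b then (1 : ℝ) else 0) := by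
      rw [ho1]
      by_cases hab : a = b
      · rw [hab, if_pos rfl, if_pos rfl, if_pos rfl]
      · rw [if_neg hab]
        by_cases h1 : a / (2 * m : ℤ) = b / (2 * m : ℤ)
        · rw [if_pos h1, if_neg fun h2 => hab (eq_of_block hm h1 h2)]
        · rw [if_neg h1]
    rw [e] at h
    exact h
  have hOO' : ∀ x y, HasSum (fun a => BD m hm o a x * BD m hm o a y) (if x = y then 1 else 0) := by
    intro x y
    have h := BD_sum hm (fun r s => o s r) (fun r s => o s r) x y
    have e : (if x / (2 * m : ℤ) = y / (2 * m : ℤ) then
        ∑ r, o r (ix m hm x) * o r (ix m hm y) else 0) = (if x = y then (1 : ℝ) else 0) := by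
      rw [ho2]
      by_cases hab : x = y
      · rw [hab, if_pos rfl, if_pos rfl, if_pos rfl]
      · rw [if_neg hab]
        by_cases h1 : x / (2 * m : ℤ) = y / (2 * m : ℤ)
        · rw [if_pos h1, if_neg fun h2 => hab (eq_of_block hm h1 h2)]
        · rw [if_neg h1]
    rw [e] at h
    simp only [← BD_swap hm o] at h
    exact h
  have hbO : ∀ x a, HasSum (fun y => blk m x y * BD m hm o a y)
      (l (ix m hm a) * BD m hm o a x) := by
    intro x a
    have h := BD_sum hm (fun r s => blk m (r : ℕ) (s : ℕ)) o x a
    have e : (if x / (2 * m : ℤ) = a / (2 * m : ℤ) then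
        ∑ r : Fin (2 * m), blk m ((ix m hm x : ℕ) : ℤ) ((r : ℕ) : ℤ) * o (ix m hm a) r else 0) =
        l (ix m hm a) * BD m hm o a x := by
      rw [ho3]
      unfold BD
      by_cases h1 : x / (2 * m : ℤ) = a / (2 * m : ℤ)
      · rw [if_pos h1, if_pos h1.symm]
      · rw [if_neg h1, if_neg fun h2 => h1 h2.symm, mul_zero]
    rw [e] at h
    simp only [← blk_BD hm] at h
    exact h
  have hcast : ((2 * m : ℕ) : ℤ) = 2 * (m : ℤ) := by push_cast; ring
  refine ⟨tt m, fun a x => rot m (BD m hm o a) x, fun a => l (ix m hm a), ?_, ?_⟩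
  · refine ⟨by omega, tt_symm, ?_, ?_, ?_, ?_, ?_, ?_, ?_, ?_, ?_⟩
    · intro x y
      rw [hcast]
      have hb : ∀ x y, blk m (x + 2 * m) (y + 2 * m) = blk m x y := by
        intro x y
        have := blk_per hm x y 1
        rw [mul_one] at this
        exact this
      unfold tt rot
      simp only [hmp, cc_per, sc_per, hb]
    · intro a x
      rw [hcast]
      unfold rot
      simp only [hmp, cc_per, sc_per, BD_per]
    · intro a
      rw [hcast]
      simp only [ix_per]
    · intro x y h
      rw [hcast]
      have h' : rot m (blk m x) y ≠ 0 ∨ rot m (blk m (mir m x)) y ≠ 0 := by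
        by_contra hc
        rw [not_or, not_not, not_not] at hc
        apply h
        unfold tt
        rw [hc.1, hc.2]
        ring
      have hx := abs_le.1 (hmd' x)
      have hy := abs_le.1 (hmd' y)
      rcases h' with h1 | h1
      · rcases rot_ne _ _ h1 with h2 | h2
        · have h3 := abs_le.1 (blk_rg _ _ h2)
          rw [abs_le]
          constructor <;> linarith [h3.1, h3.2]
        · have h3 := abs_le.1 (blk_rg _ _ h2)
          rw [abs_le]
          constructor <;> linarith [h3.1, h3.2]
      · rcases rot_ne _ _ h1 with h2 | h2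
        · have h3 := abs_le.1 (blk_rg _ _ h2)
          rw [abs_le]
          constructor <;> linarith [h3.1, h3.2]
        · have h3 := abs_le.1 (blk_rg _ _ h2)
          rw [abs_le]
          constructor <;> linarith [h3.1, h3.2]
    · intro a x h
      rw [hcast]
      have hx := abs_le.1 (hmd' x)
      rcases rot_ne _ _ h with h2 | h2
      · have h3 := abs_le.1 (block_close hm a x (BD_block hm o a x h2))
        rw [abs_le]
        constructor <;> linarith [h3.1, h3.2]
      · have h3 := abs_le.1 (block_close hm a _ (BD_block hm o a _ h2))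
        rw [abs_le]
        constructor <;> linarith [h3.1, h3.2]
    · intro a b
      exact rot_sum hm hi _ _ (BD_fin hm o a) _ (hOO a b)
    · intro x y
      have h1 := (hOO' x y).mul_left (cc m x * cc m y)
      have h2 := (hOO' x (mir m y)).mul_left (cc m x * sc m y)
      have h3 := (hOO' (mir m x) y).mul_left (sc m x * cc m y)
      have h4 := (hOO' (mir m x) (mir m y)).mul_left (sc m x * sc m y)
      have h5 := ((h1.sub h2).sub h3).add h4
      have e1 : (fun a => rot m (BD m hm o a) x * rot m (BD m hm o a) y) = fun a =>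
          cc m x * cc m y * (BD m hm o a x * BD m hm o a y) -
          cc m x * sc m y * (BD m hm o a x * BD m hm o a (mir m y)) -
          sc m x * cc m y * (BD m hm o a (mir m x) * BD m hm o a y) +
          sc m x * sc m y * (BD m hm o a (mir m x) * BD m hm o a (mir m y)) := by
        funext a
        unfold rot
        ring
      have e2 : (if x = y then (1 : ℝ) else 0) =
          cc m x * cc m y * (if x = y then 1 else 0) -
          cc m x * sc m y * (if x = mir m y then 1 else 0) -
          sc m x * cc m y * (if mir m x = y then 1 else 0) +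
          sc m x * sc m y * (if mir m x = mir m y then 1 else 0) := by
        by_cases hxy : x = y
        · subst hxy
          rw [if_pos rfl, if_neg (fun h => hmx x h.symm), if_neg (hmx x), if_pos rfl]
          have := cs_sq (m := m) x
          linear_combination -this
        · have h6 : mir m x ≠ mir m y := fun h => hxy (by rw [← hi x, h, hi])
          rw [if_neg hxy, if_neg h6]
          by_cases h7 : mir m x = y
          · rw [if_pos h7, if_pos (by rw [← h7, hi]), ← h7, cc_mir hm, sc_mir hm]
            ring
          · rw [if_neg h7, if_neg (fun h => h7 (by rw [h, hi]))]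
            ring
      rw [e1, e2]
      exact h5
    · intro a x
      have h1 := (rot_sum hm hi _ (BD m hm o a) (blk_fin x) _ (hbO x a)).mul_left (cc m x)
      have h2 := (rot_sum hm hi _ (BD m hm o a) (blk_fin (mir m x)) _
        (hbO (mir m x) a)).mul_left (sc m x)
      have h3 := h1.sub h2
      have e1 : (fun y => tt m x y * rot m (BD m hm o a) y) = fun y =>
          cc m x * (rot m (blk m x) y * rot m (BD m hm o a) y) -
          sc m x * (rot m (blk m (mir m x)) y * rot m (BD m hm o a) y) := by
        funext y
        unfold tt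
        ring
      have e2 : l (ix m hm a) * rot m (BD m hm o a) x =
          cc m x * (l (ix m hm a) * BD m hm o a x) -
          sc m x * (l (ix m hm a) * BD m hm o a (mir m x)) := by
        unfold rot
        ring
      rw [e1, e2]
      exact h3
    · intro a b hab hdvd x
      by_contra hne
      have ha := rot_ne _ _ (left_ne_zero_of_mul hne)
      have hb := rot_ne _ _ (right_ne_zero_of_mul hne)
      have ha' : a / (2 * m : ℤ) = x / (2 * m : ℤ) ∨ a / (2 * m : ℤ) = mir m x / (2 * m : ℤ) :=
        ha.imp (BD_block hm o a x) (BD_block hm o a _)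
      have hb' : b / (2 * m : ℤ) = x / (2 * m : ℤ) ∨ b / (2 * m : ℤ) = mir m x / (2 * m : ℤ) :=
        hb.imp (BD_block hm o b x) (BD_block hm o b _)
      rw [hcast] at hdvd
      obtain ⟨c, hc⟩ := hdvd
      have hac : a = b + 2 * m * (2 * c) := by linarith
      have hq : a / (2 * m : ℤ) = b / (2 * m : ℤ) + 2 * c := by
        rw [hac]
        exact Int.add_mul_ediv_left b (2 * c) hN.ne'
      have hc0 : c ≠ 0 := by
        intro h
        apply hab
        rw [hac, h]
        ring
      have hmm : mir m x / (2 * m : ℤ) = x / (2 * m : ℤ) - 1 ∨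
          mir m x / (2 * m : ℤ) = x / (2 * m : ℤ) + 1 :=
        (lft_mir hm x).imp (fun h => h.2.2.1) (fun h => h.2.2.1)
      omega
  · intro x
    have hb : ∀ y, |tt m x y - k1 x y| ≤ |er m x y| + |er m x (mir m y)| + |er m (mir m x) y| +
        |er m (mir m x) (mir m y)| := by
      intro y
      rw [tt_sub hm hi, abs_neg]
      have hcx := cc_le (m := m) x
      have hcy := cc_le (m := m) y
      have hsx := sc_le (m := m) x
      have hsy := sc_le (m := m) y
      have hgen : ∀ u v w : ℝ, |u| ≤ 1 → |v| ≤ 1 → |u * v * w| ≤ |w| := by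
        intro u v w hu hv
        rw [abs_mul, abs_mul]
        have : |u| * |v| ≤ 1 := mul_le_one₀ hu (abs_nonneg _) hv
        calc |u| * |v| * |w| ≤ 1 * |w| := mul_le_mul_of_nonneg_right this (abs_nonneg _)
          _ = |w| := one_mul _
      have g1 := hgen _ _ (er m x y) hcx hcy
      have g2 := hgen _ _ (er m x (mir m y)) hcx hsy
      have g3 := hgen _ _ (er m (mir m x) y) hsx hcy
      have g4 := hgen _ _ (er m (mir m x) (mir m y)) hsx hsy
      refine (abs_add_le _ _).trans (add_le_add ?_ g4)
      refine (abs_sub _ _).trans (add_le_add ?_ g3)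
      exact (abs_sub _ _).trans (add_le_add g1 g2)
    have s1 := (her x).1
    have s2 := (her (mir m x)).1
    have s1' : Summable fun y => |er m x (mir m y)| := ((mirE m hi).summable_iff).2 s1
    have s2' : Summable fun y => |er m (mir m x) (mir m y)| := ((mirE m hi).summable_iff).2 s2
    have t1' : ∑' y, |er m x (mir m y)| = ∑' y, |er m x y| :=
      (mirE m hi).tsum_eq (fun y => |er m x y|)
    have t2' : ∑' y, |er m (mir m x) (mir m y)| = ∑' y, |er m (mir m x) y| :=
      (mirE m hi).tsum_eq (fun y => |er m (mir m x) y|)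
    have sall := ((s1.add s1').add s2).add s2'
    have hsum : Summable fun y => |tt m x y - k1 x y| :=
      Summable.of_nonneg_of_le (fun y => abs_nonneg _) hb sall
    refine ⟨hsum, ?_⟩
    calc ∑' y, |tt m x y - k1 x y| ≤ ∑' y, (|er m x y| + |er m x (mir m y)| +
          |er m (mir m x) y| + |er m (mir m x) (mir m y)|) := hsum.tsum_le_tsum hb sall
      _ = ∑' y, |er m x y| + ∑' y, |er m x (mir m y)| + ∑' y, |er m (mir m x) y| +
          ∑' y, |er m (mir m x) (mir m y)| := by
        rw [((s1.add s1').add s2).tsum_add s2', (s1.add s1').tsum_add s2, s1.tsum_add s1']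
      _ ≤ 4 * (4 * (Real.pi / (4 * (m - 1 : ℝ)))) := by
        rw [t1', t2']
        have := (her x).2
        have := (her (mir m x)).2
        linarith

end Pool.Agent.H121.FL
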