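import Pool.Agent.H121.FL.PolyQ

/-! Project FL: the constants, with a better power. -/

set_option autoImplicit false

open scoped BigOperators Topology
open Filter

namespace Pool.Agent.H121.FL

/-- the bound of the constant by a power of `L` -/
theorem kq_leP (d : ℕ) (c0 L ε nR nR' N : ℝ) (M : ℕ) (hc0 : 0 < c0) (hL1 : 1 ≤ L)
    (hε : 0 < ε) (hεL : 1 / ε ≤ L) (hM1 : 1 ≤ M) (hM : (4 * M + 1 : ℝ) ≤ L) (h1 : 1 ≤ nR)
    (h2 : nR ≤ L ^ d) (h3 : 1 ≤ nR') (h4 : nR' ≤ L ^ d) (h5 : 1 ≤ N) (h6 : N ≤ L ^ d) :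
    kq (1 / 2) (gq d M ε) (c0 / nR ^ (1 / 2 : ℝ)) nR nR' N ≤
      Real.sqrt L * L ^ (6 * d) * (11 + 11 / c0) := by
  have hL0 : (0 : ℝ) < L := by linarith
  obtain ⟨Q, hQ⟩ : ∃ Q : ℝ, Q = L ^ d := ⟨_, rfl⟩
  have hQ1 : 1 ≤ Q := by rw [hQ]; exact one_le_pow₀ hL1
  rw [← hQ] at h2 h4 h6
  have hM1r : (1 : ℝ) ≤ M := by exact_mod_cast hM1
  -- the gap
  have hW : (2 * M : ℝ) ^ d ≤ Q := by
    rw [hQ]
    exact pow_le_pow_left₀ (by positivity) (by linarith) d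
  have hW0 : (0 : ℝ) < (2 * M : ℝ) ^ d := by positivity
  have hV : ((4 * M + 1 : ℝ)) ^ d ≤ Q := by
    rw [hQ]
    exact pow_le_pow_left₀ (by positivity) hM d
  have hV0 : (0 : ℝ) < (4 * M + 1 : ℝ) ^ d := by positivity
  obtain ⟨W, hWd⟩ : ∃ W : ℝ, W = (2 * M : ℝ) ^ d := ⟨_, rfl⟩
  obtain ⟨V, hVd⟩ : ∃ V : ℝ, V = (4 * M + 1 : ℝ) ^ d := ⟨_, rfl⟩
  have hgq : gq d M ε = ε / (2 * (W * V ^ 2 + 1)) / (2 * W ^ 2 + 1) := by
    rw [hWd, hVd]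
    rfl
  rw [← hWd] at hW hW0
  rw [← hVd] at hV hV0
  have hg0 : 0 < gq d M ε := by rw [hgq]; positivity
  have e1 : W * V ^ 2 ≤ Q ^ 3 := by
    calc W * V ^ 2 ≤ Q * Q ^ 2 := by gcongr
      _ = Q ^ 3 := by ring
  have hQ3 : 1 ≤ Q ^ 3 := one_le_pow₀ hQ1
  have hQ2 : 1 ≤ Q ^ 2 := one_le_pow₀ hQ1
  have e2 : 2 * (W * V ^ 2 + 1) ≤ 4 * Q ^ 3 := by linarith
  have e3 : 2 * W ^ 2 + 1 ≤ 3 * Q ^ 2 := by
    have : W ^ 2 ≤ Q ^ 2 := by gcongr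
    linarith
  obtain ⟨l, hl⟩ : ∃ l : ℝ, l = Real.sqrt L := ⟨_, rfl⟩
  obtain ⟨v, hv⟩ : ∃ v : ℝ, v = Real.sqrt Q := ⟨_, rfl⟩
  have hl2 : l ^ 2 = L := by rw [hl]; exact Real.sq_sqrt hL0.le
  have hv2 : v ^ 2 = Q := by rw [hv]; exact Real.sq_sqrt (by linarith)
  have hl1 : 1 ≤ l := by
    rw [hl]
    exact Real.one_le_sqrt.2 hL1
  have hv1 : 1 ≤ v := by
    rw [hv]
    exact Real.one_le_sqrt.2 hQ1
  have e4 : 2 / gq d M ε ≤ (5 * l * v ^ 5) ^ 2 := by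
    have e5 : 2 / gq d M ε = 2 * (1 / ε) * ((2 * (W * V ^ 2 + 1)) * (2 * W ^ 2 + 1)) := by
      rw [hgq]
      field_simp
    rw [e5]
    calc 2 * (1 / ε) * ((2 * (W * V ^ 2 + 1)) * (2 * W ^ 2 + 1)) ≤
        2 * L * ((4 * Q ^ 3) * (3 * Q ^ 2)) := by gcongr
      _ = 24 * (L * Q ^ 5) := by ring
      _ ≤ 25 * (L * Q ^ 5) := by
          have : 0 ≤ L * Q ^ 5 := by positivity
          linarith
      _ = (5 * l * v ^ 5) ^ 2 := by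
          rw [← hl2, ← hv2]
          ring
  have hp : (2 / gq d M ε) ^ (1 / 2 : ℝ) ≤ 5 * l * v ^ 5 := by
    rw [← Real.sqrt_eq_rpow]
    exact Real.sqrt_le_iff.2 ⟨by positivity, e4⟩
  have hp0 : 0 < (2 / gq d M ε) ^ (1 / 2 : ℝ) := by positivity
  have hm : (nR ^ 2) ^ (1 / 2 : ℝ) ≤ v ^ 2 := by
    have : (nR ^ 2) ^ (1 / 2 : ℝ) = nR := by
      rw [← Real.sqrt_eq_rpow, Real.sqrt_sq (by linarith)]
    rw [this, hv2]
    exact h2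
  have hm0 : 0 < (nR ^ 2) ^ (1 / 2 : ℝ) := by positivity
  obtain ⟨p, hpd⟩ : ∃ p : ℝ, p = (2 / gq d M ε) ^ (1 / 2 : ℝ) := ⟨_, rfl⟩
  obtain ⟨q, hqd⟩ : ∃ q : ℝ, q = (nR ^ 2) ^ (1 / 2 : ℝ) := ⟨_, rfl⟩
  rw [← hpd] at hp hp0
  rw [← hqd] at hm hm0
  obtain ⟨u, hu⟩ : ∃ u : ℝ, u = nR ^ (1 / 2 : ℝ) := ⟨_, rfl⟩
  have hu0 : 0 < u := by rw [hu]; positivity
  have huv : u ≤ v := by
    rw [hu, hv, ← Real.sqrt_eq_rpow]
    exact Real.sqrt_le_sqrt h2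
  have hk : kq (1 / 2) (gq d M ε) (c0 / nR ^ (1 / 2 : ℝ)) nR nR' N =
      p * (1 + q) * nR' + (p * (1 + q) * N + q) * nR' / (c0 / u) + 1 := by
    rw [hpd, hqd, hu]
    rfl
  rw [hk]
  rw [← hv2] at h4 h6
  have hv2' : 1 ≤ v ^ 2 := one_le_pow₀ hv1
  have hlv : 1 ≤ l * v ^ 9 := by
    have := one_le_pow₀ hv1 (n := 9)
    nlinarith
  have a1 : 1 + q ≤ 2 * v ^ 2 := by linarith
  have a2 : p * (1 + q) * nR' ≤ (5 * l * v ^ 5) * (2 * v ^ 2) * v ^ 2 := by gcongr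
  have a3 : p * (1 + q) * N + q ≤ 11 * (l * v ^ 9) := by
    have b1 : p * (1 + q) * N ≤ (5 * l * v ^ 5) * (2 * v ^ 2) * v ^ 2 := by gcongr
    have b2 : q ≤ l * v ^ 9 := by
      calc q ≤ 1 * (1 * v ^ 2) := by linarith
        _ ≤ l * (v ^ 7 * v ^ 2) := by
            have := one_le_pow₀ hv1 (n := 7)
            gcongr
        _ = l * v ^ 9 := by ring
    calc p * (1 + q) * N + q ≤ (5 * l * v ^ 5) * (2 * v ^ 2) * v ^ 2 + l * v ^ 9 :=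
          add_le_add b1 b2
      _ = _ := by ring
  have a4 : (p * (1 + q) * N + q) * nR' / (c0 / u) ≤ 11 * (l * v ^ 12) / c0 := by
    have b1 : (p * (1 + q) * N + q) * nR' / (c0 / u) = (p * (1 + q) * N + q) * nR' * u / c0 := by
      field_simp
    rw [b1]
    apply div_le_div_of_nonneg_right _ hc0.le
    calc (p * (1 + q) * N + q) * nR' * u ≤ 11 * (l * v ^ 9) * v ^ 2 * v := by gcongr
      _ = 11 * (l * v ^ 12) := by ring
  have a5 : l * v ^ 9 ≤ l * v ^ 12 := by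
    apply mul_le_mul_of_nonneg_left _ (by linarith)
    exact pow_le_pow_right₀ hv1 (by norm_num)
  have a6 : v ^ 12 = L ^ (6 * d) := by
    calc v ^ 12 = (v ^ 2) ^ 6 := by ring
      _ = L ^ (6 * d) := by
          rw [hv2, hQ, ← pow_mul, mul_comm d 6]
  calc p * (1 + q) * nR' + (p * (1 + q) * N + q) * nR' / (c0 / u) + 1 ≤
      10 * (l * v ^ 9) + 11 * (l * v ^ 12) / c0 + l * v ^ 9 := by
        have : (5 * l * v ^ 5) * (2 * v ^ 2) * v ^ 2 = 10 * (l * v ^ 9) := by ring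
        linarith
    _ ≤ 11 * (l * v ^ 12) + 11 * (l * v ^ 12) / c0 := by linarith
    _ = l * v ^ 12 * (11 + 11 / c0) := by ring
    _ = Real.sqrt L * L ^ (6 * d) * (11 + 11 / c0) := by rw [a6, ← hl]

/-- **the constants** -/
theorem constsP (d r : ℕ) (hd : 1 ≤ d) (c0 : ℝ) (hc0 : 0 < c0) : ∃ c : ℝ, 0 < c ∧ c < 1 ∧
    ∀ ε : ℝ, 0 < ε → ε ≤ 1 → ∀ R : ℕ, R = 4 * (2 * mq d ε) * d →
      c * ε ≤ (1 / 2) / (2 * ((4 * (R + d * r) + 1 : ℕ) : ℝ)) / 4 ∧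
      0 < gq d (2 * mq d ε) ε ∧
      ∀ θ : ℝ, 0 < θ → θ ≤ c * ε ^ (24 * d + 2) →
        kq (1 / 2) (gq d (2 * mq d ε) ε) (c0 / (nb d R : ℝ) ^ (1 / 2 : ℝ)) (nb d R)
          (nb d (4 * (R + d * r) + 1)) (nb d (2 * R)) * θ ^ ((1 / 2 : ℝ) / 2) ≤ 1 / 2 := by
  have hd' : (1 : ℝ) ≤ d := by exact_mod_cast hd
  obtain ⟨L0, hL0⟩ : ∃ L0 : ℝ, L0 = 2 * (928 * (d : ℝ) ^ 2 + 4 * d * r + 1) + 1 := ⟨_, rfl⟩
  have hL24 : 24 ≤ L0 := by
    rw [hL0]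
    have : 0 ≤ 4 * (d : ℝ) * r := by positivity
    nlinarith
  have hL00 : 0 < L0 := by linarith
  have hs0 : 1 ≤ Real.sqrt L0 := Real.one_le_sqrt.2 (by linarith)
  obtain ⟨K, hK⟩ : ∃ K : ℝ, K = Real.sqrt L0 * L0 ^ (6 * d) * (11 + 11 / c0) := ⟨_, rfl⟩
  have hK1 : 1 ≤ K := by
    rw [hK]
    have h1 : 1 ≤ L0 ^ (6 * d) := one_le_pow₀ (by linarith)
    have h2 : 0 < 11 / c0 := by positivity
    have h3 : 1 ≤ Real.sqrt L0 * L0 ^ (6 * d) := by nlinarith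
    nlinarith
  obtain ⟨c, hc⟩ : ∃ c : ℝ, c = min ((1 / (2 * K)) ^ 4) (1 / (16 * L0)) := ⟨_, rfl⟩
  have hc1 : 0 < c := by
    rw [hc]
    exact lt_min (by positivity) (by positivity)
  have hc2 : c ≤ (1 / (2 * K)) ^ 4 := by rw [hc]; exact min_le_left _ _
  have hc3 : c ≤ 1 / (16 * L0) := by rw [hc]; exact min_le_right _ _
  refine ⟨c, hc1, ?_, ?_⟩
  · refine lt_of_le_of_lt hc3 ?_
    rw [div_lt_one (by positivity)]
    linarith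
  intro ε hε hε1 R hR
  have hm := mq_le d hd ε hε hε1
  have hm2 : 2 ≤ mq d ε := by unfold mq; omega
  have hm2r : (2 : ℝ) ≤ mq d ε := by exact_mod_cast hm2
  have hRr : (R : ℝ) = 8 * mq d ε * d := by rw [hR]; push_cast; ring
  have hR1 : (R : ℝ) ≤ 232 * (d : ℝ) ^ 2 / ε := by
    rw [hRr]
    calc 8 * (mq d ε : ℝ) * d ≤ 8 * (29 * d / ε) * d := by gcongr
      _ = 232 * (d : ℝ) ^ 2 / ε := by ring
  have hone : 1 ≤ 1 / ε := by
    rw [le_div_iff₀ hε]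
    linarith
  have hR' : (((4 * (R + d * r) + 1 : ℕ) : ℝ)) ≤ (928 * (d : ℝ) ^ 2 + 4 * d * r + 1) / ε := by
    push_cast
    have h1 : 4 * ((d : ℝ) * r) + 1 ≤ (4 * d * r + 1) / ε := by
      rw [le_div_iff₀ hε]
      have : 0 ≤ (d : ℝ) * r := by positivity
      nlinarith
    calc 4 * ((R : ℝ) + d * r) + 1 = 4 * R + (4 * (d * r) + 1) := by ring
      _ ≤ 4 * (232 * (d : ℝ) ^ 2 / ε) + (4 * d * r + 1) / ε := by gcongr
      _ = _ := by ring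
  obtain ⟨L, hL⟩ : ∃ L : ℝ, L = L0 / ε := ⟨_, rfl⟩
  have hLL0 : L0 ≤ L := by
    rw [hL, le_div_iff₀ hε]
    nlinarith
  have hLpos : 0 < L := by linarith
  have hLε : 1 / ε ≤ L := by
    rw [hL]
    apply div_le_div_of_nonneg_right _ hε.le
    linarith
  have hR'L : 2 * (((4 * (R + d * r) + 1 : ℕ) : ℝ)) + 1 ≤ L := by
    have h1 : 2 * (((4 * (R + d * r) + 1 : ℕ) : ℝ)) + 1 ≤
        2 * ((928 * (d : ℝ) ^ 2 + 4 * d * r + 1) / ε) + 1 / ε := by linarith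
    refine h1.trans (le_of_eq ?_)
    rw [hL, hL0]
    ring
  have hnbL : ∀ k : ℕ, (2 * (k : ℝ) + 1) ≤ L → (nb d k : ℝ) ≤ L ^ d := by
    intro k hk
    unfold nb
    push_cast
    exact pow_le_pow_left₀ (by positivity) hk d
  have hRle : (R : ℝ) ≤ ((4 * (R + d * r) + 1 : ℕ) : ℝ) := by
    have : R ≤ 4 * (R + d * r) + 1 := by omega
    exact_mod_cast this
  have h2Rle : ((2 * R : ℕ) : ℝ) ≤ ((4 * (R + d * r) + 1 : ℕ) : ℝ) := by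
    have : 2 * R ≤ 4 * (R + d * r) + 1 := by omega
    exact_mod_cast this
  have hMR : (4 * ((2 * mq d ε : ℕ) : ℝ) + 1) ≤ L := by
    have h1 : 4 * ((2 * mq d ε : ℕ) : ℝ) ≤ R := by
      rw [hRr]
      push_cast
      nlinarith
    linarith
  have hg0 : 0 < gq d (2 * mq d ε) ε := by
    unfold gq
    positivity
  refine ⟨?_, hg0, ?_⟩
  · have h1 : 0 < (((4 * (R + d * r) + 1 : ℕ) : ℝ)) := by positivity
    have h2 : (1 / 2 : ℝ) / (2 * ((4 * (R + d * r) + 1 : ℕ) : ℝ)) / 4 =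
        1 / (16 * ((4 * (R + d * r) + 1 : ℕ) : ℝ)) := by
      field_simp
      norm_num
    rw [h2, le_div_iff₀ (by positivity)]
    have h3 : ((4 * (R + d * r) + 1 : ℕ) : ℝ) ≤ L := by linarith
    calc c * ε * (16 * ((4 * (R + d * r) + 1 : ℕ) : ℝ)) ≤ 1 / (16 * L0) * ε * (16 * L) := by gcongr
      _ = 1 := by
        rw [hL]
        field_simp
  · intro θ hθ hθc
    have hk := kq_leP d c0 L ε (nb d R) (nb d (4 * (R + d * r) + 1)) (nb d (2 * R))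
      (2 * mq d ε) hc0 (by linarith) hε hLε (by omega) hMR
      (Pool.Agent.H328.FL.one_le_nb d R) (hnbL R (by linarith))
      (Pool.Agent.H328.FL.one_le_nb d _) (hnbL _ hR'L)
      (Pool.Agent.H328.FL.one_le_nb d _) (hnbL _ (by linarith))
    have hsε : 0 < Real.sqrt ε := Real.sqrt_pos.2 hε
    have hθ4 : θ ^ ((1 / 2 : ℝ) / 2) ≤ 1 / (2 * K) * (Real.sqrt ε * ε ^ (6 * d)) := by
      have e1 : (1 / (2 * K) * (Real.sqrt ε * ε ^ (6 * d))) ^ 4 =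
          (1 / (2 * K)) ^ 4 * ε ^ (24 * d + 2) := by
        have e3 : Real.sqrt ε ^ 4 = ε ^ 2 := by
          calc Real.sqrt ε ^ 4 = (Real.sqrt ε ^ 2) ^ 2 := by ring
            _ = ε ^ 2 := by rw [Real.sq_sqrt hε.le]
        rw [mul_pow, mul_pow, e3, ← pow_mul, ← pow_add]
        congr 2
        ring
      have e2 : θ ≤ (1 / (2 * K) * (Real.sqrt ε * ε ^ (6 * d))) ^ 4 := by
        rw [e1]
        exact hθc.trans (mul_le_mul_of_nonneg_right hc2 (by positivity))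
      calc θ ^ ((1 / 2 : ℝ) / 2) ≤
            ((1 / (2 * K) * (Real.sqrt ε * ε ^ (6 * d))) ^ 4) ^ ((1 / 2 : ℝ) / 2) :=
            Real.rpow_le_rpow hθ.le e2 (by norm_num)
        _ = 1 / (2 * K) * (Real.sqrt ε * ε ^ (6 * d)) := by
            rw [← Real.rpow_natCast, ← Real.rpow_mul (by positivity)]
            norm_num
    have hLp : L ^ (6 * d) = L0 ^ (6 * d) / ε ^ (6 * d) := by rw [hL, div_pow]
    have hLs : Real.sqrt L = Real.sqrt L0 / Real.sqrt ε := by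
      rw [hL, Real.sqrt_div hL00.le]
    calc kq (1 / 2) (gq d (2 * mq d ε) ε) (c0 / (nb d R : ℝ) ^ (1 / 2 : ℝ)) (nb d R)
          (nb d (4 * (R + d * r) + 1)) (nb d (2 * R)) * θ ^ ((1 / 2 : ℝ) / 2) ≤
        (Real.sqrt L * L ^ (6 * d) * (11 + 11 / c0)) *
          (1 / (2 * K) * (Real.sqrt ε * ε ^ (6 * d))) := by
          apply mul_le_mul hk hθ4 (by positivity)
          positivity
      _ = 1 / 2 := by
          rw [hLp, hLs, hK]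
          field_simp

end Pool.Agent.H121.FL
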