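import Mathlib

/-! Project FL: quantitative separation of finitely many values. -/

set_option autoImplicit false

open scoped BigOperators ENNReal
open MeasureTheory

namespace Pool.Agent.H121.FL

theorem sepq {P : Type} [Fintype P] (u w : P → ℝ) (hw : ∀ p q, p ≠ q → 1 ≤ |w p - w q|)
    (τ0 : ℝ) (h0 : 0 < τ0) : ∃ τ : ℝ, 0 < τ ∧ τ ≤ τ0 ∧
      ∀ p q, p ≠ q → τ0 / (2 * (Fintype.card P : ℝ) ^ 2 + 1) ≤
        |(u p + τ * w p) - (u q + τ * w q)| := by
  classical
  obtain ⟨n, hn⟩ : ∃ n : ℝ, n = Fintype.card P := ⟨_, rfl⟩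
  obtain ⟨g, hg⟩ : ∃ g : ℝ, g = τ0 / (2 * n ^ 2 + 1) := ⟨_, rfl⟩
  have hn0 : 0 ≤ n := by rw [hn]; positivity
  have hg0 : 0 < g := by rw [hg]; positivity
  rw [← hn, ← hg]
  by_contra hcon
  push Not at hcon
  -- the bad sets
  have hsub : Set.Ioc 0 τ0 ⊆ ⋃ pq : P × P,
      Metric.ball (if pq.1 = pq.2 then 0 else (u pq.2 - u pq.1) / (w pq.1 - w pq.2)) g := by
    intro τ hτ
    obtain ⟨p, q, hpq, hlt⟩ := hcon τ hτ.1 hτ.2
    rw [Set.mem_iUnion]
    refine ⟨(p, q), ?_⟩
    rw [Metric.mem_ball, Real.dist_eq, if_neg hpq]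
    have h1 := hw p q hpq
    have h2 : w p - w q ≠ 0 := by
      intro h
      rw [h, abs_zero] at h1
      linarith
    have h3 : (τ - (u q - u p) / (w p - w q)) * (w p - w q) =
        (u p + τ * w p) - (u q + τ * w q) := by
      field_simp
      ring
    have h4 : |τ - (u q - u p) / (w p - w q)| * |w p - w q| < g := by
      rw [← abs_mul, h3]
      exact hlt
    calc |τ - (u q - u p) / (w p - w q)| = |τ - (u q - u p) / (w p - w q)| * 1 := (mul_one _).symm
      _ ≤ |τ - (u q - u p) / (w p - w q)| * |w p - w q| :=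
          mul_le_mul_of_nonneg_left h1 (abs_nonneg _)
      _ < g := h4
  have h1 : volume (Set.Ioc 0 τ0) ≤ ∑ _pq : P × P, ENNReal.ofReal (2 * g) := by
    refine (measure_mono hsub).trans ((measure_iUnion_fintype_le _ _).trans ?_)
    refine Finset.sum_le_sum fun pq _ => ?_
    rw [Real.volume_ball]
  rw [Real.volume_Ioc, sub_zero, Finset.sum_const, Finset.card_univ, Fintype.card_prod,
    nsmul_eq_mul, ← ENNReal.ofReal_natCast, ← ENNReal.ofReal_mul (by positivity),
    ENNReal.ofReal_le_ofReal_iff (by positivity)] at h1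
  push_cast at h1
  rw [← hn] at h1
  have h2 : g * (2 * n ^ 2 + 1) = τ0 := by
    rw [hg]
    field_simp
  nlinarith

end Pool.Agent.H121.FL
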