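import Pool.Agent.H539.FLT.Ten
import Pool.Agent.H121.FL.OneQ
import Pool.Agent.H121.FL.SepQ

/-! Project FL: the flat band structure on `ℤ^d` with explicit range and gap (after
`Pool/Agent/H539/FLT/Ten.lean`). -/

set_option autoImplicit false

open scoped BigOperators Topology
open Filter

namespace Pool.Agent.H121.FL

open Pool.Agent.H987.Y (Lt Ker kf)
open Pool.Agent.H539.FLT

/-- the gap -/
noncomputable def gq (d M : ℕ) (ε : ℝ) : ℝ :=
  ε / (2 * (((2 * M : ℝ) ^ d) * ((4 * M + 1 : ℝ) ^ d) ^ 2 + 1)) / (2 * ((2 * M : ℝ) ^ d) ^ 2 + 1)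

/-- the flat band structure on `ℤ^d`, quantitatively -/
theorem tenq (hf : S_fold) (d m M : ℕ) (hM : M = 2 * m) (hd : 1 ≤ d) (hm : 2 ≤ m) (ε : ℝ) (hε : 0 < ε)
    (hmε : d * (4 * (4 * (Real.pi / (4 * (m - 1 : ℝ))))) ≤ ε / 2) :
    ∃ (h : ℝ) (t φ : Lt d → Lt d → ℝ) (E : Lt d → ℝ), FB (4 * M * d) t φ E (gq d M ε) ∧ Ker h t ∧
      (∀ x y v, t (x + ((2 * M : ℕ) : ℤ) • v) (y + ((2 * M : ℕ) : ℤ) • v) = t x y) ∧
      ∀ x, (Summable fun y => |t x y - kf d x y|) ∧ ∑' y, |t x y - kf d x y| ≤ ε := by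
  classical
  have hd' : (0 : ℝ) < d := by exact_mod_cast hd
  obtain ⟨t1, ψ, e, H, hcl0⟩ := oneq hf m hm
  rw [← hM] at H
  have hcl : ∀ x, (Summable fun y => |t1 x y - k1 x y|) ∧
      ∑' y, |t1 x y - k1 x y| ≤ ε / (2 * d) := by
    intro x
    refine ⟨(hcl0 x).1, (hcl0 x).2.trans ?_⟩
    rw [le_div_iff₀ (by positivity)]
    linarith
  have hMpos := H.pos
  have : NeZero (2 * M) := ⟨by omega⟩
  obtain ⟨res, hres⟩ : ∃ res : Lt d → (Fin d → ZMod (2 * M)),
      ∀ a i, res a i = ((a i : ℤ) : ZMod (2 * M)) := ⟨fun a i => ((a i : ℤ) : ZMod (2 * M)),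
        fun _ _ => rfl⟩
  obtain ⟨rep, hrep⟩ : ∃ rep : (Fin d → ZMod (2 * M)) → Lt d, ∀ p, res (rep p) = p := by
    refine ⟨fun p i => ((p i).val : ℤ), fun p => funext fun i => ?_⟩
    rw [hres]
    simp
  obtain ⟨ι, hι, hιb⟩ : ∃ ι : (Fin d → ZMod (2 * M)) → ℝ, (∀ p q, p ≠ q → 1 ≤ |ι p - ι q|) ∧
      ∀ p, |ι p| ≤ Fintype.card (Fin d → ZMod (2 * M)) := by
    refine ⟨fun p => ((Fintype.equivFin (Fin d → ZMod (2 * M)) p : ℕ) : ℝ), ?_, ?_⟩
    · intro p q hpq
      beta_reduce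
      have h1 : (Fintype.equivFin (Fin d → ZMod (2 * M)) p : ℕ) ≠
          Fintype.equivFin (Fin d → ZMod (2 * M)) q :=
        fun h => hpq ((Fintype.equivFin _).injective (Fin.ext h))
      have h2 : (1 : ℤ) ≤ |((Fintype.equivFin (Fin d → ZMod (2 * M)) p : ℕ) : ℤ) -
          ((Fintype.equivFin (Fin d → ZMod (2 * M)) q : ℕ) : ℤ)| :=
        Int.one_le_abs (by omega)
      exact_mod_cast h2
    · intro p
      beta_reduce
      rw [abs_of_nonneg (Nat.cast_nonneg _)]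
      exact_mod_cast (Fintype.equivFin (Fin d → ZMod (2 * M)) p).isLt.le
  obtain ⟨W, hW⟩ : ∃ W : ℝ, W = Fintype.card (Fin d → ZMod (2 * M)) := ⟨_, rfl⟩
  have hW2 : W = (2 * M : ℝ) ^ d := by
    rw [hW, Fintype.card_fun, ZMod.card, Fintype.card_fin]
    push_cast
    ring
  rw [← hW] at hιb
  have hW0 : 0 ≤ W := by rw [hW]; positivity
  obtain ⟨K, hK⟩ : ∃ K : ℝ, K = W * ((4 * M + 1 : ℝ) ^ d) ^ 2 := ⟨_, rfl⟩
  have hK0 : 0 ≤ K := by rw [hK]; positivity
  obtain ⟨E0, hE0⟩ : ∃ E0 : Lt d → ℝ, ∀ a, E0 a = 2 * (d : ℝ) - ∑ i, e (a i) :=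
    ⟨_, fun _ => rfl⟩
  have hdvd : ∀ a b : Lt d, res a = res b → ∀ i, (2 * M : ℤ) ∣ a i - b i := by
    intro a b hab i
    have h1 := congrFun hab i
    rw [hres, hres, eq_comm, ZMod.intCast_eq_intCast_iff_dvd_sub] at h1
    push_cast at h1
    exact h1
  have hE0res : ∀ a b, res a = res b → E0 a = E0 b := by
    intro a b hab
    rw [hE0, hE0]
    congr 1
    refine Finset.sum_congr rfl fun i _ => ?_
    obtain ⟨m, hm⟩ := hdvd a b hab i
    have h1 : a i = b i + M * (2 * m) := by linarith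
    rw [h1, e_shift H]
  obtain ⟨τ, hτ0, hτ1, hsep⟩ := sepq (fun p => E0 (rep p)) ι hι (ε / (2 * (K + 1)))
    (by positivity)
  rw [← hW] at hsep
  obtain ⟨g, hgd⟩ : ∃ g : ℝ, g = ε / (2 * (K + 1)) / (2 * W ^ 2 + 1) := ⟨_, rfl⟩
  rw [← hgd] at hsep
  have hg : 0 < g := by rw [hgd]; positivity
  have hgq : g = gq d M ε := by
    rw [hgd, hK, hW2]
    rfl
  have hτK : τ * K ≤ ε / 2 := by
    calc τ * K ≤ ε / (2 * (K + 1)) * (K + 1) :=
          mul_le_mul hτ1 (by linarith) hK0 (by positivity)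
      _ = ε / 2 := by field_simp
  obtain ⟨E, hE⟩ : ∃ E : Lt d → ℝ, ∀ a, E a = E0 a + τ * ι (res a) := ⟨_, fun _ => rfl⟩
  have hEg : ∀ a b, res a ≠ res b → g ≤ |E a - E b| := by
    intro a b hab
    have h1 := hsep _ _ hab
    rw [hE, hE, hE0res a (rep (res a)) (hrep _).symm, hE0res b (rep (res b)) (hrep _).symm]
    exact h1
  obtain ⟨w, hw⟩ : ∃ w : Lt d → ℝ, ∀ a, w a = ι (res a) := ⟨_, fun _ => rfl⟩
  obtain ⟨T, hT⟩ : ∃ T : Lt d → Lt d → ℝ, ∀ x y, T x y = t0 t1 x y + τ * Jk ψ w x y :=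
    ⟨_, fun _ _ => rfl⟩
  have hcl2 : ∀ x, (Summable fun y => |T x y - kf d x y|) ∧ ∑' y, |T x y - kf d x y| ≤ ε := by
    intro x
    obtain ⟨a1, a2⟩ := abs_t0 (d := d) H hcl x
    obtain ⟨b1, b2⟩ := Jk_abs H w W (fun a => by rw [hw]; exact hιb _) x
    have h1 : ∀ y, |T x y - kf d x y| ≤ |t0 t1 x y - kf d x y| + τ * |Jk ψ w x y| := by
      intro y
      rw [hT, show t0 t1 x y + τ * Jk ψ w x y - kf d x y =
        (t0 t1 x y - kf d x y) + τ * Jk ψ w x y by ring]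
      refine (abs_add_le _ _).trans (le_of_eq ?_)
      rw [abs_mul, abs_of_pos hτ0]
    have h2 := a1.add (b1.mul_left τ)
    have h3 : Summable fun y => |T x y - kf d x y| :=
      Summable.of_nonneg_of_le (fun y => abs_nonneg _) h1 h2
    refine ⟨h3, (h3.tsum_le_tsum h1 h2).trans ?_⟩
    rw [a1.tsum_add (b1.mul_left τ), tsum_mul_left]
    have h4 : (d : ℝ) * (ε / (2 * d)) = ε / 2 := by field_simp
    rw [h4] at a2
    rw [← hK] at b2
    have h5 := mul_le_mul_of_nonneg_left b2 hτ0.le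
    linarith
  have hTsy : ∀ x y, T x y = T y x := by
    intro x y
    rw [hT, hT, t0_symm H.sy, Jk_symm]
  have hTne : ∀ x y, T x y ≠ 0 → ∀ i, |x i - y i| ≤ ((4 * M : ℕ) : ℤ) := by
    intro x y hxy i
    push_cast
    by_contra h1
    have h2 : t0 t1 x y = 0 := by
      by_contra h3
      exact h1 (t0_ne H h3 i)
    have h3 : Jk ψ w x y = 0 := by
      by_contra h3
      exact h1 (Jk_ne H h3 i)
    apply hxy
    rw [hT, h2, h3, mul_zero, add_zero]
  rw [← hgq]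
  refine ⟨ε + 4 * d, T, fi ψ, E, ?_, ?_, ?_, hcl2⟩
  · refine ⟨hTsy, fun x y hxy => nm_le x y (4 * M) (hTne x y hxy), fun a x hax => ?_,
      fi_on H, fi_cp H, fun a x => ?_, fun a b hab => ?_, fun a b hab hEab x => ?_⟩
    · refine nm_le a x (4 * M) fun i => ?_
      have h1 := fi_ne H hax i
      push_cast
      have h2 : (0 : ℤ) ≤ M := by positivity
      linarith
    · have h1 := (t0_eg H a x).add ((Jk_eg H w a x).mul_left τ)
      have h2 : (2 * (d : ℝ) - ∑ i, e (a i)) * fi ψ a x + τ * (w a * fi ψ a x) =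
          E a * fi ψ a x := by
        rw [hE, hE0, hw]
        ring
      rw [h2] at h1
      refine h1.congr_fun fun y => ?_
      rw [hT]
      ring
    · refine hEg a b fun h1 => hab ?_
      rw [hE, hE, h1, hE0res a b h1]
    · have h1 : res a = res b := by
        by_contra h2
        have h3 := hEg a b h2
        rw [hEab, sub_self, abs_zero] at h3
        linarith
      obtain ⟨i, hi⟩ := Function.ne_iff.1 hab
      have h2 := H.ds (a i) (b i) hi (hdvd a b h1 i) (x i)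
      unfold fi
      rw [← Finset.prod_mul_distrib]
      exact Finset.prod_eq_zero (Finset.mem_univ i) h2
  · refine ⟨by positivity, hTsy, fun x => ?_, fun x => ?_⟩
    · refine Summable.of_nonneg_of_le (fun y => abs_nonneg _) (fun y => ?_)
        ((hcl2 x).1.add (abs_kf x).1)
      calc |T x y| = |(T x y - kf d x y) + kf d x y| := by rw [sub_add_cancel]
        _ ≤ _ := abs_add_le _ _
    · have h1 : ∀ y, |T x y| ≤ |T x y - kf d x y| + |kf d x y| := by
        intro y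
        calc |T x y| = |(T x y - kf d x y) + kf d x y| := by rw [sub_add_cancel]
          _ ≤ _ := abs_add_le _ _
      have h2 := (hcl2 x).1.add (abs_kf x).1
      have h3 : Summable fun y => |T x y| :=
        Summable.of_nonneg_of_le (fun y => abs_nonneg _) h1 h2
      refine (h3.tsum_le_tsum h1 h2).trans ?_
      rw [(hcl2 x).1.tsum_add (abs_kf x).1]
      exact add_le_add (hcl2 x).2 (abs_kf x).2
  · intro x y v
    rw [hT, hT]
    have h1 : t0 t1 (x + ((2 * M : ℕ) : ℤ) • v) (y + ((2 * M : ℕ) : ℤ) • v) = t0 t1 x y := by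
      apply t0_shift
      intro x y
      have := shift_mul (K := t1) (c := M) (fun x y => H.per x y) 2 x y
      rw [← this]
      congr 1 <;> push_cast <;> ring
    have h2 : Jk ψ w (x + ((2 * M : ℕ) : ℤ) • v) (y + ((2 * M : ℕ) : ℤ) • v) = Jk ψ w x y := by
      apply Jk_shift H
      intro a v
      rw [hw, hw]
      congr 1
      funext i
      rw [hres, hres]
      simp only [Pi.add_apply, Pi.smul_apply, smul_eq_mul, Int.cast_add, Int.cast_mul]
      rw [Int.cast_natCast, ZMod.natCast_self, zero_mul, add_zero]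
    rw [h1, h2]

end Pool.Agent.H121.FL
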