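import Pool.Agent.H121.FL.FmQ
import Pool.Agent.H121.FL.TenQ

/-! Project FL: the constants are powers of the size of the blocks. -/

set_option autoImplicit false

open scoped BigOperators Topology
open Filter

namespace Pool.Agent.H121.FL

/-- the bound of the constant by a power of `L` -/
theorem kq_le (d : ℕ) (hd : 1 ≤ d) (c0 L ε nR nR' N : ℝ) (M : ℕ) (hc0 : 0 < c0) (hL : 24 ≤ L)
    (hε : 0 < ε) (hεL : 1 / ε ≤ L) (hM1 : 1 ≤ M) (hM : (4 * M + 1 : ℝ) ≤ L) (h1 : 1 ≤ nR)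
    (h2 : nR ≤ L ^ d) (h3 : 1 ≤ nR') (h4 : nR' ≤ L ^ d) (h5 : 1 ≤ N) (h6 : N ≤ L ^ d) :
    kq (1 / 2) (gq d M ε) (c0 / nR ^ (1 / 2 : ℝ)) nR nR' N ≤ L ^ (11 * d) * (3 + 3 / c0) := by
  have hL1 : (1 : ℝ) ≤ L := by linarith
  have hL0 : (0 : ℝ) < L := by linarith
  obtain ⟨Q, hQ⟩ : ∃ Q : ℝ, Q = L ^ d := ⟨_, rfl⟩
  have hQ1 : 1 ≤ Q := by rw [hQ]; exact one_le_pow₀ hL1
  rw [← hQ] at h2 h4 h6
  have hM1r : (1 : ℝ) ≤ M := by exact_mod_cast hM1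
  -- the gap
  have hW : (2 * M : ℝ) ^ d ≤ Q := by
    rw [hQ]
    exact pow_le_pow_left₀ (by positivity) (by linarith) d
  have hW0 : (0 : ℝ) < (2 * M : ℝ) ^ d := by positivity
  have hV : ((4 * M + 1 : ℝ)) ^ d ≤ Q := by
    rw [hQ]
    exact pow_le_pow_left₀ (by positivity) hM d
  have hV0 : (0 : ℝ) < (4 * M + 1 : ℝ) ^ d := by positivity
  obtain ⟨W, hWd⟩ : ∃ W : ℝ, W = (2 * M : ℝ) ^ d := ⟨_, rfl⟩
  obtain ⟨V, hVd⟩ : ∃ V : ℝ, V = (4 * M + 1 : ℝ) ^ d := ⟨_, rfl⟩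
  have hgq : gq d M ε = ε / (2 * (W * V ^ 2 + 1)) / (2 * W ^ 2 + 1) := by
    rw [hWd, hVd]
    rfl
  rw [← hWd] at hW hW0
  rw [← hVd] at hV hV0
  have hg0 : 0 < gq d M ε := by rw [hgq]; positivity
  have e1 : W * V ^ 2 ≤ Q ^ 3 := by
    calc W * V ^ 2 ≤ Q * Q ^ 2 := by gcongr
      _ = Q ^ 3 := by ring
  have hQ3 : 1 ≤ Q ^ 3 := one_le_pow₀ hQ1
  have hQ2 : 1 ≤ Q ^ 2 := one_le_pow₀ hQ1
  have e2 : 2 * (W * V ^ 2 + 1) ≤ 4 * Q ^ 3 := by linarith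
  have e3 : 2 * W ^ 2 + 1 ≤ 3 * Q ^ 2 := by
    have : W ^ 2 ≤ Q ^ 2 := by gcongr
    linarith
  have e4 : 2 / gq d M ε ≤ L ^ (5 * d + 2) := by
    have e5 : 2 / gq d M ε = 2 * (1 / ε) * ((2 * (W * V ^ 2 + 1)) * (2 * W ^ 2 + 1)) := by
      rw [hgq]
      field_simp
    rw [e5]
    calc 2 * (1 / ε) * ((2 * (W * V ^ 2 + 1)) * (2 * W ^ 2 + 1)) ≤
        2 * L * ((4 * Q ^ 3) * (3 * Q ^ 2)) := by gcongr
      _ = 24 * L * Q ^ 5 := by ring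
      _ ≤ L * L * Q ^ 5 := by gcongr
      _ = L ^ (5 * d + 2) := by
          rw [hQ, ← pow_mul, pow_add, mul_comm d 5]
          ring
  have hP1 : (1 : ℝ) ≤ L ^ (5 * d + 2) := one_le_pow₀ hL1
  have half_le : ∀ x y : ℝ, 0 ≤ x → x ≤ y → 1 ≤ y → x ^ (1 / 2 : ℝ) ≤ y := by
    intro x y hx hxy hy
    calc x ^ (1 / 2 : ℝ) ≤ y ^ (1 / 2 : ℝ) := Real.rpow_le_rpow hx hxy (by norm_num)
      _ ≤ y ^ (1 : ℝ) := Real.rpow_le_rpow_of_exponent_le hy (by norm_num)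
      _ = y := Real.rpow_one y
  have hp : (2 / gq d M ε) ^ (1 / 2 : ℝ) ≤ L ^ (5 * d + 2) :=
    half_le _ _ (by positivity) e4 hP1
  have hp0 : 0 < (2 / gq d M ε) ^ (1 / 2 : ℝ) := by positivity
  have hm : (nR ^ 2) ^ (1 / 2 : ℝ) ≤ Q := by
    have : (nR ^ 2) ^ (1 / 2 : ℝ) = nR := by
      rw [← Real.sqrt_eq_rpow, Real.sqrt_sq (by linarith)]
    rw [this]
    exact h2
  have hm0 : 0 < (nR ^ 2) ^ (1 / 2 : ℝ) := by positivity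
  obtain ⟨P, hP⟩ : ∃ P : ℝ, P = L ^ (5 * d + 2) := ⟨_, rfl⟩
  obtain ⟨p, hpd⟩ : ∃ p : ℝ, p = (2 / gq d M ε) ^ (1 / 2 : ℝ) := ⟨_, rfl⟩
  obtain ⟨q, hqd⟩ : ∃ q : ℝ, q = (nR ^ 2) ^ (1 / 2 : ℝ) := ⟨_, rfl⟩
  rw [← hP, ← hpd] at hp
  rw [← hpd] at hp0
  rw [← hqd] at hm hm0
  rw [← hP] at hP1
  obtain ⟨u, hu⟩ : ∃ u : ℝ, u = nR ^ (1 / 2 : ℝ) := ⟨_, rfl⟩
  have hu0 : 0 < u := by rw [hu]; positivity
  have huQ : u ≤ Q := by rw [hu]; exact half_le _ _ (by linarith) h2 hQ1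
  have hk : kq (1 / 2) (gq d M ε) (c0 / nR ^ (1 / 2 : ℝ)) nR nR' N =
      p * (1 + q) * nR' + (p * (1 + q) * N + q) * nR' / (c0 / u) + 1 := by
    rw [hpd, hqd, hu]
    rfl
  rw [hk]
  have a1 : p * (1 + q) ≤ P * (2 * Q) := by
    have : 1 + q ≤ 2 * Q := by linarith
    gcongr
  have a2 : p * (1 + q) * nR' ≤ P * (2 * Q) * Q := by gcongr
  have a3 : p * (1 + q) * N + q ≤ 3 * (P * Q ^ 2) := by
    have b1 : p * (1 + q) * N ≤ P * (2 * Q) * Q := by gcongr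
    have b2 : q ≤ P * Q ^ 2 := by
      calc q ≤ 1 * (1 * Q) := by linarith
        _ ≤ P * (Q * Q) := by gcongr
        _ = P * Q ^ 2 := by ring
    calc p * (1 + q) * N + q ≤ P * (2 * Q) * Q + P * Q ^ 2 := add_le_add b1 b2
      _ = _ := by ring
  have a4 : (p * (1 + q) * N + q) * nR' / (c0 / u) ≤ 3 * (P * Q ^ 4) / c0 := by
    have b1 : (p * (1 + q) * N + q) * nR' / (c0 / u) = (p * (1 + q) * N + q) * nR' * u / c0 := by
      field_simp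
    rw [b1]
    apply div_le_div_of_nonneg_right _ hc0.le
    calc (p * (1 + q) * N + q) * nR' * u ≤ 3 * (P * Q ^ 2) * Q * Q := by gcongr
      _ = 3 * (P * Q ^ 4) := by ring
  have hQ4 : Q ^ 2 ≤ Q ^ 4 := pow_le_pow_right₀ hQ1 (by norm_num)
  have a5 : P * (2 * Q) * Q ≤ 2 * (P * Q ^ 4) := by
    calc P * (2 * Q) * Q = 2 * (P * Q ^ 2) := by ring
      _ ≤ _ := by gcongr
  have a6 : 1 ≤ P * Q ^ 4 := by
    have : 1 ≤ Q ^ 4 := one_le_pow₀ hQ1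
    nlinarith
  have a7 : P * Q ^ 4 ≤ L ^ (11 * d) := by
    rw [hP, hQ, ← pow_mul, ← pow_add]
    apply pow_le_pow_right₀ hL1
    omega
  have a8 : 0 ≤ 3 + 3 / c0 := by positivity
  calc p * (1 + q) * nR' + (p * (1 + q) * N + q) * nR' / (c0 / u) + 1 ≤
      2 * (P * Q ^ 4) + 3 * (P * Q ^ 4) / c0 + P * Q ^ 4 := by linarith
    _ = P * Q ^ 4 * (3 + 3 / c0) := by ring
    _ ≤ L ^ (11 * d) * (3 + 3 / c0) := mul_le_mul_of_nonneg_right a7 a8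

/-- half of the length of the blocks -/
noncomputable def mq (d : ℕ) (ε : ℝ) : ℕ := ⌈8 * Real.pi * d / ε⌉₊ + 2

theorem mq_close (d : ℕ) (hd : 1 ≤ d) (ε : ℝ) (hε : 0 < ε) :
    d * (4 * (4 * (Real.pi / (4 * ((mq d ε : ℕ) - 1 : ℝ))))) ≤ ε / 2 := by
  have hd' : (0 : ℝ) < d := by exact_mod_cast hd
  have h1 := Nat.le_ceil (8 * Real.pi * d / ε)
  have h2 : ((mq d ε : ℕ) : ℝ) = ⌈8 * Real.pi * d / ε⌉₊ + 2 := by
    unfold mq
    push_cast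
    ring
  have h3 : 8 * Real.pi * d / ε ≤ (mq d ε : ℕ) - 1 := by
    rw [h2]
    linarith
  have h4 : 0 < 8 * Real.pi * d / ε := by positivity
  have h5 : (0 : ℝ) < (mq d ε : ℕ) - 1 := by linarith
  have h6 : d * (4 * (4 * (Real.pi / (4 * ((mq d ε : ℕ) - 1 : ℝ))))) =
      4 * Real.pi * d / ((mq d ε : ℕ) - 1 : ℝ) := by
    field_simp
  rw [h6, div_le_iff₀ h5]
  rw [div_le_iff₀ hε] at h3
  nlinarith

theorem mq_le (d : ℕ) (hd : 1 ≤ d) (ε : ℝ) (hε : 0 < ε) (hε1 : ε ≤ 1) :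
    (mq d ε : ℝ) ≤ 29 * d / ε := by
  have hd' : (1 : ℝ) ≤ d := by exact_mod_cast hd
  have h1 := Nat.ceil_lt_add_one (show 0 ≤ 8 * Real.pi * d / ε by positivity)
  have h2 : ((mq d ε : ℕ) : ℝ) = ⌈8 * Real.pi * d / ε⌉₊ + 2 := by
    unfold mq
    push_cast
    ring
  have h3 : 8 * Real.pi * d ≤ 26 * d := by
    have := Real.pi_lt_d2
    nlinarith
  have h4 : (mq d ε : ℝ) ≤ 8 * Real.pi * d / ε + 3 := by
    rw [h2]
    linarith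
  have h5 : (8 * Real.pi * d) / ε ≤ 26 * d / ε := div_le_div_of_nonneg_right h3 hε.le
  have h6 : 3 ≤ 3 * d / ε := by
    rw [le_div_iff₀ hε]
    nlinarith
  calc (mq d ε : ℝ) ≤ 26 * d / ε + 3 * d / ε := by linarith
    _ = 29 * d / ε := by ring

/-- **the constants** -/
theorem consts (d r : ℕ) (hd : 1 ≤ d) (c0 : ℝ) (hc0 : 0 < c0) : ∃ c : ℝ, 0 < c ∧ c < 1 ∧
    ∀ ε : ℝ, 0 < ε → ε ≤ 1 → ∀ R : ℕ, R = 4 * (2 * mq d ε) * d →
      c * ε ≤ (1 / 2) / (2 * ((4 * (R + d * r) + 1 : ℕ) : ℝ)) / 4 ∧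
      0 < gq d (2 * mq d ε) ε ∧
      ∀ θ : ℝ, 0 < θ → θ ≤ c * ε ^ (44 * d) →
        kq (1 / 2) (gq d (2 * mq d ε) ε) (c0 / (nb d R : ℝ) ^ (1 / 2 : ℝ)) (nb d R)
          (nb d (4 * (R + d * r) + 1)) (nb d (2 * R)) * θ ^ ((1 / 2 : ℝ) / 2) ≤ 1 / 2 := by
  have hd' : (1 : ℝ) ≤ d := by exact_mod_cast hd
  obtain ⟨L0, hL0⟩ : ∃ L0 : ℝ, L0 = 2 * (928 * (d : ℝ) ^ 2 + 4 * d * r + 1) + 1 := ⟨_, rfl⟩
  have hL24 : 24 ≤ L0 := by
    rw [hL0]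
    have : 0 ≤ 4 * (d : ℝ) * r := by positivity
    nlinarith
  have hL00 : 0 < L0 := by linarith
  obtain ⟨K, hK⟩ : ∃ K : ℝ, K = L0 ^ (11 * d) * (3 + 3 / c0) := ⟨_, rfl⟩
  have hK1 : 1 ≤ K := by
    rw [hK]
    have h1 : 1 ≤ L0 ^ (11 * d) := one_le_pow₀ (by linarith)
    have h2 : 0 < 3 / c0 := by positivity
    nlinarith
  obtain ⟨c, hc⟩ : ∃ c : ℝ, c = min ((1 / (2 * K)) ^ 4) (1 / (16 * L0)) := ⟨_, rfl⟩
  have hc1 : 0 < c := by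
    rw [hc]
    exact lt_min (by positivity) (by positivity)
  have hc2 : c ≤ (1 / (2 * K)) ^ 4 := by rw [hc]; exact min_le_left _ _
  have hc3 : c ≤ 1 / (16 * L0) := by rw [hc]; exact min_le_right _ _
  refine ⟨c, hc1, ?_, ?_⟩
  · refine lt_of_le_of_lt hc3 ?_
    rw [div_lt_one (by positivity)]
    linarith
  intro ε hε hε1 R hR
  have hm := mq_le d hd ε hε hε1
  have hm2 : 2 ≤ mq d ε := by unfold mq; omega
  have hm2r : (2 : ℝ) ≤ mq d ε := by exact_mod_cast hm2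
  have hRr : (R : ℝ) = 8 * mq d ε * d := by rw [hR]; push_cast; ring
  have hR1 : (R : ℝ) ≤ 232 * (d : ℝ) ^ 2 / ε := by
    rw [hRr]
    calc 8 * (mq d ε : ℝ) * d ≤ 8 * (29 * d / ε) * d := by gcongr
      _ = 232 * (d : ℝ) ^ 2 / ε := by ring
  have hone : 1 ≤ 1 / ε := by
    rw [le_div_iff₀ hε]
    linarith
  have hR' : (((4 * (R + d * r) + 1 : ℕ) : ℝ)) ≤ (928 * (d : ℝ) ^ 2 + 4 * d * r + 1) / ε := by
    push_cast
    have h1 : 4 * ((d : ℝ) * r) + 1 ≤ (4 * d * r + 1) / ε := by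
      rw [le_div_iff₀ hε]
      have : 0 ≤ (d : ℝ) * r := by positivity
      nlinarith
    calc 4 * ((R : ℝ) + d * r) + 1 = 4 * R + (4 * (d * r) + 1) := by ring
      _ ≤ 4 * (232 * (d : ℝ) ^ 2 / ε) + (4 * d * r + 1) / ε := by gcongr
      _ = _ := by ring
  obtain ⟨L, hL⟩ : ∃ L : ℝ, L = L0 / ε := ⟨_, rfl⟩
  have hLL0 : L0 ≤ L := by
    rw [hL, le_div_iff₀ hε]
    nlinarith
  have hLpos : 0 < L := by linarith
  have hLε : 1 / ε ≤ L := by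
    rw [hL]
    apply div_le_div_of_nonneg_right _ hε.le
    linarith
  have hR'L : 2 * (((4 * (R + d * r) + 1 : ℕ) : ℝ)) + 1 ≤ L := by
    have h1 : 2 * (((4 * (R + d * r) + 1 : ℕ) : ℝ)) + 1 ≤
        2 * ((928 * (d : ℝ) ^ 2 + 4 * d * r + 1) / ε) + 1 / ε := by linarith
    refine h1.trans (le_of_eq ?_)
    rw [hL, hL0]
    ring
  have hnbL : ∀ k : ℕ, (2 * (k : ℝ) + 1) ≤ L → (nb d k : ℝ) ≤ L ^ d := by
    intro k hk
    unfold nb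
    push_cast
    exact pow_le_pow_left₀ (by positivity) hk d
  have hRle : (R : ℝ) ≤ ((4 * (R + d * r) + 1 : ℕ) : ℝ) := by
    have : R ≤ 4 * (R + d * r) + 1 := by omega
    exact_mod_cast this
  have h2Rle : ((2 * R : ℕ) : ℝ) ≤ ((4 * (R + d * r) + 1 : ℕ) : ℝ) := by
    have : 2 * R ≤ 4 * (R + d * r) + 1 := by omega
    exact_mod_cast this
  have hMR : (4 * ((2 * mq d ε : ℕ) : ℝ) + 1) ≤ L := by
    have h1 : 4 * ((2 * mq d ε : ℕ) : ℝ) ≤ R := by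
      rw [hRr]
      push_cast
      nlinarith
    linarith
  have hg0 : 0 < gq d (2 * mq d ε) ε := by
    unfold gq
    positivity
  refine ⟨?_, hg0, ?_⟩
  · have h1 : 0 < (((4 * (R + d * r) + 1 : ℕ) : ℝ)) := by positivity
    have h2 : (1 / 2 : ℝ) / (2 * ((4 * (R + d * r) + 1 : ℕ) : ℝ)) / 4 =
        1 / (16 * ((4 * (R + d * r) + 1 : ℕ) : ℝ)) := by
      field_simp
      norm_num
    rw [h2, le_div_iff₀ (by positivity)]
    have h3 : ((4 * (R + d * r) + 1 : ℕ) : ℝ) ≤ L := by linarith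
    calc c * ε * (16 * ((4 * (R + d * r) + 1 : ℕ) : ℝ)) ≤ 1 / (16 * L0) * ε * (16 * L) := by gcongr
      _ = 1 := by
        rw [hL]
        field_simp
  · intro θ hθ hθc
    have hk := kq_le d hd c0 L ε (nb d R) (nb d (4 * (R + d * r) + 1)) (nb d (2 * R))
      (2 * mq d ε) hc0 (hL24.trans hLL0) hε hLε (by omega) hMR
      (Pool.Agent.H328.FL.one_le_nb d R) (hnbL R (by linarith))
      (Pool.Agent.H328.FL.one_le_nb d _) (hnbL _ hR'L)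
      (Pool.Agent.H328.FL.one_le_nb d _) (hnbL _ (by linarith))
    have hθ4 : θ ^ ((1 / 2 : ℝ) / 2) ≤ 1 / (2 * K) * ε ^ (11 * d) := by
      have e1 : (1 / (2 * K) * ε ^ (11 * d)) ^ 4 = (1 / (2 * K)) ^ 4 * ε ^ (44 * d) := by
        rw [mul_pow, ← pow_mul]
        congr 2
        ring
      have e2 : θ ≤ (1 / (2 * K) * ε ^ (11 * d)) ^ 4 := by
        rw [e1]
        exact hθc.trans (mul_le_mul_of_nonneg_right hc2 (by positivity))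
      calc θ ^ ((1 / 2 : ℝ) / 2) ≤ ((1 / (2 * K) * ε ^ (11 * d)) ^ 4) ^ ((1 / 2 : ℝ) / 2) :=
            Real.rpow_le_rpow hθ.le e2 (by norm_num)
        _ = 1 / (2 * K) * ε ^ (11 * d) := by
            rw [← Real.rpow_natCast, ← Real.rpow_mul (by positivity)]
            norm_num
    have hLp : L ^ (11 * d) = L0 ^ (11 * d) / ε ^ (11 * d) := by rw [hL, div_pow]
    calc kq (1 / 2) (gq d (2 * mq d ε) ε) (c0 / (nb d R : ℝ) ^ (1 / 2 : ℝ)) (nb d R)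
          (nb d (4 * (R + d * r) + 1)) (nb d (2 * R)) * θ ^ ((1 / 2 : ℝ) / 2) ≤
        (L ^ (11 * d) * (3 + 3 / c0)) * (1 / (2 * K) * ε ^ (11 * d)) := by
          apply mul_le_mul hk hθ4 (by positivity)
          positivity
      _ = 1 / 2 := by
          rw [hLp, hK]
          field_simp

end Pool.Agent.H121.FL
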